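import Pool.Agent.Run7.h874.LE.Gen2

/-!
# Lagrange's elliptic solutions
-/

set_option autoImplicit false

namespace Run7.h874.LE

open Set Filter Topology

/-- Position on the Kepler ellipse with eccentricity `e` and semi-major axis `1`, at the
eccentric anomaly `θ`. -/
noncomputable def ellPos (e θ : ℝ) : ℂ :=
  ((Real.cos θ - e : ℝ) : ℂ) + ((Real.sqrt (1 - e ^ 2) * Real.sin θ : ℝ) : ℂ) * Complex.I

/-- Velocity on that ellipse with respect to the mean anomaly. -/
noncomputable def ellVel (e θ : ℝ) : ℂ :=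
  (((-Real.sin θ : ℝ) : ℂ) + ((Real.sqrt (1 - e ^ 2) * Real.cos θ : ℝ) : ℂ) * Complex.I) /
    ((1 - e * Real.cos θ : ℝ) : ℂ)

/-- For all `t ≥ 0` the relative positions and velocities of `x` stay within the relative error
`η` of those of a Lagrange homographic solution with eccentricity `e`: an equilateral triangle
(shape `c`), `θ` the eccentric anomaly (Kepler's equation), semi-major axis `L`, mean motion `ω`
(Kepler's third law). -/
def NearL (η e : ℝ) (m : Fin 3 → ℝ) (x : ℝ → Ph 3) : Prop :=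
  ∃ (L ω s : ℝ) (u c : ℂ) (θ : ℝ → ℝ), 0 < L ∧ ω ≠ 0 ∧ ω ^ 2 * L ^ 3 = m 0 + m 1 + m 2 ∧
    ‖u‖ = 1 ∧ c ^ 2 - c + 1 = 0 ∧ (∀ t, θ t - e * Real.sin (θ t) = ω * t + s) ∧
    ∀ t, 0 ≤ t →
      ‖((x t).1 1 - (x t).1 0) - L * u * ellPos e (θ t)‖ ≤ η * L ∧
      ‖((x t).1 2 - (x t).1 0) - c * (L * u * ellPos e (θ t))‖ ≤ η * L ∧
      ‖((x t).2 1 - (x t).2 0) - ω * L * u * ellVel e (θ t)‖ ≤ η * (|ω| * L) ∧
      ‖((x t).2 2 - (x t).2 0) - c * (ω * L * u * ellVel e (θ t))‖ ≤ η * (|ω| * L)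

theorem shape_cases {c : ℂ} (h : c ^ 2 - c + 1 = 0) : c = cp ∨ c = cm := by
  have h3 : ((Real.sqrt 3 : ℝ) : ℂ) ^ 2 = 3 := by
    have : (Real.sqrt 3) ^ 2 = 3 := Real.sq_sqrt (by norm_num)
    exact_mod_cast this
  have h1 : (c - cp) * (c - cm) = 0 := by
    unfold cp cm
    linear_combination h + (Complex.I ^ 2 * (-1/4)) * h3 + (-3/4) * Complex.I_sq
  rcases mul_eq_zero.mp h1 with h2 | h2
  · left; exact sub_eq_zero.mp h2
  · right; exact sub_eq_zero.mp h2

theorem sqrt_bd {e : ℝ} (h0 : 0 ≤ e) (h1 : e ≤ 1) :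
    1 - e ^ 2 ≤ Real.sqrt (1 - e ^ 2) ∧ Real.sqrt (1 - e ^ 2) ≤ 1 := by
  have h2 : 0 ≤ 1 - e ^ 2 := by nlinarith
  constructor
  · apply Real.le_sqrt_of_sq_le
    nlinarith
  · have h3 := Real.sqrt_le_sqrt (show 1 - e ^ 2 ≤ 1 by nlinarith)
    rwa [Real.sqrt_one] at h3

theorem expI (θ : ℝ) : Complex.exp (θ * Complex.I) = Real.cos θ + Real.sin θ * Complex.I := by
  rw [Complex.exp_mul_I, Complex.ofReal_cos, Complex.ofReal_sin]

theorem exp_diff (a b : ℝ) :
    ‖Complex.exp (a * Complex.I) - Complex.exp (b * Complex.I)‖ ≤ |a - b| := by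
  have h1 : Complex.exp (a * Complex.I) - Complex.exp (b * Complex.I)
      = Complex.exp (b * Complex.I) * (Complex.exp (Complex.I * ((a - b : ℝ) : ℂ)) - 1) := by
    rw [mul_sub, ← Complex.exp_add, mul_one]
    congr 2
    push_cast; ring
  rw [h1, norm_mul, Complex.norm_exp_ofReal_mul_I, one_mul]
  exact Real.norm_exp_I_mul_ofReal_sub_one_le

theorem ellPos_near {e θ τ : ℝ} (h0 : 0 ≤ e) (h1 : e ≤ 1/10) (h : θ - e * Real.sin θ = τ) :
    ‖ellPos e θ - Complex.exp (τ * Complex.I)‖ ≤ 4 * e := by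
  obtain ⟨s1, s2⟩ := sqrt_bd h0 (by linarith)
  have hs := Real.abs_sin_le_one θ
  have e1 : ellPos e θ - Complex.exp (τ * Complex.I)
      = (Complex.exp (θ * Complex.I) - Complex.exp (τ * Complex.I)) + ((-e : ℝ) : ℂ)
        + (((Real.sqrt (1 - e ^ 2) - 1) * Real.sin θ : ℝ) : ℂ) * Complex.I := by
    rw [expI θ]
    unfold ellPos
    push_cast; ring
  have n1 : ‖Complex.exp (θ * Complex.I) - Complex.exp (τ * Complex.I)‖ ≤ e := by
    refine (exp_diff θ τ).trans ?_
    rw [← h, show θ - (θ - e * Real.sin θ) = e * Real.sin θ by ring, abs_mul, abs_of_nonneg h0]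
    exact mul_le_of_le_one_right h0 hs
  have n2 : ‖((-e : ℝ) : ℂ)‖ ≤ e := by
    rw [Complex.norm_real, Real.norm_eq_abs, abs_neg, abs_of_nonneg h0]
  have n3 : ‖(((Real.sqrt (1 - e ^ 2) - 1) * Real.sin θ : ℝ) : ℂ) * Complex.I‖ ≤ e ^ 2 := by
    rw [norm_mul, Complex.norm_I, mul_one, Complex.norm_real, Real.norm_eq_abs, abs_mul]
    have h2 : |Real.sqrt (1 - e ^ 2) - 1| ≤ e ^ 2 := by
      rw [abs_le]; constructor <;> nlinarith
    calc |Real.sqrt (1 - e ^ 2) - 1| * |Real.sin θ| ≤ e ^ 2 * 1 :=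
          mul_le_mul h2 hs (abs_nonneg _) (by positivity)
      _ = e ^ 2 := mul_one _
  rw [e1]
  refine (norm_add_le _ _).trans ?_
  have := norm_add_le (Complex.exp (θ * Complex.I) - Complex.exp (τ * Complex.I)) ((-e : ℝ) : ℂ)
  nlinarith

theorem ellVel_near {e θ τ : ℝ} (h0 : 0 ≤ e) (h1 : e ≤ 1/10) (h : θ - e * Real.sin θ = τ) :
    ‖ellVel e θ - Complex.I * Complex.exp (τ * Complex.I)‖ ≤ 4 * e := by
  obtain ⟨s1, s2⟩ := sqrt_bd h0 (by linarith)
  have hs := Real.abs_sin_le_one θ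
  have hc := Real.abs_cos_le_one θ
  set X : ℂ := ((-Real.sin θ : ℝ) : ℂ) + ((Real.sqrt (1 - e ^ 2) * Real.cos θ : ℝ) : ℂ) * Complex.I
    with hX
  set d : ℝ := 1 - e * Real.cos θ with hd
  have hd1 : 9/10 ≤ d := by
    have := (abs_le.mp hc).2
    nlinarith
  have hd0 : (d : ℂ) ≠ 0 := by
    have : d ≠ 0 := by linarith
    exact_mod_cast this
  have n1 : ‖Complex.exp (θ * Complex.I) - Complex.exp (τ * Complex.I)‖ ≤ e := by
    refine (exp_diff θ τ).trans ?_
    rw [← h, show θ - (θ - e * Real.sin θ) = e * Real.sin θ by ring, abs_mul, abs_of_nonneg h0]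
    exact mul_le_of_le_one_right h0 hs
  have eX : X = Complex.I * Complex.exp (θ * Complex.I)
      + (((Real.sqrt (1 - e ^ 2) - 1) * Real.cos θ : ℝ) : ℂ) * Complex.I := by
    rw [expI θ, hX]
    push_cast
    linear_combination (-(Complex.sin (θ:ℂ))) * Complex.I_sq
  have n3 : ‖(((Real.sqrt (1 - e ^ 2) - 1) * Real.cos θ : ℝ) : ℂ) * Complex.I‖ ≤ e ^ 2 := by
    rw [norm_mul, Complex.norm_I, mul_one, Complex.norm_real, Real.norm_eq_abs, abs_mul]
    have h2 : |Real.sqrt (1 - e ^ 2) - 1| ≤ e ^ 2 := by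
      rw [abs_le]; constructor <;> nlinarith
    calc |Real.sqrt (1 - e ^ 2) - 1| * |Real.cos θ| ≤ e ^ 2 * 1 :=
          mul_le_mul h2 hc (abs_nonneg _) (by positivity)
      _ = e ^ 2 := mul_one _
  have nX : ‖X‖ ≤ 1 + e ^ 2 := by
    rw [eX]
    refine (norm_add_le _ _).trans ?_
    rw [norm_mul, Complex.norm_I, Complex.norm_exp_ofReal_mul_I, one_mul]
    linarith
  have eV : ellVel e θ - Complex.I * Complex.exp (τ * Complex.I)
      = X / d * ((e * Real.cos θ : ℝ) : ℂ)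
        + (((Real.sqrt (1 - e ^ 2) - 1) * Real.cos θ : ℝ) : ℂ) * Complex.I
        + Complex.I * (Complex.exp (θ * Complex.I) - Complex.exp (τ * Complex.I)) := by
    have e1 : ellVel e θ = X / d := rfl
    have e2 : X / d = X / d * ((e * Real.cos θ : ℝ) : ℂ) + X := by
      have : ((e * Real.cos θ : ℝ) : ℂ) = 1 - d := by rw [hd]; push_cast; ring
      rw [this]
      field_simp
      ring
    linear_combination e1 + e2 + eX
  rw [eV]
  have n4 : ‖X / d * ((e * Real.cos θ : ℝ) : ℂ)‖ ≤ 3/2 * e := by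
    rw [norm_mul, norm_div, Complex.norm_real, Complex.norm_real, Real.norm_eq_abs,
      Real.norm_eq_abs, abs_mul, abs_of_nonneg h0, abs_of_pos (by linarith : 0 < d)]
    have h3 : ‖X‖ / d ≤ 3/2 := by
      rw [div_le_iff₀ (by linarith)]
      nlinarith
    calc ‖X‖ / d * (e * |Real.cos θ|) ≤ 3/2 * (e * 1) :=
          mul_le_mul h3 (mul_le_mul_of_nonneg_left hc h0) (by positivity) (by norm_num)
      _ = 3/2 * e := by ring
  have n5 : ‖Complex.I * (Complex.exp (θ * Complex.I) - Complex.exp (τ * Complex.I))‖ ≤ e := by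
    rw [norm_mul, Complex.norm_I, one_mul]; exact n1
  refine (norm_add_le _ _).trans ?_
  have := norm_add_le (X / d * ((e * Real.cos θ : ℝ) : ℂ))
    ((((Real.sqrt (1 - e ^ 2) - 1) * Real.cos θ : ℝ) : ℂ) * Complex.I)
  nlinarith

theorem ell_general : ∃ η : ℝ, 0 < η ∧ ∀ m : Fin 3 → ℝ, (∀ a, 0 < m a) →
    |m 0 - m 1| ≤ η * (m 0 + m 1) → m 2 ≤ η * (m 0 + m 1) →
    ∀ e : ℝ, 0 ≤ e → e ≤ η → ∀ x : ℝ → Ph 3, IsSol m (Ici 0) x → NearL η e m x →
    Acc m (x 0) := by
  obtain ⟨η, hη, hη', hG⟩ := general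
  refine ⟨η / 5, by positivity, ?_⟩
  intro m mpos m1 m2 e he0 he1 x hx hn
  obtain ⟨L, ω, s, u, c, θ, hL, hω, hLω, hu, hc, hθ, hn⟩ := hn
  have hm : MassOK η m := by
    have p0 := mpos 0
    have p1 := mpos 1
    have : η / 5 * (m 0 + m 1) ≤ η * (m 0 + m 1) := by
      have : 0 < η * (m 0 + m 1) := by positivity
      linarith
    exact ⟨mpos, m1.trans this, m2.trans this⟩
  have he2 : e ≤ 1/10 := by
    have : (1:ℝ)/10^4 ≤ 1/10 := by norm_num
    linarith
  have hnear : Near1 η c L ω (u * Complex.exp (s * Complex.I)) x := by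
    intro t ht
    obtain ⟨n1, n2, n3, n4⟩ := hn t ht
    have k1 := ellPos_near he0 he2 (hθ t)
    have k2 := ellVel_near he0 he2 (hθ t)
    have eE : Complex.exp (((ω * t + s : ℝ) : ℂ) * Complex.I)
        = Complex.exp (s * Complex.I) * Complex.exp (ω * t * Complex.I) := by
      rw [← Complex.exp_add]
      congr 1
      push_cast; ring
    rw [eE] at k1 k2
    set S := Complex.exp (s * Complex.I)
    set E := Complex.exp (ω * t * Complex.I)
    have hcn : ‖c‖ = 1 := by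
      have h3 : (c - 1) * c = -1 := by linear_combination hc
      have h4 : c ^ 3 = -1 := by linear_combination (c + 1) * hc
      have h5 : ‖c‖ ^ 3 = 1 := by rw [← norm_pow, h4, norm_neg, norm_one]
      exact (pow_eq_one_iff_of_nonneg (norm_nonneg c) (by norm_num)).mp h5
    have q1 : ‖(L:ℂ) * u * (ellPos e (θ t) - S * E)‖ ≤ 4 * e * L := by
      rw [norm_mul, norm_mul, hu, mul_one, Complex.norm_real, Real.norm_eq_abs, abs_of_pos hL]
      calc L * ‖ellPos e (θ t) - S * E‖ ≤ L * (4 * e) := mul_le_mul_of_nonneg_left k1 hL.le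
        _ = 4 * e * L := by ring
    have q2 : ‖(ω:ℂ) * L * u * (ellVel e (θ t) - Complex.I * (S * E))‖ ≤ 4 * e * (|ω| * L) := by
      rw [norm_mul, norm_mul, norm_mul, hu, mul_one, Complex.norm_real, Complex.norm_real,
        Real.norm_eq_abs, Real.norm_eq_abs, abs_of_pos hL]
      calc |ω| * L * ‖ellVel e (θ t) - Complex.I * (S * E)‖ ≤ |ω| * L * (4 * e) :=
            mul_le_mul_of_nonneg_left k2 (by positivity)
        _ = 4 * e * (|ω| * L) := by ring
    have z1 : 4 * e * L ≤ 4 * (η / 5) * L := by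
      have : e * L ≤ η / 5 * L := mul_le_mul_of_nonneg_right he1 hL.le
      linarith
    have z2 : 4 * e * (|ω| * L) ≤ 4 * (η / 5) * (|ω| * L) := by
      have : e * (|ω| * L) ≤ η / 5 * (|ω| * L) := mul_le_mul_of_nonneg_right he1 (by positivity)
      linarith
    refine ⟨?_, ?_, ?_, ?_⟩
    · have e1 : (x t).1 1 - (x t).1 0 - L * (u * S) * E
          = ((x t).1 1 - (x t).1 0 - L * u * ellPos e (θ t))
            + L * u * (ellPos e (θ t) - S * E) := by ring
      rw [e1]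
      refine (norm_add_le _ _).trans ?_
      linarith
    · have e1 : (x t).1 2 - (x t).1 0 - c * (L * (u * S) * E)
          = ((x t).1 2 - (x t).1 0 - c * (L * u * ellPos e (θ t)))
            + c * (L * u * (ellPos e (θ t) - S * E)) := by ring
      rw [e1]
      refine (norm_add_le _ _).trans ?_
      rw [norm_mul c, hcn, one_mul]
      linarith
    · have e1 : (x t).2 1 - (x t).2 0 - Complex.I * ω * (L * (u * S) * E)
          = ((x t).2 1 - (x t).2 0 - ω * L * u * ellVel e (θ t))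
            + ω * L * u * (ellVel e (θ t) - Complex.I * (S * E)) := by ring
      rw [e1]
      refine (norm_add_le _ _).trans ?_
      linarith
    · have e1 : (x t).2 2 - (x t).2 0 - c * (Complex.I * ω * (L * (u * S) * E))
          = ((x t).2 2 - (x t).2 0 - c * (ω * L * u * ellVel e (θ t)))
            + c * (ω * L * u * (ellVel e (θ t) - Complex.I * (S * E))) := by ring
      rw [e1]
      refine (norm_add_le _ _).trans ?_
      rw [norm_mul c, hcn, one_mul]
      linarith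
  have huS : ‖u * Complex.exp (s * Complex.I)‖ = 1 := by
    rw [norm_mul, hu, Complex.norm_exp_ofReal_mul_I, one_mul]
  exact hG m hm L ω (u * Complex.exp (s * Complex.I)) c hL hω hLω huS (shape_cases hc) x hx
    hnear

end Run7.h874.LE
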