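import Pool.Agent.Run7.h842.NB_INV

/-!
# The limits of wandering points form an invariant set
-/

set_option autoImplicit false

namespace Run7.h874.LE

open Set Filter Topology
open Pool.Agent.Y516.NW (E3 Cfg Surf NonW Free Z IsFl free_open surf_free)

/-- wandering points form an open set -/
theorem wand_open {N : ℕ} {S : Set (Cfg N × Cfg N)} {φ : ℝ → Cfg N × Cfg N → Cfg N × Cfg N}
    {w : Cfg N × Cfg N} (hw : ¬ NonW S φ w) {U : Set (Cfg N × Cfg N)} (hU : IsOpen U)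
    (hwU : w ∈ U) (hwS : w ∈ S) :
    ∃ V ⊆ U, IsOpen V ∧ (V ∩ S).Nonempty ∧ ∀ y ∈ V ∩ S, ¬ NonW S φ y := by
  unfold NonW at hw
  push Not at hw
  obtain ⟨V, hV, hwV, T, hT⟩ := hw
  refine ⟨V ∩ U, inter_subset_right, hV.inter hU, ⟨w, ⟨⟨hwV, hwU⟩, hwS⟩⟩, ?_⟩
  rintro y ⟨⟨hyV, -⟩, hyS⟩ hnon
  obtain ⟨t, ht, z, hz, hz2⟩ := hnon V hV hyV T
  exact hT t ht z hz hz2

/-- if `φ T p` is a limit of wandering points of the surface then so is `p` -/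
theorem wand_back {N : ℕ} {m : Fin N → ℝ} (hm : ∀ i, 0 < m i) {E : ℝ}
    {ψ : Cfg N × Cfg N → ℝ} {φ : ℝ → Cfg N × Cfg N → Cfg N × Cfg N} (hφ : IsFl m E ψ φ)
    (hψ : ContDiffOn ℝ 1 ψ (Free N)) {p : Cfg N × Cfg N} (hp : p ∈ Surf m E) (T : ℝ)
    (h : ∀ U ∈ 𝓝 (φ T p), ∃ w ∈ U, w ∈ Surf m E ∧ ¬ NonW (Surf m E) φ w) :
    ∀ U ∈ 𝓝 p, ∃ V ⊆ U, IsOpen V ∧ (V ∩ Surf m E).Nonempty ∧
      ∀ y ∈ V ∩ Surf m E, ¬ NonW (Surf m E) φ y := by
  intro U hU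
  have hZ := Run7.h842.NB.Z_contDiff m ψ hψ
  have hUo : IsOpen (Free N) := free_open
  have hsol : ∀ y ∈ Surf m E, ∀ t, HasDerivAt (fun u : ℝ => φ u y) (Z m ψ (φ t y)) t :=
    fun y hy t => ((hφ.flow y hy).2 t).2
  have hS : ∀ y ∈ Surf m E, ∀ t, φ t y ∈ Surf m E := fun y hy t => ((hφ.flow y hy).2 t).1
  have hfr : ∀ y ∈ Surf m E, ∀ t, φ t y ∈ Free N := fun y hy t => surf_free m E (hS y hy t)
  have h0 : ∀ y ∈ Surf m E, φ 0 y = y := fun y hy => (hφ.flow y hy).1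
  have hgrp : ∀ y ∈ Surf m E, ∀ a t : ℝ, φ t (φ a y) = φ (t + a) y := by
    intro y hy a
    have hfun : (fun t => φ t (φ a y)) = fun t => φ (t + a) y := by
      refine Run7.h842.NB.uniq hUo hZ (hsol _ (hS y hy a)) (hfr _ (hS y hy a)) ?_ ?_
      · intro t
        exact (hsol y hy (t + a)).comp_add_const t a
      · show φ 0 (φ a y) = φ (0 + a) y
        rw [h0 _ (hS y hy a), zero_add]
    intro t
    exact congrFun hfun t
  set q := φ T p with hq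
  have hqS : q ∈ Surf m E := hS p hp T
  obtain ⟨ε, hε, hball⟩ := Metric.mem_nhds_iff.mp (interior_mem_nhds.mpr hU)
  obtain ⟨δ, hδ, hcont⟩ := Run7.h842.NB.cont_both hUo hZ (hsol q hqS) (hfr q hqS) (-T) hε
  obtain ⟨w, hwq, hwS, hw⟩ := h (Metric.ball q δ) (Metric.ball_mem_nhds q hδ)
  have hback : φ (-T) q = p := by
    rw [hq, hgrp p hp, neg_add_cancel, h0 p hp]
  have hyU : φ (-T) w ∈ interior U := by
    apply hball
    rw [Metric.mem_ball, ← hback]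
    refine hcont (fun u => φ u w) (hsol w hwS) (hfr w hwS) ?_
    show dist (φ 0 w) (φ 0 q) < δ
    rw [h0 w hwS, h0 q hqS]
    exact hwq
  have hyS := hS w hwS (-T)
  have hyw : ¬ NonW (Surf m E) φ (φ (-T) w) := by
    intro hn
    have h1 := Run7.h842.NB.t_INV N m hm E ψ φ hφ hψ _ hyS T hn
    rw [hgrp w hwS, add_neg_cancel, h0 w hwS] at h1
    exact hw h1
  obtain ⟨V, hV1, hV2, hV3, hV4⟩ := wand_open hyw isOpen_interior hyU hyS
  exact ⟨V, hV1.trans interior_subset, hV2, hV3, hV4⟩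

end Run7.h874.LE
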