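import Pool.Agent.Run7.h874.LE.D3

/-!
# Escaping states near every orbit that stays near the hub
-/

set_option autoImplicit false

namespace Run7.h874.LE

open Complex Set Filter

theorem near : ∃ η : ℝ, 0 < η ∧ η ≤ 1/10^4 ∧ ∀ ε δ : ℝ, 0 ≤ ε → ε ≤ η → |δ| ≤ η →
    ∀ X : ℝ → P4, (∀ t, 0 ≤ t → HasDerivWithinAt X (fd 0 ε δ (X t)) (Ici 0) t ∧
      ‖X t - hub4‖ ≤ η) → ∀ η0 > 0, ∃ x : P4, ‖x - X 0‖ ≤ η0 ∧ Goal ε δ x := by
  obtain ⟨κ, η1, hκ, hη1, hη1', hgoal⟩ := goal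
  obtain ⟨m0, hm0, hnear⟩ := pNear DE.outp κ DE.outp_ok hκ
  refine ⟨min η1 m0, lt_min hη1 hm0, (min_le_left _ _).trans hη1', ?_⟩
  intro ε δ h0 h1 h2 X hX η0 hη0
  have hε1 : ε ≤ 1 := by
    have := h1.trans ((min_le_left _ _).trans hη1'); norm_num at this; linarith
  have hδ1 : |δ| ≤ 1 := by
    have := h2.trans ((min_le_left _ _).trans hη1'); norm_num at this; linarith
  have hK := fd_K h0 hε1 hδ1
  obtain ⟨Φ, hΦ⟩ := stmtA1 P4 (fd rho0 ε δ) _ hK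
  have hub : ∀ t, 0 ≤ t → ‖X t - hub4‖ ≤ 1/50 := by
    intro t ht
    have := (hX t ht).2.trans ((min_le_left _ _).trans hη1')
    norm_num at this ⊢
    linarith
  have heq : ∀ t, 0 ≤ t → Φ t (X 0) = X t := by
    intro t ht
    have key := stmtA2 P4 (fd rho0 ε δ) _ Φ hK hΦ X (fun s => fd 0 ε δ (X s)) t 0 0 ht
      le_rfl le_rfl
      (fun s hs => ((hX s hs.1).1.continuousWithinAt).mono (fun r hr => hr.1))
      (fun s hs => (hX s hs.1).1.mono (fun r hr => le_trans hs.1 hr))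
      (fun s hs => by
        rw [fd_nc ε δ (nc_hub (hub s hs.1)), sub_self, norm_zero]) (X 0)
      (by rw [sub_self, norm_zero]) t ⟨ht, le_rfl⟩
    have h3 : ‖X t - Φ t (X 0)‖ ≤ 0 := by simpa using key
    exact (sub_eq_zero.mp (norm_le_zero_iff.mp h3)).symm
  obtain ⟨x, T, ψ, e1, e2, e3, e4, e5, e6, e7⟩ := hnear ε δ h0 (h1.trans (min_le_right _ _))
    (h2.trans (min_le_right _ _)) Φ hΦ (X 0) (by
      intro t ht
      rw [heq t ht]
      exact (hX t ht).2.trans (min_le_right _ _)) η0 hη0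
  exact ⟨x, e1, hgoal ε δ h0 (h1.trans (min_le_left _ _)) (h2.trans (min_le_left _ _)) x
    ⟨Φ, hΦ, T, ψ, e2, e3, e4, e5, e6, e7⟩⟩

end Run7.h874.LE
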