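import Pool.Agent.Run7.h874.LE.Sym
import Pool.Agent.Run7.h874.LE.Near

/-!
# From an inertial solution to the rotating frame
-/

set_option autoImplicit false

namespace Run7.h874.LE

open Complex Set Filter Topology

/-- relative coordinates of a phase point, in the rotating frame -/
noncomputable def rel (w : Ph 3) : P4 :=
  ((w.1 1 - w.1 0, (w.2 1 - w.2 0) - I * (w.1 1 - w.1 0)),
   (w.1 2 - (w.1 0 + w.1 1) / 2,
    (w.2 2 - (w.2 0 + w.2 1) / 2) - I * (w.1 2 - (w.1 0 + w.1 1) / 2)))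

noncomputable def cmP (ε δ : ℝ) (q : Fin 3 → ℂ) : ℂ :=
  ((1/2 + δ) * q 0 + (1/2 - δ) * q 1 + ε * q 2) / (1 + ε)

theorem St_rel {ε : ℝ} (hε : 0 < ε) (δ : ℝ) (w : Ph 3) :
    St ε δ (cmP ε δ w.1) (cmP ε δ w.2) (rel w) = w := by
  have h1 : (1 + (ε : ℂ)) ≠ 0 := by
    exact_mod_cast (by positivity : (1 + ε : ℝ) ≠ 0)
  unfold St
  apply Prod.ext
  · funext a
    fin_cases a
    · show cmP ε δ w.1 + posD ε δ 0 (rel w) = w.1 0
      simp only [posD, rel, cmP, cA, cD, Matrix.cons_val_zero]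
      field_simp
      ring
    · show cmP ε δ w.1 + posD ε δ 1 (rel w) = w.1 1
      simp only [posD, rel, cmP, cA, cD, Matrix.cons_val_one, Matrix.cons_val_zero]
      field_simp
      ring
    · show cmP ε δ w.1 + posD ε δ 2 (rel w) = w.1 2
      simp only [posD, rel, cmP, cA, cD, Matrix.cons_val]
      field_simp
      ring
  · funext a
    fin_cases a
    · show cmP ε δ w.2 + (I * posD ε δ 0 (rel w) + velD ε δ 0 (rel w)) = w.2 0
      simp only [posD, velD, rel, cmP, cA, cD, Matrix.cons_val_zero]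
      field_simp
      ring
    · show cmP ε δ w.2 + (I * posD ε δ 1 (rel w) + velD ε δ 1 (rel w)) = w.2 1
      simp only [posD, velD, rel, cmP, cA, cD, Matrix.cons_val_one, Matrix.cons_val_zero]
      field_simp
      ring
    · show cmP ε δ w.2 + (I * posD ε δ 2 (rel w) + velD ε δ 2 (rel w)) = w.2 2
      simp only [posD, velD, rel, cmP, cA, cD, Matrix.cons_val]
      field_simp
      ring

theorem acc_expand (m : Fin 3 → ℝ) (q : Fin 3 → ℂ) :
    acc m q 0 = m 1 * gc 0 (q 1 - q 0) + m 2 * gc 0 (q 2 - q 0) ∧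
    acc m q 1 = -(m 0 * gc 0 (q 1 - q 0)) + m 2 * gc 0 (q 2 - q 1) ∧
    acc m q 2 = -(m 0 * gc 0 (q 2 - q 0)) - m 1 * gc 0 (q 2 - q 1) := by
  have u0 : (Finset.univ : Finset (Fin 3)).erase 0 = {1, 2} := by decide
  have u1 : (Finset.univ : Finset (Fin 3)).erase 1 = {0, 2} := by decide
  have u2 : (Finset.univ : Finset (Fin 3)).erase 2 = {0, 1} := by decide
  have key : ∀ (m : ℝ) (z : ℂ), ((m / ‖z‖ ^ 3 : ℝ) : ℂ) * z = m * gc 0 z := by
    intro m z; rw [gcz]; push_cast; ring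
  have neg : ∀ a b : ℂ, gc 0 (a - b) = -gc 0 (b - a) := by
    intro a b; rw [← gcn, neg_sub]
  unfold acc
  refine ⟨?_, ?_, ?_⟩
  · rw [u0, Finset.sum_pair (by decide), key, key]
  · rw [u1, Finset.sum_pair (by decide), key, key, neg (q 0) (q 1)]; ring
  · rw [u2, Finset.sum_pair (by decide), key, key, neg (q 0) (q 2), neg (q 1) (q 2)]; ring

theorem gc_rot {e : ℂ} (he : ‖e‖ = 1) (z : ℂ) : gc 0 (e * z) = e * gc 0 z := by
  rw [gcz, gcz, norm_mul, he, one_mul]; ring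

/-- rotation of the relative coordinates -/
noncomputable def rot (e : ℂ) (x : P4) : P4 := ((e * x.1.1, e * x.1.2), (e * x.2.1, e * x.2.2))

theorem eI_neg_deriv (t : ℝ) : HasDerivAt (fun s : ℝ => eI (-s)) (-(eI (-t) * I)) t := by
  have h := (hasDerivAt_eI (-t)).scomp t (hasDerivAt_neg t)
  refine h.congr_deriv ?_
  simp

theorem back {ε δ : ℝ} {x : ℝ → Ph 3} (hsol : IsSol (mD ε δ) (Ici 0) x) :
    ∀ t, 0 ≤ t → HasDerivWithinAt (fun s => rot (eI (-s)) (rel (x s)))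
      (fd 0 ε δ (rot (eI (-t)) (rel (x t)))) (Ici 0) t := by
  intro t ht
  obtain ⟨-, h⟩ := hsol t ht
  have q := comp1 h
  have v := comp2 h
  have e := (eI_neg_deriv t).hasDerivWithinAt (s := Ici 0)
  have he : ‖eI (-t)‖ = 1 := norm_eI _
  obtain ⟨A0, A1, A2⟩ := acc_expand (mD ε δ) (x t).1
  have m0 : mD ε δ 0 = 1/2 + δ := rfl
  have m1 : mD ε δ 1 = 1/2 - δ := rfl
  have m2 : mD ε δ 2 = ε := rfl
  rw [m1, m2] at A0
  rw [m0, m2] at A1
  rw [m0, m1] at A2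
  -- derivatives of the relative positions and velocities
  have dR : HasDerivWithinAt (fun s => (x s).1 1 - (x s).1 0) ((x t).2 1 - (x t).2 0) (Ici 0) t :=
    (q 1).sub (q 0)
  have dZ : HasDerivWithinAt (fun s => (x s).1 2 - ((x s).1 0 + (x s).1 1) / 2)
      ((x t).2 2 - ((x t).2 0 + (x t).2 1) / 2) (Ici 0) t := (q 2).sub (((q 0).add (q 1)).div_const 2)
  have dRv : HasDerivWithinAt (fun s => (x s).2 1 - (x s).2 0)
      (acc (mD ε δ) (x t).1 1 - acc (mD ε δ) (x t).1 0) (Ici 0) t := (v 1).sub (v 0)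
  have dZv : HasDerivWithinAt (fun s => (x s).2 2 - ((x s).2 0 + (x s).2 1) / 2)
      (acc (mD ε δ) (x t).1 2 - (acc (mD ε δ) (x t).1 0 + acc (mD ε δ) (x t).1 1) / 2) (Ici 0) t :=
    (v 2).sub (((v 0).add (v 1)).div_const 2)
  have D1 := e.mul dR
  have dW : HasDerivWithinAt (fun s => ((x s).2 1 - (x s).2 0) - I * ((x s).1 1 - (x s).1 0))
      ((acc (mD ε δ) (x t).1 1 - acc (mD ε δ) (x t).1 0) - I * ((x t).2 1 - (x t).2 0))
      (Ici 0) t := dRv.sub (dR.const_mul I)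
  have dV : HasDerivWithinAt (fun s => ((x s).2 2 - ((x s).2 0 + (x s).2 1) / 2)
        - I * ((x s).1 2 - ((x s).1 0 + (x s).1 1) / 2))
      ((acc (mD ε δ) (x t).1 2 - (acc (mD ε δ) (x t).1 0 + acc (mD ε δ) (x t).1 1) / 2)
        - I * ((x t).2 2 - ((x t).2 0 + (x t).2 1) / 2))
      (Ici 0) t := dZv.sub (dZ.const_mul I)
  have D2 := e.mul dW
  have D3 := e.mul dZ
  have D4 := e.mul dV
  have D := (D1.prodMk D2).prodMk (D3.prodMk D4)
  have g1 : gc 0 (eI (-t) * ((x t).1 1 - (x t).1 0)) = eI (-t) * gc 0 ((x t).1 1 - (x t).1 0) := gc_rot he _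
  have e2 : eI (-t) * ((x t).1 2 - ((x t).1 0 + (x t).1 1) / 2) + eI (-t) * ((x t).1 1 - (x t).1 0) / 2 = eI (-t) * ((x t).1 2 - (x t).1 0) := by
    ring
  have e3 : eI (-t) * ((x t).1 2 - ((x t).1 0 + (x t).1 1) / 2) - eI (-t) * ((x t).1 1 - (x t).1 0) / 2 = eI (-t) * ((x t).1 2 - (x t).1 1) := by
    ring
  have g2 : gc 0 (eI (-t) * ((x t).1 2 - (x t).1 0)) = eI (-t) * gc 0 ((x t).1 2 - (x t).1 0) := gc_rot he _
  have g3 : gc 0 (eI (-t) * ((x t).1 2 - (x t).1 1)) = eI (-t) * gc 0 ((x t).1 2 - (x t).1 1) := gc_rot he _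
  refine D.congr_deriv ?_
  unfold fd fe hx rot rel
  simp only [e2, e3, g1, g2, g3]
  apply Prod.ext
  · apply Prod.ext
    · simp only [Prod.fst_add, add_zero]
      ring
    · simp only [Prod.fst_add, Prod.snd_add, add_zero]
      rw [A0, A1]
      push_cast
      linear_combination (-eI (-t) * ((x t).1 1 - (x t).1 0)) * I_sq
  · apply Prod.ext
    · simp only [Prod.snd_add, Prod.fst_add, add_zero]
      ring
    · simp only [Prod.snd_add]
      rw [A0, A1, A2]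
      push_cast
      linear_combination (-eI (-t) * ((x t).1 2 - ((x t).1 0 + (x t).1 1) / 2)) * I_sq

/-- main statement for normalised masses -/
theorem mainN : ∃ η : ℝ, 0 < η ∧ η ≤ 1/10^4 ∧ ∀ ε δ : ℝ, 0 < ε → ε ≤ η → |δ| ≤ η →
    ∀ x : ℝ → Ph 3, IsSol (mD ε δ) (Ici 0) x →
      (∀ t, 0 ≤ t → ‖rot (eI (-t)) (rel (x t)) - hub4‖ ≤ η) → Acc (mD ε δ) (x 0) := by
  obtain ⟨η, hη, hη', hnear⟩ := near
  refine ⟨η, hη, hη', ?_⟩
  intro ε δ h0 h1 h2 x hx hst
  have hb := back hx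
  have H := hnear ε δ h0.le h1 h2 (fun s => rot (eI (-s)) (rel (x s)))
    (fun t ht => ⟨hb t ht, hst t ht⟩)
  have e0 : rot (eI (-0)) (rel (x 0)) = rel (x 0) := by
    have : eI (-0) = 1 := by unfold eI; simp
    rw [this]
    unfold rot
    simp only [one_mul]
  simp only [e0] at H
  intro U hU
  have hc := St_cont ε δ (cmP ε δ (x 0).1) (cmP ε δ (x 0).2)
  have hr := St_rel h0 δ (x 0)
  have hU' : St ε δ (cmP ε δ (x 0).1) (cmP ε δ (x 0).2) ⁻¹' U ∈ 𝓝 (rel (x 0)) := by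
    apply hc.continuousAt
    rw [hr]
    exact hU
  obtain ⟨η0, hη0, hball⟩ := Metric.mem_nhds_iff.mp hU'
  obtain ⟨y, hy1, hy2⟩ := H (η0 / 2) (by positivity)
  refine ⟨St ε δ (cmP ε δ (x 0).1) (cmP ε δ (x 0).2) y, ?_, goal_unb h0 hy2 _ _⟩
  apply hball
  rw [Metric.mem_ball, dist_eq_norm]
  linarith

end Run7.h874.LE
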