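import Pool.Agent.Run7.h874.LE.Gen2

/-!
# Centre of mass frame and fixed energy
-/

set_option autoImplicit false

namespace Run7.h874.LE

open Complex Set Filter Topology

/-- total energy -/
noncomputable def En (m : Fin 3 → ℝ) (w : Ph 3) : ℝ :=
  ∑ i, m i * ‖w.2 i‖ ^ 2 / 2 - ∑ i, ∑ j, m i * m j / ‖w.1 i - w.1 j‖ / 2

noncomputable def cmu (m : Fin 3 → ℝ) (q : Fin 3 → ℂ) : ℂ :=
  ((∑ i, m i : ℝ) : ℂ)⁻¹ * ∑ i, (m i : ℂ) * q i

noncomputable def Nc (m : Fin 3 → ℝ) (w : Ph 3) : Ph 3 :=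
  (fun a => w.1 a - cmu m w.1, fun a => w.2 a - cmu m w.2)

theorem cmu_cont (m : Fin 3 → ℝ) : Continuous (cmu m) := by
  unfold cmu
  fun_prop

theorem Nc_cont (m : Fin 3 → ℝ) : Continuous (Nc m) := by
  unfold Nc
  have h := cmu_cont m
  refine Continuous.prodMk (continuous_pi fun a => ?_) (continuous_pi fun a => ?_)
  · exact ((continuous_apply a).comp continuous_fst).sub (h.comp continuous_fst)
  · exact ((continuous_apply a).comp continuous_snd).sub (h.comp continuous_snd)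

theorem sum_Nc {m : Fin 3 → ℝ} (hm : ∀ i, 0 < m i) (q : Fin 3 → ℂ) :
    ∑ i, (m i : ℂ) * (q i - cmu m q) = 0 := by
  have hM : (0:ℝ) < ∑ i, m i := Finset.sum_pos (fun i _ => hm i) ⟨0, Finset.mem_univ _⟩
  have hM' : ((∑ i, m i : ℝ) : ℂ) ≠ 0 := by exact_mod_cast hM.ne'
  simp only [mul_sub]
  rw [Finset.sum_sub_distrib, ← Finset.sum_mul]
  unfold cmu
  rw [← mul_assoc, ← ofReal_sum, mul_inv_cancel₀ hM', one_mul, sub_self]

theorem cmu_zero {m : Fin 3 → ℝ} {q : Fin 3 → ℂ} (h : ∑ i, (m i : ℂ) * q i = 0) :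
    cmu m q = 0 := by
  unfold cmu; rw [h, mul_zero]

theorem IsSol.boost {m : Fin 3 → ℝ} {x : ℝ → Ph 3} (hx : IsSol m (Ici 0) x) (c0 c1 : ℂ) :
    IsSol m (Ici 0) (fun t => ((fun a => (x t).1 a + (c0 + c1 * (t:ℂ))), fun a => (x t).2 a + c1)) := by
  intro t ht
  obtain ⟨h1, h2⟩ := hx t ht
  refine ⟨fun a b hab h => h1 a b hab (add_right_cancel h), ?_⟩
  refine ofcomp (fun a => ?_) (fun a => ?_)
  · have h3 : HasDerivWithinAt (fun s : ℝ => c0 + c1 * (s:ℂ)) c1 (Ici 0) t := by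
      have h4 : HasDerivAt (fun s : ℝ => c0 + c1 * (s:ℂ)) (c1 * 1) t :=
        ((ofRealCLM.hasDerivAt (x := t)).const_mul c1).const_add c0
      rw [mul_one] at h4
      exact h4.hasDerivWithinAt
    exact (comp1 h2 a).add h3
  · have h3 := (comp2 h2 a).add_const c1
    refine h3.congr_deriv ?_
    show acc m (x t).1 a = acc m (fun b => (x t).1 b + (c0 + c1 * (t:ℂ))) a
    unfold acc
    refine Finset.sum_congr rfl fun b _ => ?_
    rw [add_sub_add_right_eq_sub]

theorem Unb.boost {m : Fin 3 → ℝ} {w : Ph 3} (h : Unb m w) (c0 c1 : ℂ) :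
    Unb m ((fun a => w.1 a + c0), fun a => w.2 a + c1) := by
  obtain ⟨x, h0, h1, α, ρ, hα, h2⟩ := h
  refine ⟨_, ?_, h1.boost c0 c1, α, ρ, hα, ?_⟩
  · simp only [h0, ofReal_zero, mul_zero, add_zero]
  · filter_upwards [h2] with t ht
    simp only [add_sub_add_right_eq_sub]
    exact ht

theorem Unb.nc {m : Fin 3 → ℝ} {w : Ph 3} (h : Unb m w) : Unb m (Nc m w) := by
  have := h.boost (-cmu m w.1) (-cmu m w.2)
  simp only [← sub_eq_add_neg] at this
  exact this

/-- scaling by `l` in space and `l^(3/2)` in time -/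
noncomputable def Sc (l : ℝ) (w : Ph 3) : Ph 3 := Ts l (l * Real.sqrt l)⁻¹ 1 w

theorem sc_rel {l : ℝ} (hl : 0 < l) : l ^ 3 * ((l * Real.sqrt l)⁻¹) ^ 2 = 1 := by
  have h1 : (l * Real.sqrt l) ^ 2 = l ^ 3 := by
    rw [mul_pow, Real.sq_sqrt hl.le]; ring
  rw [inv_pow, h1, mul_inv_cancel₀ (by positivity)]

theorem Unb.sc {m : Fin 3 → ℝ} {w : Ph 3} {l : ℝ} (hl : 0 < l) (h : Unb m w) :
    Unb m (Sc l w) := by
  have hk : 0 < (l * Real.sqrt l)⁻¹ := by
    have := Real.sqrt_pos.mpr hl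
    positivity
  refine h.scale hl hk norm_one ?_
  intro a
  rw [sc_rel hl, one_mul]

theorem En_sc (m : Fin 3 → ℝ) {l : ℝ} (hl : 0 < l) (w : Ph 3) : En m (Sc l w) = En m w / l := by
  have hk := sc_rel hl
  set k := (l * Real.sqrt l)⁻¹ with hkd
  unfold En
  rw [sub_div, Finset.sum_div, Finset.sum_div]
  congr 1
  · refine Finset.sum_congr rfl fun i _ => ?_
    show m i * ‖(l:ℂ) * 1 * k * w.2 i‖ ^ 2 / 2 = _
    rw [norm_mul, norm_mul, mul_one, Complex.norm_real, Complex.norm_real, mul_pow, mul_pow,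
      Real.norm_eq_abs, Real.norm_eq_abs, sq_abs, sq_abs]
    have h2 : l ^ 2 * k ^ 2 = 1 / l := by
      rw [eq_div_iff hl.ne']; linear_combination hk
    rw [h2]; ring
  · refine Finset.sum_congr rfl fun i _ => ?_
    rw [Finset.sum_div]
    refine Finset.sum_congr rfl fun j _ => ?_
    show m i * m j / ‖(l:ℂ) * 1 * w.1 i - (l:ℂ) * 1 * w.1 j‖ / 2 = _
    rw [← mul_sub, norm_mul, mul_one, Complex.norm_real, Real.norm_eq_abs, abs_of_pos hl]
    rw [mul_comm l, ← div_div]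
    ring

theorem En_contAt (m : Fin 3 → ℝ) {z : Ph 3} (hz : ∀ a b, a ≠ b → z.1 a ≠ z.1 b) :
    ContinuousAt (En m) z := by
  unfold En
  refine ContinuousAt.sub ?_ ?_
  · refine Continuous.continuousAt ?_
    refine continuous_finsetSum _ fun i _ => ?_
    exact ((((continuous_apply i).comp continuous_snd).norm.pow 2).const_mul (m i)).div_const 2
  · refine tendsto_finsetSum _ fun i _ => tendsto_finsetSum _ fun j _ => ?_
    by_cases hij : i = j
    · subst hij
      simp only [sub_self, norm_zero, div_zero, zero_div]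
      exact tendsto_const_nhds
    · have h1 : ContinuousAt (fun w : Ph 3 => ‖w.1 i - w.1 j‖) z :=
        (((continuous_apply i).comp continuous_fst).sub
          ((continuous_apply j).comp continuous_fst)).norm.continuousAt
      have h2 : ‖z.1 i - z.1 j‖ ≠ 0 := norm_ne_zero_iff.mpr (sub_ne_zero.mpr (hz i j hij))
      exact (continuousAt_const.div h1 h2).div_const 2

theorem sum_sc (m : Fin 3 → ℝ) (c : ℂ) (q : Fin 3 → ℂ) (h : ∑ i, (m i : ℂ) * q i = 0) :
    ∑ i, (m i : ℂ) * (c * q i) = 0 := by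
  have : ∑ i, (m i : ℂ) * (c * q i) = c * ∑ i, (m i : ℂ) * q i := by
    rw [Finset.mul_sum]
    refine Finset.sum_congr rfl fun i _ => ?_
    ring
  rw [this, h, mul_zero]

/-- escaping states near `z` in the centre of mass frame, with the energy of `z` -/
theorem Acc.fixed {m : Fin 3 → ℝ} (hm : ∀ i, 0 < m i) {z : Ph 3} {E : ℝ} (hE : E < 0)
    (hz : ∀ a b, a ≠ b → z.1 a ≠ z.1 b) (hz1 : ∑ i, (m i : ℂ) * z.1 i = 0)
    (hz2 : ∑ i, (m i : ℂ) * z.2 i = 0) (hzE : En m z = E) (h : Acc m z) :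
    ∀ U ∈ 𝓝 z, ∃ w ∈ U, Unb m w ∧ ∑ i, (m i : ℂ) * w.1 i = 0 ∧ ∑ i, (m i : ℂ) * w.2 i = 0 ∧
      En m w = E := by
  intro U hU
  have hN : Nc m z = z := by
    unfold Nc
    rw [cmu_zero hz1, cmu_zero hz2]
    simp
  have hc1 : ContinuousAt (fun w => En m (Nc m w)) z := by
    have h1 : ContinuousAt (En m) (Nc m z) := by rw [hN]; exact En_contAt m hz
    exact ContinuousAt.comp h1 (Nc_cont m).continuousAt
  have hc2 : ContinuousAt (fun w => En m (Nc m w) / E) z := hc1.div_const E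
  have hl1 : En m (Nc m z) / E = 1 := by rw [hN, hzE]; exact div_self hE.ne
  have hF : ContinuousAt (fun w => Sc (En m (Nc m w) / E) (Nc m w)) z := by
    have hk : ContinuousAt (fun w => (En m (Nc m w) / E * Real.sqrt (En m (Nc m w) / E))⁻¹) z := by
      refine ContinuousAt.inv₀ (hc2.mul (Real.continuous_sqrt.continuousAt.comp hc2)) ?_
      show En m (Nc m z) / E * Real.sqrt (En m (Nc m z) / E) ≠ 0
      rw [hl1]; simp
    have hl : ContinuousAt (fun w => ((En m (Nc m w) / E : ℝ) : ℂ)) z :=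
      Complex.continuous_ofReal.continuousAt.comp hc2
    have hk' : ContinuousAt (fun w => (((En m (Nc m w) / E * Real.sqrt (En m (Nc m w) / E))⁻¹ : ℝ) : ℂ)) z :=
      Complex.continuous_ofReal.continuousAt.comp hk
    unfold Sc Ts
    refine ContinuousAt.prodMk (continuousAt_pi.mpr fun a => ?_) (continuousAt_pi.mpr fun a => ?_)
    · have h3 : ContinuousAt (fun w => (Nc m w).1 a) z :=
        (((continuous_apply a).comp continuous_fst).comp (Nc_cont m)).continuousAt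
      exact (hl.mul continuousAt_const).mul h3
    · have h3 : ContinuousAt (fun w => (Nc m w).2 a) z :=
        (((continuous_apply a).comp continuous_snd).comp (Nc_cont m)).continuousAt
      exact ((hl.mul continuousAt_const).mul hk').mul h3
  have hFz : Sc (En m (Nc m z) / E) (Nc m z) = z := by
    rw [hl1, hN]
    unfold Sc Ts
    simp
  have hU' : U ∈ 𝓝 (Sc (En m (Nc m z) / E) (Nc m z)) := by rw [hFz]; exact hU
  have hpos : ∀ᶠ w in 𝓝 z, 0 < En m (Nc m w) / E := by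
    have : (0:ℝ) < En m (Nc m z) / E := by rw [hl1]; norm_num
    exact hc2.eventually (lt_mem_nhds this)
  obtain ⟨w, hw, hw'⟩ := h _ (inter_mem (hF hU') hpos)
  obtain ⟨hw1, hw2⟩ := hw
  have hw2 : 0 < En m (Nc m w) / E := hw2
  refine ⟨_, hw1, hw'.nc.sc hw2, ?_, ?_, ?_⟩
  · exact sum_sc m _ _ (sum_Nc hm w.1)
  · exact sum_sc m _ _ (sum_Nc hm w.2)
  · rw [En_sc m hw2]
    have hne : En m (Nc m w) ≠ 0 := by
      intro h0
      rw [h0, zero_div] at hw2
      exact lt_irrefl _ hw2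
    field_simp

end Run7.h874.LE
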