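import Pool.Agent.Run7.h874.ConnF

/-!
# A certified chain gives the escape connection
-/

set_option autoImplicit false

namespace Run7.h874

open Complex Set

theorem esc_of (hH : Hyp) {p : Prm} (hs : p.sok) {h0 last : SD} {t0 : List SD}
    (hchk : chkL p (h0 :: t0) = true) (hk : h0.kind = 0)
    (hlast : (h0 :: t0).getLast? = some last) (hlk : last.kind = 1) {a : ℕ}
    (hfl : (h0 :: t0).map SD.fl = List.replicate (a + 1) 0)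
    {r ϵ Δ θ τ τp τs : ℝ} {ê : ℂ}
    (hr : 0 < r) (hΔ : 0 < Δ) (hΔ1 : Δ ≤ 1)
    (he : ‖exp ((θ:ℂ) * I) - ê‖ ≤ τ)
    (hUp : ‖uc (zt p.P h0.m (p.u h0.xp) (p.u h0.yp) 0 - hubZ) (vt p.P h0.m (p.u h0.xp) (p.u h0.yp) 0)
      - (r:ℂ) * (ê * (1 + (Δ:ℂ) * I))‖ ≤ τp)
    (hUn : ‖uc (zt p.P h0.m (p.u h0.xn) (p.u h0.yn) 0 - hubZ) (vt p.P h0.m (p.u h0.xn) (p.u h0.yn) 0)
      - (r:ℂ) * (ê * (1 - (Δ:ℂ) * I))‖ ≤ τp)
    (hSp : ‖sc (zt p.P h0.m (p.u h0.xp) (p.u h0.yp) 0 - hubZ) (vt p.P h0.m (p.u h0.xp) (p.u h0.yp) 0)‖ ≤ τs)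
    (hSn : ‖sc (zt p.P h0.m (p.u h0.xn) (p.u h0.yn) 0 - hubZ) (vt p.P h0.m (p.u h0.xn) (p.u h0.yn) 0)‖ ≤ τs)
    (h1 : r * (Δ ^ 2 / 2 + Δ ^ 3 + 2 * τ) + τp ≤ h0.Ein p) (h2 : ϵ * r + τs ≤ h0.Ein p)
    {zp wp zn wn zc vc : ℂ} {a' e' b : ℝ}
    (hzp : zt p.P last.m (p.u last.xp) (p.u last.yp) last.h = zp)
    (hwp : vt p.P last.m (p.u last.xp) (p.u last.yp) last.h = wp)
    (hzn : zt p.P last.m (p.u last.xn) (p.u last.yn) last.h = zn)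
    (hwn : vt p.P last.m (p.u last.xn) (p.u last.yn) last.h = wn)
    (hW : 0 < last.W) (ha : last.Eout p ≤ last.W * a') (he' : last.Eout p ≤ e')
    (czp : ‖zp - zc‖ ≤ b) (czn : ‖zn - zc‖ ≤ b) (cwp : ‖wp - vc‖ ≤ b) (cwn : ‖wn - vc‖ ≤ b) :
    ∀ φ : ℝ → P2 → P2, IsFlow (f0 rho0) φ →
      ∀ (x : P2) (ψ : ℝ), OutC r ϵ ψ x → |ψ - θ| ≤ Δ →
        Silent φ (1/10^5) x (tot (h0 :: t0)) ∧ ‖(φ (tot (h0 :: t0)) x).1 - zc‖ ≤ a' + b ∧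
          ‖(φ (tot (h0 :: t0)) x).2 - vc‖ ≤ e' + a' + b := by
  intro φ hφ x ψ hx hψ
  obtain ⟨q, hq, q1, q0, hN⟩ := init_sound hk hr hΔ hΔ1 he hUp hUn hSp hSn h1 h2 hx hψ
  obtain ⟨hF, e, hel, hN'⟩ := chain_sound hH hs hφ hq t0 h0 x hchk hN
  rw [hlast] at hel
  have hel' : last = e := by simpa using hel
  subst hel'
  rw [hlk] at hN'
  obtain ⟨ne, kk⟩ := all_of_replicate hfl
  refine ⟨silent_of hφ ne kk hF, ?_⟩
  set y := φ (tot (h0 :: t0)) x with hy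
  unfold Nb at hN'
  rw [if_pos rfl] at hN'
  obtain ⟨n1, n2⟩ := hN'
  set zq := last.z p q last.h with hzq
  set vq := last.v p q last.h with hvq
  have n1' : ‖y.1 - zq‖ ≤ a' := by
    have h3 : last.W * ‖y.1 - zq‖ ≤ last.W * a' := n1.trans ha
    exact le_of_mul_le_mul_left h3 hW
  have n2' : ‖(y.2 - vq) + I * (y.1 - zq)‖ ≤ e' := n2.trans he'
  have n3 : ‖y.2 - vq‖ ≤ e' + a' := by
    have e1 : y.2 - vq = ((y.2 - vq) + I * (y.1 - zq)) - I * (y.1 - zq) := by ring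
    rw [e1]
    refine (norm_sub_le _ _).trans ?_
    rw [norm_mul, norm_I, one_mul]
    linarith
  have ezq : zq - zc = ((1 - q : ℝ) : ℂ) * (zn - zc) + (q:ℂ) * (zp - zc) := by
    rw [hzq]; unfold SD.z; rw [hzp, hzn]; push_cast; ring
  have evq : vq - vc = ((1 - q : ℝ) : ℂ) * (wn - vc) + (q:ℂ) * (wp - vc) := by
    rw [hvq]; unfold SD.v; rw [hwp, hwn]; push_cast; ring
  have m1 : ‖zq - zc‖ ≤ b := by rw [ezq]; exact convex_defect hq czn czp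
  have m2 : ‖vq - vc‖ ≤ b := by rw [evq]; exact convex_defect hq cwn cwp
  constructor
  · have e1 : y.1 - zc = (y.1 - zq) + (zq - zc) := by ring
    rw [e1]
    exact (norm_add_le _ _).trans (add_le_add n1' m1)
  · have e1 : y.2 - vc = (y.2 - vq) + (vq - vc) := by ring
    rw [e1]
    exact (norm_add_le _ _).trans (add_le_add n3 m2)

end Run7.h874
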