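import Pool.Agent.Run7.h874.LE.Rot
import Pool.Agent.Run7.h874.G5

/-!
# Differences of two orbits near the hub, part 1: the field
-/

set_option autoImplicit false

namespace Run7.h874.LE

open Complex Set

theorem kdev {z p q : ℂ} {m : ℝ} (hm : m ≤ 1/1000) (hz : ‖z‖ = 1) (h1 : ‖p - z‖ ≤ m)
    (h2 : ‖q - z‖ ≤ m) : ‖gc 0 q - gc 0 p - dg z (q - p)‖ ≤ 6.1 * m * ‖q - p‖ := by
  have hm0 : 0 ≤ m := (norm_nonneg _).trans h1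
  have h3 := stmtB2 z p q m hm0 (by rw [hz]; linarith) h1 h2
  rw [hz] at h3
  have h4 : 6 * m / (1 - m) ^ 4 ≤ 6.1 * m := by
    have h5 : (0.999 : ℝ) ^ 4 ≤ (1 - m) ^ 4 := pow_le_pow_left₀ (by norm_num) (by linarith) 4
    rw [div_le_iff₀ (by positivity)]
    have h6 : (6:ℝ) ≤ 6.1 * (1 - m) ^ 4 := by norm_num at h5 ⊢; linarith
    nlinarith
  exact h3.trans (mul_le_mul_of_nonneg_right h4 (norm_nonneg _))

theorem dg_add (z d e : ℂ) : dg z (d + e) = dg z d + dg z e := by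
  unfold dg; simp only [map_add, Complex.real_smul]; ring

theorem dfield {ε δ mR mZ : ℝ} (he0 : 0 ≤ ε) (hmR : mR ≤ 1/1000) (hmZ : mZ ≤ 1/1000) {y1 y2 : P4}
    (hR1 : ‖y1.1.1 - 1‖ ≤ mR) (hR2 : ‖y2.1.1 - 1‖ ≤ mR)
    (hZ1 : ‖y1.2.1 - hubZ‖ + ‖y1.1.1 - 1‖ / 2 ≤ mZ) (hZ2 : ‖y2.2.1 - hubZ‖ + ‖y2.1.1 - 1‖ / 2 ≤ mZ) :
    ∃ e n : ℂ,
      ‖e‖ ≤ 6.1 * mR * ‖y2.1.1 - y1.1.1‖ + 4.1 * ε * (‖y2.2.1 - y1.2.1‖ + ‖y2.1.1 - y1.1.1‖) ∧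
      ‖n‖ ≤ ‖y2.1.1 - y1.1.1‖ + 6.1 * mZ * (‖y2.2.1 - y1.2.1‖ + ‖y2.1.1 - y1.1.1‖)
        + (2.1 * ε + 7 * |δ|) * (‖y2.2.1 - y1.2.1‖ + ‖y2.1.1 - y1.1.1‖) ∧
      fd rho0 ε δ y2 - fd rho0 ε δ y1
        = ((y2.1.2 - y1.1.2, -2 * I * (y2.1.2 - y1.1.2) + 3 * ((y2.1.1 - y1.1.1).re : ℂ) + e),
          (y2.2.2 - y1.2.2, -2 * I * (y2.2.2 - y1.2.2) + (3/2) * (y2.2.1 - y1.2.1)
            - (3/4) * (starRingEnd ℂ) (y2.2.1 - y1.2.1) + n)) := by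
  have d2 : ∀ x : ℂ, ‖x / 2‖ = ‖x‖ / 2 := by intro x; rw [norm_div]; norm_num
  set ρ := y2.1.1 - y1.1.1 with hρ
  set ζ := y2.2.1 - y1.2.1 with hζ
  have near : ∀ y : P4, ‖y.2.1 - hubZ‖ + ‖y.1.1 - 1‖ / 2 ≤ mZ →
      ‖y.2.1 + y.1.1/2 - (hubZ + 1/2)‖ ≤ mZ ∧ ‖y.2.1 - y.1.1/2 - (hubZ - 1/2)‖ ≤ mZ := by
    intro y hy
    constructor
    · have e : y.2.1 + y.1.1/2 - (hubZ + 1/2) = (y.2.1 - hubZ) + (y.1.1 - 1) / 2 := by ring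
      rw [e]; refine (norm_add_le _ _).trans ?_; rw [d2]; exact hy
    · have e : y.2.1 - y.1.1/2 - (hubZ - 1/2) = (y.2.1 - hubZ) - (y.1.1 - 1) / 2 := by ring
      rw [e]; refine (norm_sub_le _ _).trans ?_; rw [d2]; exact hy
  obtain ⟨p1, m1⟩ := near y1 hZ1
  obtain ⟨p2, m2⟩ := near y2 hZ2
  have r0 := rho0_pos.le
  have cf : ∀ {z q : ℂ} {m : ℝ}, m ≤ 1/1000 → ‖z‖ = 1 → ‖q - z‖ ≤ m → gc rho0 q = gc 0 q := by
    intro z q m h0 h1 h2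
    exact gc_eq r0 (rho_le h1 (h2.trans h0))
  have n1 : ‖(1:ℂ)‖ = 1 := norm_one
  have fr1 := cf hmR n1 hR1
  have fr2 := cf hmR n1 hR2
  have fp1 := cf hmZ norm_hub1 p1
  have fp2 := cf hmZ norm_hub1 p2
  have fm1 := cf hmZ norm_hub2 m1
  have fm2 := cf hmZ norm_hub2 m2
  have kR := kdev hmR n1 hR1 hR2
  have kP := kdev hmZ norm_hub1 p1 p2
  have kM := kdev hmZ norm_hub2 m1 m2
  have lR := kd n1 (hR1.trans hmR) (hR2.trans hmR)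
  have lP := kd norm_hub1 (p1.trans hmZ) (p2.trans hmZ)
  have lM := kd norm_hub2 (m1.trans hmZ) (m2.trans hmZ)
  have ep : y2.2.1 + y2.1.1/2 - (y1.2.1 + y1.1.1/2) = ζ + ρ / 2 := by rw [hζ, hρ]; ring
  have em : y2.2.1 - y2.1.1/2 - (y1.2.1 - y1.1.1/2) = ζ - ρ / 2 := by rw [hζ, hρ]; ring
  rw [ep] at kP lP
  rw [em] at kM lM
  rw [← hρ] at kR lR
  have hs : ‖ζ + ρ / 2‖ ≤ ‖ζ‖ + ‖ρ‖ := by
    refine (norm_add_le _ _).trans ?_; rw [d2]; linarith [norm_nonneg ρ]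
  have hd : ‖ζ - ρ / 2‖ ≤ ‖ζ‖ + ‖ρ‖ := by
    refine (norm_sub_le _ _).trans ?_; rw [d2]; linarith [norm_nonneg ρ]
  have hmR0 : 0 ≤ mR := (norm_nonneg _).trans hR1
  have hmZ0 : 0 ≤ mZ := (norm_nonneg _).trans p1
  have hρ0 := norm_nonneg ρ
  have hζ0 := norm_nonneg ζ
  set GR := gc 0 y2.1.1 - gc 0 y1.1.1 with hGR
  set Gp := gc 0 (y2.2.1 + y2.1.1/2) - gc 0 (y1.2.1 + y1.1.1/2) with hGp
  set Gm := gc 0 (y2.2.1 - y2.1.1/2) - gc 0 (y1.2.1 - y1.1.1/2) with hGm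
  set N := ‖ζ‖ + ‖ρ‖ with hN
  have hN0 : 0 ≤ N := by positivity
  have lP' : ‖Gp‖ ≤ 2.01 * N := lP.trans (mul_le_mul_of_nonneg_left hs (by norm_num))
  have lM' : ‖Gm‖ ≤ 2.01 * N := lM.trans (mul_le_mul_of_nonneg_left hd (by norm_num))
  have lR' : ‖GR‖ ≤ 2.01 * N := lR.trans (mul_le_mul_of_nonneg_left (by linarith) (by norm_num))
  refine ⟨-(GR - dg 1 ρ) + (ε:ℂ) * (Gm - Gp),
    -(1/2) * (dg (hubZ + 1/2) (ρ / 2) - dg (hubZ - 1/2) (ρ / 2))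
      - (1/2) * ((Gp - dg (hubZ + 1/2) (ζ + ρ / 2)) + (Gm - dg (hubZ - 1/2) (ζ - ρ / 2)))
      - ((ε:ℂ) / 2) * (Gp + Gm) + (δ:ℂ) * (GR - Gp + Gm), ?_, ?_, ?_⟩
  · refine (norm_add_le _ _).trans ?_
    rw [norm_neg, norm_mul, Complex.norm_real, Real.norm_eq_abs, abs_of_nonneg he0]
    have h1 := (norm_sub_le Gm Gp).trans (add_le_add lM' lP')
    have h3 := mul_le_mul_of_nonneg_left h1 he0
    have h4 : 0 ≤ ε * N := by positivity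
    nlinarith
  · have q1 : ‖-(1/2) * (dg (hubZ + 1/2) (ρ / 2) - dg (hubZ - 1/2) (ρ / 2))‖ ≤ ‖ρ‖ := by
      rw [norm_mul]
      have e1 : ‖(-(1/2):ℂ)‖ = 1/2 := by rw [norm_neg]; norm_num
      rw [e1]
      have k1 := norm_dg_le (z := hubZ + 1/2) (d := ρ / 2) (m := 1) (by norm_num) (by rw [norm_hub1])
      have k2 := norm_dg_le (z := hubZ - 1/2) (d := ρ / 2) (m := 1) (by norm_num) (by rw [norm_hub2])
      rw [d2] at k1 k2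
      have k3 := (norm_sub_le (dg (hubZ + 1/2) (ρ / 2)) (dg (hubZ - 1/2) (ρ / 2))).trans (add_le_add k1 k2)
      norm_num at k3
      linarith
    have q2 : ‖(1/2:ℂ) * ((Gp - dg (hubZ + 1/2) (ζ + ρ / 2)) + (Gm - dg (hubZ - 1/2) (ζ - ρ / 2)))‖
        ≤ 6.1 * mZ * N := by
      rw [norm_mul]
      have e2 : ‖(1/2:ℂ)‖ = 1/2 := by norm_num
      rw [e2]
      have k4 := (norm_add_le (Gp - dg (hubZ + 1/2) (ζ + ρ / 2)) (Gm - dg (hubZ - 1/2) (ζ - ρ / 2))).trans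
        (add_le_add kP kM)
      have k5 : 6.1 * mZ * ‖ζ + ρ / 2‖ ≤ 6.1 * mZ * N := mul_le_mul_of_nonneg_left hs (by positivity)
      have k6 : 6.1 * mZ * ‖ζ - ρ / 2‖ ≤ 6.1 * mZ * N := mul_le_mul_of_nonneg_left hd (by positivity)
      linarith
    have q3 : ‖(ε:ℂ) / 2 * (Gp + Gm)‖ ≤ 2.1 * ε * N := by
      rw [norm_mul, norm_div, Complex.norm_real, Real.norm_eq_abs, abs_of_nonneg he0]
      have h1 := (norm_add_le Gp Gm).trans (add_le_add lP' lM')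
      have e2 : ‖(2:ℂ)‖ = 2 := by norm_num
      rw [e2]
      have h3 := mul_le_mul_of_nonneg_left h1 (show 0 ≤ ε / 2 by linarith)
      have h4 : 0 ≤ ε * N := by positivity
      linarith
    have q4 : ‖(δ:ℂ) * (GR - Gp + Gm)‖ ≤ 7 * |δ| * N := by
      rw [norm_mul, Complex.norm_real, Real.norm_eq_abs]
      have h1 := (norm_add_le (GR - Gp) Gm).trans
        (add_le_add ((norm_sub_le GR Gp).trans (add_le_add lR' lP')) lM')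
      have h3 := mul_le_mul_of_nonneg_left h1 (abs_nonneg δ)
      have h4 : 0 ≤ |δ| * N := by positivity
      linarith
    have t1 := norm_add_le (-(1/2) * (dg (hubZ + 1/2) (ρ / 2) - dg (hubZ - 1/2) (ρ / 2))
      - (1/2) * ((Gp - dg (hubZ + 1/2) (ζ + ρ / 2)) + (Gm - dg (hubZ - 1/2) (ζ - ρ / 2)))
      - ((ε:ℂ) / 2) * (Gp + Gm)) ((δ:ℂ) * (GR - Gp + Gm))
    have t2 := norm_sub_le (-(1/2) * (dg (hubZ + 1/2) (ρ / 2) - dg (hubZ - 1/2) (ρ / 2))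
      - (1/2) * ((Gp - dg (hubZ + 1/2) (ζ + ρ / 2)) + (Gm - dg (hubZ - 1/2) (ζ - ρ / 2))))
      (((ε:ℂ) / 2) * (Gp + Gm))
    have t3 := norm_sub_le (-(1/2) * (dg (hubZ + 1/2) (ρ / 2) - dg (hubZ - 1/2) (ρ / 2)))
      ((1/2:ℂ) * ((Gp - dg (hubZ + 1/2) (ζ + ρ / 2)) + (Gm - dg (hubZ - 1/2) (ζ - ρ / 2))))
    linarith
  · have hsum := dg_hub ζ
    have dgp := dg_add (hubZ + 1/2) ζ (ρ / 2)
    have dgm : dg (hubZ - 1/2) (ζ - ρ / 2) = dg (hubZ - 1/2) ζ - dg (hubZ - 1/2) (ρ / 2) := dg_sub _ _ _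
    have h1 := dg_one ρ
    unfold fd fe hx
    rw [fr1, fr2, fp1, fp2, fm1, fm2]
    apply Prod.ext
    · apply Prod.ext
      · simp
      · simp only [Prod.fst_add, Prod.snd_add, Prod.fst_sub, Prod.snd_sub, add_zero]
        rw [hGR, hGp, hGm]
        linear_combination h1
    · apply Prod.ext
      · simp
      · simp only [Prod.fst_add, Prod.snd_add, Prod.fst_sub, Prod.snd_sub]
        rw [dgp, dgm]
        rw [hGR, hGp, hGm]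
        linear_combination (-(1/2 : ℂ)) * hsum

end Run7.h874.LE
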