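import Pool.Agent.Run7.h874.LE.D1

/-!
# Differences of two orbits near the hub, part 2: cones
-/

set_option autoImplicit false

namespace Run7.h874.LE

open Complex Set

noncomputable def uD (D : P4) : ℂ := uc D.2.1 D.2.2
noncomputable def sD (D : P4) : ℂ := sc D.2.1 D.2.2
noncomputable def Qc' (D : P4) : ℝ := D.1.2.im + 2 * D.1.1.re
noncomputable def QE' (D : P4) : ℝ := D.1.1.re - 2 * Qc' D
noncomputable def Qf' (D : P4) : ℝ :=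
  Qc' D ^ 2 + QE' D ^ 2 + D.1.2.re ^ 2 + D.1.1.im ^ 2 / 400

structure CQ (r ϵ1 ϵ2 ε δ ρ1 : ℝ) : Prop where
  hr : 0 < r
  hr6 : r ≤ 1/10^6
  h1 : 32 * r ≤ ϵ1
  h1' : ϵ1 ≤ 1/2
  h2 : 0 < ϵ2
  h2' : ϵ2 ≤ r / 1000
  he : 0 ≤ ε
  he' : ε ≤ r * ϵ2 / 1000
  hd : |δ| ≤ r * ϵ2 / 1000
  hp : 0 ≤ ρ1
  hp' : ρ1 ≤ r * ϵ2 / 1000

def ConeD (ϵ1 ϵ2 : ℝ) (D : P4) : Prop :=
  ‖sD D‖ ^ 2 - (ϵ1 * ‖uD D‖) ^ 2 ≤ 0 ∧ Qf' D - (ϵ2 * ‖uD D‖) ^ 2 ≤ 0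

theorem coneD_bd {r ϵ1 ϵ2 ε δ ρ1 : ℝ} (h : CQ r ϵ1 ϵ2 ε δ ρ1) {D : P4} (hc : ConeD ϵ1 ϵ2 D) :
    ‖sD D‖ ≤ ϵ1 * ‖uD D‖ ∧ ‖D.1.1‖ ≤ 20 * ϵ2 * ‖uD D‖ ∧ ‖D.1.2‖ ≤ 4 * ϵ2 * ‖uD D‖ ∧
      ‖D.2.1‖ ≤ 1.455 * ‖uD D‖ ∧ ‖D.2.2‖ ≤ 1.66 * ‖uD D‖ := by
  obtain ⟨h1, h2⟩ := hc
  have hu := norm_nonneg (uD D)
  have e0 := h.h2
  have e1 : 0 ≤ ϵ1 := by have := h.h1; have := h.hr; linarith
  have hs : ‖sD D‖ ≤ ϵ1 * ‖uD D‖ := le_of_sq' (by linarith) (by positivity)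
  have hs' : ‖sD D‖ ≤ 1/2 * ‖uD D‖ := hs.trans (mul_le_mul_of_nonneg_right h.h1' hu)
  have hK : 0 ≤ ϵ2 * ‖uD D‖ := by positivity
  set K := ϵ2 * ‖uD D‖ with hKd
  have c2 := stmtC2 D.2.1 D.2.2
  have q1 := c2.2.2.2.2.1
  have q2 := c2.2.2.2.2.2.1
  have eu : uc D.2.1 D.2.2 = uD D := rfl
  have es : sc D.2.1 D.2.2 = sD D := rfl
  rw [eu, es] at q1 q2
  have hD : D.1.1.re = QE' D + 2 * Qc' D := by unfold QE'; ring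
  have hq : D.1.2.im = -3 * Qc' D - 2 * QE' D := by unfold QE' Qc'; ring
  unfold Qf' at h2
  generalize QE' D = E at *
  generalize Qc' D = c at *
  refine ⟨hs, ?_, ?_, ?_, ?_⟩
  · apply le_of_sq' _ (by positivity)
    have e : 20 * ϵ2 * ‖uD D‖ = 20 * K := by rw [hKd]; ring
    rw [e, nsq, hD]
    nlinarith [sq_nonneg (2 * E - c), sq_nonneg E, sq_nonneg c, sq_nonneg D.1.2.re]
  · apply le_of_sq' _ (by positivity)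
    have e : 4 * ϵ2 * ‖uD D‖ = 4 * K := by rw [hKd]; ring
    rw [e, nsq, hq]
    nlinarith [sq_nonneg (2 * c - 3 * E), sq_nonneg E, sq_nonneg c, sq_nonneg D.1.2.re,
      sq_nonneg D.1.1.im]
  · norm_num at q1 ⊢; linarith
  · norm_num at q2 ⊢; linarith

/-- the difference of the fields -/
noncomputable def FD (ε δ : ℝ) (y1 y2 : P4) : P4 := fd rho0 ε δ y2 - fd rho0 ε δ y1

theorem hub_comps {y : P4} {m : ℝ} (h : ‖y - hub4‖ ≤ m) :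
    ‖y.1.1 - 1‖ ≤ m ∧ ‖y.1.2‖ ≤ m ∧ ‖y.2.1 - hubZ‖ ≤ m ∧ ‖y.2.2‖ ≤ m := by
  obtain ⟨c1, c2, c3, c4⟩ := comps h
  refine ⟨c1, ?_, c3, ?_⟩
  · have : y.1.2 - hub4.1.2 = y.1.2 := by unfold hub4; simp
    rwa [this] at c2
  · have : y.2.2 - hub4.2.2 = y.2.2 := by unfold hub4; simp
    rwa [this] at c4

theorem CQ.small {r ϵ1 ϵ2 ε δ ρ1 : ℝ} (h : CQ r ϵ1 ϵ2 ε δ ρ1) :
    ϵ2 ≤ 1/10^9 ∧ ρ1 ≤ r / 10^6 ∧ ρ1 ≤ ϵ2 / 10^6 ∧ ε ≤ r / 10^6 ∧ ε ≤ ϵ2 / 10^6 ∧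
      |δ| ≤ r / 10^6 ∧ |δ| ≤ ϵ2 / 10^6 := by
  obtain ⟨hr, hr6, k1, k1', k2, k2', he, he', hd, hp, hp'⟩ := h
  have h1 : ϵ2 ≤ 1/10^9 := by linarith
  have h2 : r * ϵ2 ≤ r * (1/10^9) := mul_le_mul_of_nonneg_left h1 hr.le
  have h3 : r * ϵ2 ≤ 1/10^6 * ϵ2 := mul_le_mul_of_nonneg_right hr6 k2.le
  norm_num at h2 h3 ⊢
  refine ⟨by linarith, by linarith, by linarith, by linarith, by linarith, by linarith, by linarith⟩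

theorem coneD_near {r ϵ1 ϵ2 ε δ ρ1 : ℝ} (h : CQ r ϵ1 ϵ2 ε δ ρ1) {y1 y2 : P4}
    (h1 : ‖y1 - hub4‖ ≤ ρ1) (hc : ConeD ϵ1 ϵ2 (y2 - y1)) (hu1 : ‖uD (y2 - y1)‖ ≤ 1.01 * r) :
    ‖y2.1.1 - 1‖ ≤ ϵ2 / 100 ∧ ‖y2.1.2‖ ≤ ϵ2 / 100 ∧ ‖y2.2.1 - hubZ‖ ≤ 1.47 * r ∧
      ‖y2.2.2‖ ≤ 2 * r := by
  obtain ⟨b0, b1, b2, b3, b4⟩ := coneD_bd h hc
  obtain ⟨s1, s2, s3, -, -, -, -⟩ := h.small
  obtain ⟨c1, c2, c3, c4⟩ := hub_comps h1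
  have hr := h.hr
  have hr6 := h.hr6
  have k2 := h.h2
  have hu := norm_nonneg (uD (y2 - y1))
  set u := ‖uD (y2 - y1)‖ with hud
  have hu6 : u ≤ 1.01/10^6 := by norm_num at hr6 hu1 ⊢; linarith
  have m1 : ϵ2 * u ≤ ϵ2 * (1.01/10^6) := mul_le_mul_of_nonneg_left hu6 k2.le
  have tri : ∀ a b c : ℂ, ‖b - c‖ ≤ ‖b - a‖ + ‖a - c‖ := by
    intro a b c
    have e : b - c = (b - a) + (a - c) := by ring
    rw [e]; exact norm_add_le _ _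
  have t1 := tri y1.1.1 y2.1.1 1
  have t2 := tri y1.1.2 y2.1.2 0
  have t3 := tri y1.2.1 y2.2.1 hubZ
  have t4 := tri y1.2.2 y2.2.2 0
  rw [sub_zero, sub_zero] at t2 t4
  have g1 : ‖y2.1.1 - y1.1.1‖ ≤ 20 * ϵ2 * u := b1
  have g2 : ‖y2.1.2 - y1.1.2‖ ≤ 4 * ϵ2 * u := b2
  have g3 : ‖y2.2.1 - y1.2.1‖ ≤ 1.455 * u := b3
  have g4 : ‖y2.2.2 - y1.2.2‖ ≤ 1.66 * u := b4
  norm_num at m1 s2 s3 hu1 g3 g4 ⊢
  refine ⟨by linarith, by linarith, by linarith, by linarith⟩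

theorem coneD_field {r ϵ1 ϵ2 ε δ ρ1 : ℝ} (h : CQ r ϵ1 ϵ2 ε δ ρ1) {y1 y2 : P4}
    (h1 : ‖y1 - hub4‖ ≤ ρ1) (hc : ConeD ϵ1 ϵ2 (y2 - y1)) (hu1 : ‖uD (y2 - y1)‖ ≤ 1.01 * r) :
    ∃ e n : ℂ, ‖e‖ ≤ 0.1 * (ϵ2 * ‖uD (y2 - y1)‖) ∧ ‖n‖ ≤ 13.2 * r * ‖uD (y2 - y1)‖ ∧
      (FD ε δ y1 y2).1.1 = (y2 - y1).1.2 ∧
      (FD ε δ y1 y2).1.2 = -2 * I * (y2 - y1).1.2 + 3 * (((y2 - y1).1.1.re : ℝ) : ℂ) + e ∧
      uc (FD ε δ y1 y2).2.1 (FD ε δ y1 y2).2.2 = lam * uD (y2 - y1) + uc 0 n ∧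
      sc (FD ε δ y1 y2).2.1 (FD ε δ y1 y2).2.2
        = -(starRingEnd ℂ) lam * sD (y2 - y1) + sc 0 n := by
  obtain ⟨b0, b1, b2, b3, b4⟩ := coneD_bd h hc
  obtain ⟨s1, s2, s3, s4, s5, s6, s7⟩ := h.small
  obtain ⟨c1, c2, c3, c4⟩ := hub_comps h1
  obtain ⟨d1, d2, d3, d4⟩ := coneD_near h h1 hc hu1
  have hr := h.hr
  have hr6 := h.hr6
  have k2 := h.h2
  have k2' := h.h2'
  have he := h.he
  have hu := norm_nonneg (uD (y2 - y1))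
  set u := ‖uD (y2 - y1)‖ with hud
  have hp := h.hp
  have g1 : ‖y2.1.1 - y1.1.1‖ ≤ 20 * ϵ2 * u := b1
  have g3 : ‖y2.2.1 - y1.2.1‖ ≤ 1.455 * u := b3
  obtain ⟨e, n, he1, hn1, hf⟩ := dfield (ε := ε) (δ := δ) (mR := ϵ2 / 100 + ρ1)
    (mZ := 1.471 * r) he
    (by norm_num at s1 s3 ⊢; linarith) (by norm_num at hr6 ⊢; linarith) (y1 := y1) (y2 := y2)
    (by linarith) (by linarith)
    (by norm_num at s2 ⊢; linarith)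
    (by norm_num at k2' d3 ⊢; linarith)
  have gρ0 := norm_nonneg (y2.1.1 - y1.1.1)
  have gζ0 := norm_nonneg (y2.2.1 - y1.2.1)
  have hku : 0 ≤ ϵ2 * u := by positivity
  have hru : 0 ≤ r * u := by positivity
  have kr : ϵ2 * u ≤ r / 1000 * u := mul_le_mul_of_nonneg_right k2' hu
  have k1u : ϵ2 * u ≤ 1/10^9 * u := mul_le_mul_of_nonneg_right s1 hu
  have hN : ‖y2.2.1 - y1.2.1‖ + ‖y2.1.1 - y1.1.1‖ ≤ 1.4551 * u := by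
    norm_num at g3 k1u ⊢; linarith
  have hN0 : 0 ≤ ‖y2.2.1 - y1.2.1‖ + ‖y2.1.1 - y1.1.1‖ := by positivity
  set N := ‖y2.2.1 - y1.2.1‖ + ‖y2.1.1 - y1.1.1‖
  refine ⟨e, n, ?_, ?_, ?_, ?_, ?_, ?_⟩
  · refine he1.trans ?_
    have a1 : (ϵ2 / 100 + ρ1) * ‖y2.1.1 - y1.1.1‖ ≤ 1/1000 * (20 * ϵ2 * u) :=
      mul_le_mul (by norm_num at s1 s3 ⊢; linarith) g1 gρ0 (by norm_num)
    have a2 : ε * N ≤ ϵ2 / 10^6 * (1.4551 * u) := mul_le_mul s5 hN hN0 (by positivity)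
    norm_num at a1 a2 ⊢
    nlinarith
  · refine hn1.trans ?_
    have a1 : r * N ≤ r * (1.4551 * u) := mul_le_mul_of_nonneg_left hN hr.le
    have a2 : ε * N ≤ r / 10^6 * (1.4551 * u) := mul_le_mul s4 hN hN0 (by positivity)
    have a3 : |δ| * N ≤ r / 10^6 * (1.4551 * u) := mul_le_mul s6 hN hN0 (by positivity)
    norm_num at a1 a2 a3 ⊢
    nlinarith
  · unfold FD; rw [hf]; rfl
  · unfold FD; rw [hf]; rfl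
  · unfold FD; rw [hf]
    exact stmtC1.1 (y2.2.1 - y1.2.1) (y2.2.2 - y1.2.2) n
  · unfold FD; rw [hf]
    exact stmtC1.2 (y2.2.1 - y1.2.1) (y2.2.2 - y1.2.2) n

/-- derivative of `Qf'` in the direction of `F` -/
noncomputable def dQ' (y F : P4) : ℝ :=
  2 * Qc' y * (F.1.2.im + 2 * F.1.1.re)
    + 2 * QE' y * (F.1.1.re - 2 * (F.1.2.im + 2 * F.1.1.re))
    + 2 * y.1.2.re * F.1.2.re + 2 * y.1.1.im * F.1.1.im / 400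

theorem Qf'_deriv {D : ℝ → P4} {F : P4} {t : ℝ} (h : HasDerivAt D F t) :
    HasDerivAt (fun s => Qf' (D s)) (dQ' (D t) F) t := by
  have hR := d11 h
  have hW := d12 h
  have e1 : HasDerivAt (fun s => Qc' (D s)) (F.1.2.im + 2 * F.1.1.re) t := by
    unfold Qc'
    exact (imR_deriv hW).add ((reR_deriv hR).const_mul 2)
  have e2 : HasDerivAt (fun s => QE' (D s)) (F.1.1.re - 2 * (F.1.2.im + 2 * F.1.1.re)) t := by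
    unfold QE'
    exact (reR_deriv hR).sub (e1.const_mul 2)
  have e3 := reR_deriv hW
  have e4 := imR_deriv hR
  have G := (((e1.pow 2).add (e2.pow 2)).add (e3.pow 2)).add ((e4.pow 2).div_const 400)
  have e : (fun s => Qf' (D s)) = (((fun s => Qc' (D s)) ^ 2 + (fun s => QE' (D s)) ^ 2
      + (fun s => (D s).1.2.re) ^ 2) + fun s => ((fun s => (D s).1.1.im) ^ 2) s / 400) := by
    funext s
    simp [Qf']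
  rw [e]
  refine G.congr_deriv ?_
  unfold dQ'
  simp

noncomputable def duD (ε δ : ℝ) (y1 y2 : P4) : ℂ := uc (FD ε δ y1 y2).2.1 (FD ε δ y1 y2).2.2
noncomputable def dsD (ε δ : ℝ) (y1 y2 : P4) : ℂ := sc (FD ε δ y1 y2).2.1 (FD ε δ y1 y2).2.2

section

variable {r ϵ1 ϵ2 ε δ ρ1 : ℝ}

theorem D_deriv {Φ : ℝ → P4 → P4} (hΦ : IsFlow (fd rho0 ε δ) Φ) (t : ℝ) (x1 x : P4) :
    HasDerivAt (fun s => Φ s x - Φ s x1) (FD ε δ (Φ t x1) (Φ t x)) t :=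
  (hΦ.deriv t x).sub (hΦ.deriv t x1)

theorem uD_deriv {Φ : ℝ → P4 → P4} (hΦ : IsFlow (fd rho0 ε δ) Φ) (t : ℝ) (x1 x : P4) :
    HasDerivAt (fun s => uD (Φ s x - Φ s x1)) (duD ε δ (Φ t x1) (Φ t x)) t :=
  uc_deriv (d21 (D_deriv hΦ t x1 x)) (d22 (D_deriv hΦ t x1 x))

theorem sD_deriv {Φ : ℝ → P4 → P4} (hΦ : IsFlow (fd rho0 ε δ) Φ) (t : ℝ) (x1 x : P4) :
    HasDerivAt (fun s => sD (Φ s x - Φ s x1)) (dsD ε δ (Φ t x1) (Φ t x)) t :=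
  sc_deriv (d21 (D_deriv hΦ t x1 x)) (d22 (D_deriv hΦ t x1 x))

theorem growD (h : CQ r ϵ1 ϵ2 ε δ ρ1) {y1 y2 : P4}
    (h1 : ‖y1 - hub4‖ ≤ ρ1) (hc : ConeD ϵ1 ϵ2 (y2 - y1)) (hu1 : ‖uD (y2 - y1)‖ ≤ 1.01 * r) :
    ‖duD ε δ y1 y2 - lam * uD (y2 - y1)‖ ≤ 17 * r * ‖uD (y2 - y1)‖ := by
  obtain ⟨e, n, -, hn, -, -, h5, -⟩ := coneD_field h h1 hc hu1
  have : duD ε δ y1 y2 - lam * uD (y2 - y1) = uc 0 n := by unfold duD; rw [h5]; ring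
  rw [this]
  have h6 := (stmtC2 0 n).1
  have hr := h.hr
  have hu := norm_nonneg (uD (y2 - y1))
  have : 0 ≤ r * ‖uD (y2 - y1)‖ := by positivity
  norm_num at h6 hn ⊢
  linarith

theorem growD' (h : CQ r ϵ1 ϵ2 ε δ ρ1) {y1 y2 : P4}
    (h1 : ‖y1 - hub4‖ ≤ ρ1) (hc : ConeD ϵ1 ϵ2 (y2 - y1)) (hu1 : ‖uD (y2 - y1)‖ ≤ 1.01 * r) :
    ‖duD ε δ y1 y2 - lam * uD (y2 - y1)‖ ≤ ‖uD (y2 - y1)‖ / 50 := by
  refine (growD h h1 hc hu1).trans ?_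
  have hr6 := h.hr6
  have hu := norm_nonneg (uD (y2 - y1))
  have h1 : 17 * r * ‖uD (y2 - y1)‖ ≤ 1/50 * ‖uD (y2 - y1)‖ := by
    apply mul_le_mul_of_nonneg_right _ hu
    norm_num at hr6 ⊢
    linarith
  linarith

theorem fsD_neg (h : CQ r ϵ1 ϵ2 ε δ ρ1) {y1 y2 : P4}
    (h1 : ‖y1 - hub4‖ ≤ ρ1) (hc : ConeD ϵ1 ϵ2 (y2 - y1)) (hu1 : ‖uD (y2 - y1)‖ ≤ 1.01 * r)
    (hu0 : 0 < ‖uD (y2 - y1)‖) (hz : ‖sD (y2 - y1)‖ ^ 2 - (ϵ1 * ‖uD (y2 - y1)‖) ^ 2 = 0) :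
    2 * ((starRingEnd ℂ) (sD (y2 - y1)) * dsD ε δ y1 y2).re
      - ϵ1 ^ 2 * (2 * ((starRingEnd ℂ) (uD (y2 - y1)) * duD ε δ y1 y2).re) < 0 := by
  obtain ⟨b0, -, -, -, -⟩ := coneD_bd h hc
  obtain ⟨e, n, -, hn, -, -, h5, h6⟩ := coneD_field h h1 hc hu1
  have e5 : duD ε δ y1 y2 = lam * uD (y2 - y1) + uc 0 n := h5
  have e6 : dsD ε δ y1 y2 = -(starRingEnd ℂ) lam * sD (y2 - y1) + sc 0 n := h6
  rw [e5, e6, re_cm, re_cm, lam_re, lam_conj_re]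
  have c2 := stmtC2 0 n
  have m1 := (abs_le.mp (abs_re_cm (uD (y2 - y1)) (uc 0 n))).1
  have m2 := (abs_le.mp (abs_re_cm (sD (y2 - y1)) (sc 0 n))).2
  have al1 := al_lo
  obtain ⟨hr, hr6, k1, k1', k2, k2', he, he', hd, hp, hp'⟩ := h
  have n1 := c2.1
  have n2 := c2.2.1
  set u := ‖uD (y2 - y1)‖ with hu
  set s := ‖sD (y2 - y1)‖ with hs
  have hs0 : 0 ≤ s := norm_nonneg _
  have hϵ1 : 0 < ϵ1 := by linarith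
  have hsu : s ^ 2 = (ϵ1 * u) ^ 2 := by linarith
  have p1 : s * ‖sc 0 n‖ ≤ (ϵ1 * u) * (13.5 * r * u) := by
    apply mul_le_mul b0 _ (norm_nonneg _) (by positivity)
    refine n2.trans ?_
    have : 0 ≤ r * u := by positivity
    norm_num at hn ⊢
    linarith
  have p2 : u * ‖uc 0 n‖ ≤ u * (17 * r * u) := by
    apply mul_le_mul_of_nonneg_left _ hu0.le
    refine n1.trans ?_
    have : 0 ≤ r * u := by positivity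
    norm_num at hn ⊢
    linarith
  have q1 : ((starRingEnd ℂ) (sD (y2 - y1)) * sc 0 n).re ≤ (ϵ1 * u) * (13.5 * r * u) := m2.trans p1
  have q2 : -(u * (17 * r * u)) ≤ ((starRingEnd ℂ) (uD (y2 - y1)) * uc 0 n).re := by linarith
  have q3 : ϵ1 ^ 2 * (-(u * (17 * r * u))) ≤ ϵ1 ^ 2 * ((starRingEnd ℂ) (uD (y2 - y1)) * uc 0 n).re :=
    mul_le_mul_of_nonneg_left q2 (by positivity)
  rw [hsu]
  have q4 : ϵ1 * (ϵ1 * (17 * (u * u) * r)) ≤ 1/2 * (ϵ1 * (17 * (u * u) * r)) :=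
    mul_le_mul_of_nonneg_right k1' (by positivity)
  have q5 : 32 * r * (ϵ1 * (u * u)) ≤ ϵ1 * (ϵ1 * (u * u)) :=
    mul_le_mul_of_nonneg_right k1 (by positivity)
  have q6 : 0.632 * (ϵ1 * (ϵ1 * (u * u))) ≤ al * (ϵ1 * (ϵ1 * (u * u))) :=
    mul_le_mul_of_nonneg_right al1.le (by positivity)
  have q7 : 0 < r * (ϵ1 * (u * u)) := by positivity
  norm_num at q1 q3 q4 q5 q6 ⊢
  nlinarith

theorem uD_lo (h : CQ r ϵ1 ϵ2 ε δ ρ1) {y1 y2 : P4}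
    (h1 : ‖y1 - hub4‖ ≤ ρ1) (hc : ConeD ϵ1 ϵ2 (y2 - y1)) (hu1 : ‖uD (y2 - y1)‖ ≤ 1.01 * r) :
    1.2 * ‖uD (y2 - y1)‖ ^ 2 ≤ 2 * ((starRingEnd ℂ) (uD (y2 - y1)) * duD ε δ y1 y2).re := by
  have h1 := Run7.h550.SY.nsq_growth (u := fun _ => uD (y2 - y1)) (du := fun _ => duD ε δ y1 y2)
    (l := lam) (t := 0) (growD' h h1 hc hu1)
  refine le_trans ?_ h1
  have := al_lo
  rw [lam_re]
  have h2 : 0 ≤ ‖uD (y2 - y1)‖ ^ 2 := by positivity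
  nlinarith

theorem fqD_neg (h : CQ r ϵ1 ϵ2 ε δ ρ1) {y1 y2 : P4}
    (h1 : ‖y1 - hub4‖ ≤ ρ1) (hc : ConeD ϵ1 ϵ2 (y2 - y1)) (hu1 : ‖uD (y2 - y1)‖ ≤ 1.01 * r)
    (hu0 : 0 < ‖uD (y2 - y1)‖) (hz : Qf' (y2 - y1) - (ϵ2 * ‖uD (y2 - y1)‖) ^ 2 = 0) :
    dQ' (y2 - y1) (FD ε δ y1 y2)
      - ϵ2 ^ 2 * (2 * ((starRingEnd ℂ) (uD (y2 - y1)) * duD ε δ y1 y2).re) < 0 := by
  have lo := uD_lo h h1 hc hu1
  obtain ⟨e, n, he, -, h3, h4, -, -⟩ := coneD_field h h1 hc hu1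
  have k2 := h.h2
  unfold dQ'
  rw [h3, h4]
  generalize y2 - y1 = y at *
  have x1 : (-2 * I * y.1.2 + 3 * ((y.1.1.re : ℝ) : ℂ) + e).im = -2 * y.1.2.re + e.im := by
    simp
  have x2 : (-2 * I * y.1.2 + 3 * ((y.1.1.re : ℝ) : ℂ) + e).re
      = 2 * y.1.2.im + 3 * y.1.1.re + e.re := by
    simp
  rw [x1, x2]
  have hD : y.1.1.re = QE' y + 2 * Qc' y := by unfold QE'; ring
  have hq : y.1.2.im = -3 * Qc' y - 2 * QE' y := by unfold QE' Qc'; ring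
  rw [hD, hq]
  set K := ϵ2 * ‖uD y‖ with hK
  have hK0 : 0 < K := by positivity
  have hQ : Qc' y ^ 2 + QE' y ^ 2 + y.1.2.re ^ 2 + y.1.1.im ^ 2 / 400 = K ^ 2 := by
    have : Qf' y = K ^ 2 := by linarith
    rw [← this]; rfl
  have lo' : ϵ2 ^ 2 * (1.2 * ‖uD y‖ ^ 2) ≤ ϵ2 ^ 2 * (2 * ((starRingEnd ℂ) (uD y) * duD ε δ y1 y2).re) :=
    mul_le_mul_of_nonneg_left lo (by positivity)
  have lo2 : ϵ2 ^ 2 * (1.2 * ‖uD y‖ ^ 2) = 1.2 * K ^ 2 := by rw [hK]; ring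
  rw [lo2] at lo'
  have er := (Complex.abs_re_le_norm e).trans he
  have ei := (Complex.abs_im_le_norm e).trans he
  generalize QE' y = E at *
  generalize Qc' y = c at *
  generalize y.1.2.re = p at *
  generalize y.1.1.im = w at *
  generalize e.re = e1 at *
  generalize e.im = e2 at *
  generalize ϵ2 ^ 2 * (2 * ((starRingEnd ℂ) (uD y) * duD ε δ y1 y2).re) = L at *
  have a1 : |c| ≤ K := abs_le_of_sq_le_sq (by nlinarith [sq_nonneg E, sq_nonneg p, sq_nonneg w]) hK0.le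
  have a2 : |E| ≤ K := abs_le_of_sq_le_sq (by nlinarith [sq_nonneg c, sq_nonneg p, sq_nonneg w]) hK0.le
  have a3 : |p| ≤ K := abs_le_of_sq_le_sq (by nlinarith [sq_nonneg E, sq_nonneg c, sq_nonneg w]) hK0.le
  have m1 : c * e2 ≤ K * (0.1 * K) := by
    refine (le_abs_self _).trans ?_
    rw [abs_mul]
    exact mul_le_mul a1 ei (abs_nonneg _) hK0.le
  have m2 : -(E * e2) ≤ K * (0.1 * K) := by
    refine (neg_le_abs _).trans ?_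
    rw [abs_mul]
    exact mul_le_mul a2 ei (abs_nonneg _) hK0.le
  have m3 : p * e1 ≤ K * (0.1 * K) := by
    refine (le_abs_self _).trans ?_
    rw [abs_mul]
    exact mul_le_mul a3 er (abs_nonneg _) hK0.le
  have m4 : -(w * (3 * c + 2 * E)) / 200 ≤ (1/4) * K ^ 2 := by
    nlinarith [sq_nonneg (w + (3 * c + 2 * E) * 2), sq_nonneg p, sq_nonneg (2 * c - 3 * E),
      sq_nonneg E, sq_nonneg c, sq_nonneg w, sq_nonneg (w / 20 + (3 * c + 2 * E) / 5)]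
  have hK2 : 0 < K ^ 2 := by positivity
  norm_num at m1 m2 m3 m4 lo' ⊢
  nlinarith

theorem coneD_orbit (h : CQ r ϵ1 ϵ2 ε δ ρ1) {Φ : ℝ → P4 → P4}
    (hΦ : IsFlow (fd rho0 ε δ) Φ) {x1 x : P4} (hx1 : ∀ t, 0 ≤ t → ‖Φ t x1 - hub4‖ ≤ ρ1)
    (hx : ConeD ϵ1 ϵ2 (x - x1)) (hx0 : 0 < ‖uD (x - x1)‖) {T : ℝ}
    (hT : ∀ t ∈ Icc 0 T, ‖uD (Φ t x - Φ t x1)‖ ≤ 1.01 * r) :
    ∀ t ∈ Icc 0 T, ConeD ϵ1 ϵ2 (Φ t x - Φ t x1) ∧ 0 < ‖uD (Φ t x - Φ t x1)‖ := by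
  have pos : ∀ t ∈ Icc 0 T, (∀ s ∈ Icc 0 t, ConeD ϵ1 ϵ2 (Φ s x - Φ s x1)) →
      0 < ‖uD (Φ t x - Φ t x1)‖ := by
    intro t ht hs
    have h1 := Run7.h550.SY.mono_norm (u := fun s => uD (Φ s x - Φ s x1))
      (du := fun s => duD ε δ (Φ s x1) (Φ s x))
      (l := lam) (T := t) (fun s => uD_deriv hΦ s x1 x)
      (fun s hs' => growD' h (hx1 s hs'.1) (hs s hs') (hT s ⟨hs'.1, hs'.2.trans ht.2⟩))
      le_rfl ht.1 le_rfl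
    simp only [hΦ.zero] at h1
    have h2 : 0 < ‖uD (x - x1)‖ ^ 2 * Real.exp (2 * (lam.re - 1 / 50) * (t - 0)) := by positivity
    have h3 : 0 < ‖uD (Φ t x - Φ t x1)‖ ^ 2 := h2.trans_le h1
    by_contra hc
    have h4 : ‖uD (Φ t x - Φ t x1)‖ = 0 := le_antisymm (not_lt.mp hc) (norm_nonneg _)
    rw [h4] at h3
    norm_num at h3
  have key := Run7.h550.SY.barrier (ι := Bool)
    (fun i t => if i then ‖sD (Φ t x - Φ t x1)‖ ^ 2 - (ϵ1 * ‖uD (Φ t x - Φ t x1)‖) ^ 2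
      else Qf' (Φ t x - Φ t x1) - (ϵ2 * ‖uD (Φ t x - Φ t x1)‖) ^ 2)
    (fun i t => if i then 2 * ((starRingEnd ℂ) (sD (Φ t x - Φ t x1)) * dsD ε δ (Φ t x1) (Φ t x)).re
        - ϵ1 ^ 2 * (2 * ((starRingEnd ℂ) (uD (Φ t x - Φ t x1)) * duD ε δ (Φ t x1) (Φ t x)).re)
      else dQ' (Φ t x - Φ t x1) (FD ε δ (Φ t x1) (Φ t x))
        - ϵ2 ^ 2 * (2 * ((starRingEnd ℂ) (uD (Φ t x - Φ t x1)) * duD ε δ (Φ t x1) (Φ t x)).re)) T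
  have hd1 : ∀ t, HasDerivAt
      (fun t => ‖sD (Φ t x - Φ t x1)‖ ^ 2 - (ϵ1 * ‖uD (Φ t x - Φ t x1)‖) ^ 2)
      (2 * ((starRingEnd ℂ) (sD (Φ t x - Φ t x1)) * dsD ε δ (Φ t x1) (Φ t x)).re
        - ϵ1 ^ 2 * (2 * ((starRingEnd ℂ) (uD (Φ t x - Φ t x1)) * duD ε δ (Φ t x1) (Φ t x)).re)) t := by
    intro t
    have e1 := Run7.h550.SY.nsq_deriv (u := fun s => sD (Φ s x - Φ s x1))
      (du := fun s => dsD ε δ (Φ s x1) (Φ s x)) (sD_deriv hΦ t x1 x)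
    have e2 := Run7.h550.SY.nsq_deriv (u := fun s => uD (Φ s x - Φ s x1))
      (du := fun s => duD ε δ (Φ s x1) (Φ s x)) (uD_deriv hΦ t x1 x)
    have e3 := e1.sub (e2.const_mul (ϵ1 ^ 2))
    have e4 : (fun t => ‖sD (Φ t x - Φ t x1)‖ ^ 2 - (ϵ1 * ‖uD (Φ t x - Φ t x1)‖) ^ 2)
        = fun t => ‖sD (Φ t x - Φ t x1)‖ ^ 2 - ϵ1 ^ 2 * ‖uD (Φ t x - Φ t x1)‖ ^ 2 := by
      funext t; ring
    rw [e4]
    exact e3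
  have hd2 : ∀ t, HasDerivAt
      (fun t => Qf' (Φ t x - Φ t x1) - (ϵ2 * ‖uD (Φ t x - Φ t x1)‖) ^ 2)
      (dQ' (Φ t x - Φ t x1) (FD ε δ (Φ t x1) (Φ t x))
        - ϵ2 ^ 2 * (2 * ((starRingEnd ℂ) (uD (Φ t x - Φ t x1)) * duD ε δ (Φ t x1) (Φ t x)).re)) t := by
    intro t
    have e1 := Qf'_deriv (D_deriv hΦ t x1 x)
    have e2 := Run7.h550.SY.nsq_deriv (u := fun s => uD (Φ s x - Φ s x1))
      (du := fun s => duD ε δ (Φ s x1) (Φ s x)) (uD_deriv hΦ t x1 x)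
    have e3 := e1.sub (e2.const_mul (ϵ2 ^ 2))
    have e4 : (fun t => Qf' (Φ t x - Φ t x1) - (ϵ2 * ‖uD (Φ t x - Φ t x1)‖) ^ 2)
        = fun t => Qf' (Φ t x - Φ t x1) - ϵ2 ^ 2 * ‖uD (Φ t x - Φ t x1)‖ ^ 2 := by
      funext t; ring
    rw [e4]
    exact e3
  have hcone : ∀ t, (∀ i : Bool, (if i = true then
      ‖sD (Φ t x - Φ t x1)‖ ^ 2 - (ϵ1 * ‖uD (Φ t x - Φ t x1)‖) ^ 2
      else Qf' (Φ t x - Φ t x1) - (ϵ2 * ‖uD (Φ t x - Φ t x1)‖) ^ 2) ≤ 0) →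
      ConeD ϵ1 ϵ2 (Φ t x - Φ t x1) := by
    intro t ht
    exact ⟨by simpa using ht true, by simpa using ht false⟩
  have hall := key ?_ ?_ ?_ ?_
  · intro t ht
    refine ⟨hcone t (hall t ht), pos t ht fun s hs => hcone s (hall s ⟨hs.1, hs.2.trans ht.2⟩)⟩
  · intro i
    cases i
    · have hc : ContinuousOn (fun t => Qf' (Φ t x - Φ t x1)
          - (ϵ2 * ‖uD (Φ t x - Φ t x1)‖) ^ 2) (Icc 0 T) :=
        fun t _ => (hd2 t).continuousAt.continuousWithinAt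
      simpa using hc
    · have hc : ContinuousOn (fun t => ‖sD (Φ t x - Φ t x1)‖ ^ 2
          - (ϵ1 * ‖uD (Φ t x - Φ t x1)‖) ^ 2) (Icc 0 T) :=
        fun t _ => (hd1 t).continuousAt.continuousWithinAt
      simpa using hc
  · intro i t _
    cases i
    · simpa using (hd2 t).hasDerivWithinAt
    · simpa using (hd1 t).hasDerivWithinAt
  · intro i
    cases i
    · simpa [hΦ.zero] using hx.2
    · simpa [hΦ.zero] using hx.1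
  · intro t ht hs i hz
    have hcs : ∀ s ∈ Icc 0 t, ConeD ϵ1 ϵ2 (Φ s x - Φ s x1) := fun s hs' => hcone s (hs s hs')
    have ht' : t ∈ Icc 0 T := ⟨ht.1, ht.2.le⟩
    have hp := pos t ht' hcs
    have hct := hcs t ⟨ht.1, le_rfl⟩
    cases i
    · have hz' : Qf' (Φ t x - Φ t x1) - (ϵ2 * ‖uD (Φ t x - Φ t x1)‖) ^ 2 = 0 := by simpa using hz
      simpa using fqD_neg h (hx1 t ht.1) hct (hT t ht') hp hz'
    · have hz' : ‖sD (Φ t x - Φ t x1)‖ ^ 2 - (ϵ1 * ‖uD (Φ t x - Φ t x1)‖) ^ 2 = 0 := by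
        simpa using hz
      simpa using fsD_neg h (hx1 t ht.1) hct (hT t ht') hp hz'

theorem coneD_mono (h : CQ r ϵ1 ϵ2 ε δ ρ1) {Φ : ℝ → P4 → P4}
    (hΦ : IsFlow (fd rho0 ε δ) Φ) {x1 x : P4} (hx1 : ∀ t, 0 ≤ t → ‖Φ t x1 - hub4‖ ≤ ρ1)
    (hx : ConeD ϵ1 ϵ2 (x - x1)) (hx0 : 0 < ‖uD (x - x1)‖) {T : ℝ}
    (hT : ∀ t ∈ Icc 0 T, ‖uD (Φ t x - Φ t x1)‖ ≤ 1.01 * r) {s t : ℝ} (hs : 0 ≤ s)
    (hst : s ≤ t) (ht : t ≤ T) : ‖uD (Φ s x - Φ s x1)‖ ≤ ‖uD (Φ t x - Φ t x1)‖ := by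
  have hc := coneD_orbit h hΦ hx1 hx hx0 hT
  have h1 := Run7.h550.SY.mono_norm (u := fun s => uD (Φ s x - Φ s x1))
    (du := fun s => duD ε δ (Φ s x1) (Φ s x)) (l := lam) (T := T)
    (fun s => uD_deriv hΦ s x1 x)
    (fun s hs' => growD' h (hx1 s hs'.1) (hc s hs').1 (hT s hs')) hs hst ht
  have h2 : 1 ≤ Real.exp (2 * (lam.re - 1 / 50) * (t - s)) := by
    apply Real.one_le_exp
    rw [lam_re]
    have := al_lo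
    nlinarith
  have h3 : ‖uD (Φ s x - Φ s x1)‖ ^ 2 ≤ ‖uD (Φ t x - Φ t x1)‖ ^ 2 := by
    refine le_trans ?_ h1
    nlinarith [sq_nonneg ‖uD (Φ s x - Φ s x1)‖]
  exact le_of_sq' h3 (norm_nonneg _)

end

end Run7.h874.LE
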