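import Pool.Agent.Run7.h874.LE.D2
import Pool.Agent.Run7.h874.G6

/-!
# Differences of two orbits near the hub, part 3: leaving the hub along a prescribed direction
-/

set_option autoImplicit false

namespace Run7.h874.LE

open Complex Set Function

theorem fd21'' (ε δ : ℝ) (x : P4) : (fd rho0 ε δ x).2.1 = x.2.2 := by unfold fd fe; simp

theorem gc0_unit {z : ℂ} (hz : ‖z‖ = 1) : gc 0 z = z := by
  rw [gc0, hz]; simp

/-- smallness of the field near the hub -/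
theorem F_small {ε δ m : ℝ} (he0 : 0 ≤ ε) (hm : m ≤ 1/2000) {y : P4} (h : ‖y - hub4‖ ≤ m) :
    ‖(fd rho0 ε δ y).2.2‖ ≤ 7 * m + 2 * ε + 4 * |δ| := by
  obtain ⟨c1, c2, c3, c4⟩ := hub_comps h
  have d2 : ∀ x : ℂ, ‖x / 2‖ = ‖x‖ / 2 := by intro x; rw [norm_div]; norm_num
  have p : ‖y.2.1 + y.1.1/2 - (hubZ + 1/2)‖ ≤ 3/2 * m := by
    have e : y.2.1 + y.1.1/2 - (hubZ + 1/2) = (y.2.1 - hubZ) + (y.1.1 - 1) / 2 := by ring
    rw [e]; refine (norm_add_le _ _).trans ?_; rw [d2]; linarith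
  have q : ‖y.2.1 - y.1.1/2 - (hubZ - 1/2)‖ ≤ 3/2 * m := by
    have e : y.2.1 - y.1.1/2 - (hubZ - 1/2) = (y.2.1 - hubZ) - (y.1.1 - 1) / 2 := by ring
    rw [e]; refine (norm_sub_le _ _).trans ?_; rw [d2]; linarith
  have r0 := rho0_pos.le
  have n1 : ‖(1:ℂ)‖ = 1 := norm_one
  have z0 : ∀ z : ℂ, ‖z - z‖ ≤ 1/1000 := by intro z; rw [sub_self, norm_zero]; norm_num
  have hR : ‖y.1.1 - 1‖ ≤ 1/1000 := by linarith
  have hp : ‖y.2.1 + y.1.1/2 - (hubZ + 1/2)‖ ≤ 1/1000 := by linarith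
  have hq : ‖y.2.1 - y.1.1/2 - (hubZ - 1/2)‖ ≤ 1/1000 := by linarith
  have kP := kd norm_hub1 (z0 _) hp
  have kM := kd norm_hub2 (z0 _) hq
  rw [gc0_unit norm_hub1] at kP
  rw [gc0_unit norm_hub2] at kM
  have bR := kn n1 hR
  have bP := kn norm_hub1 hp
  have bM := kn norm_hub2 hq
  unfold fd fe hx
  rw [gc_eq r0 (rho_le n1 hR), gc_eq r0 (rho_le norm_hub1 hp), gc_eq r0 (rho_le norm_hub2 hq)]
  simp only [Prod.snd_add]
  generalize gc 0 y.1.1 = gR at *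
  generalize gc 0 (y.2.1 + y.1.1/2) = gP at *
  generalize gc 0 (y.2.1 - y.1.1/2) = gM at *
  have e : -2 * I * y.2.2 + y.2.1 - (1 + (ε:ℂ)) / 2 * (gP + gM) + (δ:ℂ) * (gR - gP + gM)
      = -2 * I * y.2.2 + (y.2.1 - hubZ) - (1/2) * ((gP - (hubZ + 1/2)) + (gM - (hubZ - 1/2)))
        - ((ε:ℂ) / 2) * (gP + gM) + (δ:ℂ) * (gR - gP + gM) := by ring
  rw [e]
  have a1 : ‖-2 * I * y.2.2‖ ≤ 2 * m := by
    rw [norm_mul, norm_mul, norm_I, norm_neg]; norm_num; linarith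
  have a2 : ‖(1/2:ℂ) * ((gP - (hubZ + 1/2)) + (gM - (hubZ - 1/2)))‖ ≤ 3.1 * m := by
    rw [norm_mul]
    have e2 : ‖(1/2:ℂ)‖ = 1/2 := by norm_num
    rw [e2]
    have := (norm_add_le _ _).trans (add_le_add kP kM)
    have hm0 : 0 ≤ m := (norm_nonneg _).trans h
    norm_num at this p q ⊢
    linarith
  have a3 : ‖((ε:ℂ) / 2) * (gP + gM)‖ ≤ 1.1 * ε := by
    rw [norm_mul, norm_div, Complex.norm_real, Real.norm_eq_abs, abs_of_nonneg he0]
    have e2 : ‖(2:ℂ)‖ = 2 := by norm_num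
    rw [e2]
    have h1 := (norm_add_le gP gM).trans (add_le_add bP bM)
    have := mul_le_mul_of_nonneg_left h1 (show 0 ≤ ε / 2 by linarith)
    norm_num at this ⊢
    linarith
  have a4 : ‖(δ:ℂ) * (gR - gP + gM)‖ ≤ 3.1 * |δ| := by
    rw [norm_mul, Complex.norm_real, Real.norm_eq_abs]
    have h1 := (norm_add_le (gR - gP) gM).trans
      (add_le_add ((norm_sub_le gR gP).trans (add_le_add bR bP)) bM)
    have := mul_le_mul_of_nonneg_left h1 (abs_nonneg δ)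
    norm_num at this ⊢
    linarith [abs_nonneg δ]
  have t1 := norm_add_le (-2 * I * y.2.2 + (y.2.1 - hubZ)
    - (1/2) * ((gP - (hubZ + 1/2)) + (gM - (hubZ - 1/2))) - ((ε:ℂ) / 2) * (gP + gM))
    ((δ:ℂ) * (gR - gP + gM))
  have t2 := norm_sub_le (-2 * I * y.2.2 + (y.2.1 - hubZ)
    - (1/2) * ((gP - (hubZ + 1/2)) + (gM - (hubZ - 1/2)))) (((ε:ℂ) / 2) * (gP + gM))
  have t3 := norm_sub_le (-2 * I * y.2.2 + (y.2.1 - hubZ))
    ((1/2:ℂ) * ((gP - (hubZ + 1/2)) + (gM - (hubZ - 1/2))))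
  have t4 := norm_add_le (-2 * I * y.2.2) (y.2.1 - hubZ)
  have hm0 : 0 ≤ m := (norm_nonneg _).trans h
  have hδ0 := abs_nonneg δ
  linarith

noncomputable def dUf (ε δ : ℝ) (y : P4) : ℂ := uc (fd rho0 ε δ y).2.1 (fd rho0 ε δ y).2.2

theorem U_split (y1 y2 : P4) : U y2.2 = uD (y2 - y1) + U y1.2 := by
  unfold U uD
  rw [← uc_add']
  congr 1
  · simp only [Prod.snd_sub, Prod.fst_sub]; ring
  · simp only [Prod.snd_sub]; ring

theorem Sg_split (y1 y2 : P4) : Sg y2.2 = sD (y2 - y1) + Sg y1.2 := by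
  unfold Sg sD
  rw [← sc_add']
  congr 1
  · simp only [Prod.snd_sub, Prod.fst_sub]; ring
  · simp only [Prod.snd_sub]; ring

theorem dU_split (ε δ : ℝ) (y1 y2 : P4) : dUf ε δ y2 = duD ε δ y1 y2 + dUf ε δ y1 := by
  unfold dUf duD FD
  rw [← uc_add']
  congr 1
  · simp only [Prod.snd_sub, Prod.fst_sub]; ring
  · simp only [Prod.snd_sub]; ring

theorem U_base {r ϵ1 ϵ2 ε δ ρ1 : ℝ} (h : CQ r ϵ1 ϵ2 ε δ ρ1) {y : P4} (hy : ‖y - hub4‖ ≤ ρ1) :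
    ‖U y.2‖ ≤ r / 10^5 ∧ ‖Sg y.2‖ ≤ 4 * ρ1 ∧ ‖dUf ε δ y‖ ≤ r / 10^4 := by
  obtain ⟨s1, s2, s3, s4, s5, s6, s7⟩ := h.small
  obtain ⟨c1, c2, c3, c4⟩ := hub_comps hy
  have hr6 := h.hr6
  have hr := h.hr
  have hp := h.hp
  have F := F_small (δ := δ) h.he (m := ρ1) (by norm_num at hr6 s2 ⊢; linarith) hy
  have cc := stmtC2 (y.2.1 - hubZ) y.2.2
  have hI : ‖y.2.2 + I * (y.2.1 - hubZ)‖ ≤ 2 * ρ1 := by
    refine (norm_add_le _ _).trans ?_
    rw [norm_mul, norm_I, one_mul]; linarith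
  have hI2 : ‖(fd rho0 ε δ y).2.2 + I * (fd rho0 ε δ y).2.1‖ ≤ (7 * ρ1 + 2 * ε + 4 * |δ|) + ρ1 := by
    refine (norm_add_le _ _).trans ?_
    rw [norm_mul, norm_I, one_mul, fd21'']
    linarith
  have c5 := stmtC2 (fd rho0 ε δ y).2.1 (fd rho0 ε δ y).2.2
  have c51 := c5.2.2.1
  have c21 := cc.2.2.1
  have c22 := cc.2.2.2.1
  rw [fd21''] at c51
  refine ⟨?_, ?_, ?_⟩
  · show ‖uc (y.2.1 - hubZ) y.2.2‖ ≤ _
    refine c21.trans ?_
    norm_num at s2 ⊢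
    linarith
  · show ‖sc (y.2.1 - hubZ) y.2.2‖ ≤ _
    refine c22.trans ?_
    norm_num
    linarith
  · unfold dUf
    rw [fd21''] at hI2 ⊢
    refine c51.trans ?_
    norm_num at s2 s4 s6 ⊢
    linarith

theorem growth2D {r ϵ1 ϵ2 ε δ ρ1 : ℝ} (h : CQ r ϵ1 ϵ2 ε δ ρ1) {Φ : ℝ → P4 → P4}
    (hΦ : IsFlow (fd rho0 ε δ) Φ) {x1 x : P4} (hx1 : ∀ t, 0 ≤ t → ‖Φ t x1 - hub4‖ ≤ ρ1)
    (hx : ConeD ϵ1 ϵ2 (x - x1)) (hxu : ‖uD (x - x1)‖ = r / 2) {t : ℝ}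
    (ht : 0 ≤ t) (hT : ∀ s ∈ Icc 0 t, ‖U (Φ s x).2‖ ≤ r) :
    (∀ s ∈ Icc 0 t, ‖uD (Φ s x - Φ s x1)‖ ≤ 1.01 * r) ∧
    ‖dUf ε δ (Φ t x) - lam * U (Φ t x).2‖ ≤ ‖U (Φ t x).2‖ / 50 := by
  have hr := h.hr
  have hr6 := h.hr6
  have hT' : ∀ s ∈ Icc 0 t, ‖uD (Φ s x - Φ s x1)‖ ≤ 1.01 * r := by
    intro s hs
    have e : uD (Φ s x - Φ s x1) = U (Φ s x).2 - U (Φ s x1).2 := by
      rw [U_split (Φ s x1) (Φ s x)]; ring
    rw [e]
    refine (norm_sub_le _ _).trans ?_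
    have := hT s hs
    have o1 := (U_base h (hx1 s hs.1)).1
    norm_num at o1 ⊢
    linarith
  refine ⟨hT', ?_⟩
  have hx0 : 0 < ‖uD (x - x1)‖ := by rw [hxu]; linarith
  have hc := (coneD_orbit h hΦ hx1 hx hx0 hT' t ⟨ht, le_rfl⟩).1
  have hg := growD h (hx1 t ht) hc (hT' t ⟨ht, le_rfl⟩)
  have hm := coneD_mono h hΦ hx1 hx hx0 hT' le_rfl ht le_rfl
  rw [hΦ.zero, hΦ.zero, hxu] at hm
  obtain ⟨o1, -, o3⟩ := U_base h (hx1 t ht)
  have hu1 := hT' t ⟨ht, le_rfl⟩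
  have e1 : dUf ε δ (Φ t x) - lam * U (Φ t x).2
      = (duD ε δ (Φ t x1) (Φ t x) - lam * uD (Φ t x - Φ t x1))
        + (dUf ε δ (Φ t x1) - lam * U (Φ t x1).2) := by
    rw [U_split (Φ t x1) (Φ t x), dU_split ε δ (Φ t x1) (Φ t x)]; ring
  have n1 : ‖lam‖ ≤ 1.2 := by
    have hl : ‖lam‖ ^ 2 ≤ 1.2 ^ 2 := by
      rw [nsq]
      have r1 : lam.re = al := lam_re
      have i1 : lam.im = be := by unfold lam; simp
      rw [r1, i1]
      have h1 := al_hi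
      have h2 := stmtC5.2.1.2
      have h3 := stmtC5.2.1.1
      have h4 := al_lo
      norm_num at h1 h2 h3 h4 ⊢
      nlinarith
    exact le_of_sq' hl (by norm_num)
  have n2 : ‖uD (Φ t x - Φ t x1)‖ ≤ ‖U (Φ t x).2‖ + ‖U (Φ t x1).2‖ := by
    have e : uD (Φ t x - Φ t x1) = U (Φ t x).2 - U (Φ t x1).2 := by
      rw [U_split (Φ t x1) (Φ t x)]; ring
    rw [e]
    exact norm_sub_le _ _
  rw [e1]
  refine (norm_add_le _ _).trans ?_
  have n5 := norm_sub_le (dUf ε δ (Φ t x1)) (lam * U (Φ t x1).2)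
  rw [norm_mul] at n5
  have n3 : ‖lam‖ * ‖U (Φ t x1).2‖ ≤ 1.2 * (r / 10^5) := mul_le_mul n1 o1 (norm_nonneg _) (by norm_num)
  have n4 : 17 * r * ‖uD (Φ t x - Φ t x1)‖ ≤ 17 * (1/10^6) * ‖uD (Φ t x - Φ t x1)‖ := by gcongr
  norm_num at n3 n4 o1 o3 hu1 ⊢
  linarith

theorem fd_cont {ε δ : ℝ} (h0 : 0 ≤ ε) (h1 : ε ≤ 1) (hδ : |δ| ≤ 1) : Continuous (fd rho0 ε δ) :=
  (fd_K h0 h1 hδ).continuous

theorem uD_cont : Continuous uD :=
  uc_cont (continuous_fst.comp continuous_snd) (continuous_snd.comp continuous_snd)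

theorem dUf_cont {ε δ : ℝ} (h0 : 0 ≤ ε) (h1 : ε ≤ 1) (hδ : |δ| ≤ 1) : Continuous (dUf ε δ) := by
  have h := fd_cont h0 h1 hδ
  exact uc_cont ((continuous_fst.comp continuous_snd).comp h)
    ((continuous_snd.comp continuous_snd).comp h)

theorem duD_cont {ε δ : ℝ} (h0 : 0 ≤ ε) (h1 : ε ≤ 1) (hδ : |δ| ≤ 1) {X : Type}
    [TopologicalSpace X] {f g : X → P4} (hf : Continuous f) (hg : Continuous g) :
    Continuous (fun q : X => duD ε δ (f q) (g q)) := by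
  have h := fd_cont h0 h1 hδ
  have h2 : Continuous (fun q : X => fd rho0 ε δ (g q) - fd rho0 ε δ (f q)) :=
    (h.comp hg).sub (h.comp hf)
  exact uc_cont ((continuous_fst.comp continuous_snd).comp h2)
    ((continuous_snd.comp continuous_snd).comp h2)

/-- curve of initial states -/
noncomputable def xp (x1 : P4) (η : ℝ) (g : ℂ × ℂ →L[ℝ] ℂ × ℂ) (p : ℝ) : P4 :=
  x1 + ((0, 0), g ((η:ℂ) * exp (p * I), 0))

theorem xp_cont (x1 : P4) (η : ℝ) (g : ℂ × ℂ →L[ℝ] ℂ × ℂ) : Continuous (xp x1 η g) := by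
  have h1 : Continuous fun p : ℝ => g ((η:ℂ) * exp (p * I), 0) := by
    refine g.continuous.comp (Continuous.prodMk ?_ continuous_const)
    exact continuous_const.mul (Complex.continuous_exp.comp
      (Complex.continuous_ofReal.mul continuous_const))
  unfold xp
  exact continuous_const.add (continuous_const.prodMk h1)

theorem xp_sub (x1 : P4) (η : ℝ) (g : ℂ × ℂ →L[ℝ] ℂ × ℂ) (p : ℝ) :
    xp x1 η g p - x1 = ((0, 0), g ((η:ℂ) * exp (p * I), 0)) := by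
  unfold xp; simp

theorem xp_u (x1 : P4) {η : ℝ} {g : ℂ × ℂ →L[ℝ] ℂ × ℂ}
    (hg : ∀ u s : ℂ, uc (g (u, s)).1 (g (u, s)).2 = u ∧ sc (g (u, s)).1 (g (u, s)).2 = s) (p : ℝ) :
    uD (xp x1 η g p - x1) = (η:ℂ) * exp (p * I) ∧ sD (xp x1 η g p - x1) = 0 ∧
      Qf' (xp x1 η g p - x1) = 0 := by
  have h := hg ((η:ℂ) * exp (p * I)) 0
  rw [xp_sub]
  refine ⟨h.1, h.2, ?_⟩
  unfold Qf' QE' Qc'
  simp

theorem pNear (P : OutPar) (κ : ℝ) (hP : P.ok) (hκ : 0 < κ) :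
    ∃ m0 > 0, ∀ ε δ : ℝ, 0 ≤ ε → ε ≤ m0 → |δ| ≤ m0 → ∀ Φ : ℝ → P4 → P4, IsFlow (fd rho0 ε δ) Φ →
      ∀ x1 : P4, (∀ t, 0 ≤ t → ‖Φ t x1 - hub4‖ ≤ m0) → ∀ η0 > 0, ∃ (x : P4) (T ψ : ℝ),
        ‖x - x1‖ ≤ η0 ∧ 0 ≤ T ∧
        OutC P.r P.ϵ ψ (Φ T x).2 ∧ |ψ - P.θ| ≤ P.Δ ∧
        ‖(Φ T x).1.1 - 1‖ ≤ κ ∧ ‖(Φ T x).1.2‖ ≤ κ ∧
        ∀ t ∈ Icc 0 T, ‖Φ t x - hub4‖ ≤ 1/50 := by
  obtain ⟨hr, hr6, h64, hϵ1, hΔ, hΔ'⟩ := hP
  obtain ⟨g, hg⟩ := stmtC4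
  set r := P.r with hrdef
  set ϵ2 := min (r / 1000) κ with hϵ2
  have k2 : 0 < ϵ2 := by
    rw [hϵ2]
    exact lt_min (by positivity) hκ
  have k2a : ϵ2 ≤ r / 1000 := min_le_left _ _
  have k2c : ϵ2 ≤ κ := min_le_right _ _
  refine ⟨r * ϵ2 / 1000, by positivity, ?_⟩
  intro ε δ hε0 hε1 hδ Φ hΦ y1 hy1 η0 hη00
  have h : CQ r (P.ϵ / 2) ϵ2 ε δ (r * ϵ2 / 1000) :=
    ⟨hr, hr6, by linarith, by linarith, k2, k2a, hε0, hε1, hδ, by positivity, le_rfl⟩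
  obtain ⟨sm1, sm2, sm3, sm4, sm5, sm6, sm7⟩ := h.small
  -- size of the initial states
  set η := min (r / 4) (η0 / (‖g‖ + 1)) with hη
  have hη0 : 0 < η := lt_min (by positivity) (by positivity)
  have hηε : η ≤ r / 4 := min_le_left _ _
  have hηn : η ≤ η0 / (‖g‖ + 1) := min_le_right _ _
  have hηr : η < r / 2 := by linarith
  have hgη : ‖g‖ * η ≤ η0 := by
    have h1 : (‖g‖ + 1) * η ≤ (‖g‖ + 1) * (η0 / (‖g‖ + 1)) :=
      mul_le_mul_of_nonneg_left hηn (by positivity)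
    rw [mul_div_cancel₀ _ (by positivity)] at h1
    linarith
  have hx0 := fun p => xp_u y1 (η := η) hg p
  have hx0c := xp_cont y1 η g
  set x0 := xp y1 η g with hx0d
  have hnu : ∀ p, ‖uD (x0 p - y1)‖ = η := by
    intro p
    rw [(hx0 p).1, norm_mul, Complex.norm_exp_ofReal_mul_I, mul_one, Complex.norm_real,
      Real.norm_eq_abs, abs_of_pos hη0]
  have hcone0 : ∀ p, ConeD (P.ϵ / 2) ϵ2 (x0 p - y1) := by
    intro p
    constructor
    · rw [(hx0 p).2.1, norm_zero]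
      have : 0 ≤ (P.ϵ / 2 * ‖uD (x0 p - y1)‖) ^ 2 := by positivity
      linarith
    · rw [(hx0 p).2.2]
      have : 0 ≤ (ϵ2 * ‖uD (x0 p - y1)‖) ^ 2 := by positivity
      linarith
  have hpos0 : ∀ p, 0 < ‖uD (x0 p - y1)‖ := fun p => by rw [hnu]; exact hη0
  have hε1' : ε ≤ 1 := by norm_num at hr6 sm4 ⊢; linarith
  have hδ1' : |δ| ≤ 1 := by norm_num at hr6 sm6 ⊢; linarith
  have hyc : Continuous fun t => Φ t y1 := hΦ.cont.comp (continuous_id.prodMk continuous_const)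
  set L := 4 * Real.pi with hL
  have hL0 : 0 < L := by have := Real.pi_pos; positivity
  -- phase 1
  have hu1c : Continuous (uncurry fun t p => uD (Φ t (x0 p) - Φ t y1)) :=
    uD_cont.comp ((hΦ.cont.comp (continuous_fst.prodMk (hx0c.comp continuous_snd))).sub
      (hyc.comp continuous_fst))
  have hdu1c : Continuous (uncurry fun t p => duD ε δ (Φ t y1) (Φ t (x0 p))) := by
    have c1 : Continuous fun q : ℝ × ℝ => Φ q.1 y1 := hyc.comp continuous_fst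
    have c2 : Continuous fun q : ℝ × ℝ => Φ q.1 (x0 q.2) :=
      hΦ.cont.comp (continuous_fst.prodMk (hx0c.comp continuous_snd))
    exact duD_cont hε0 hε1' hδ1' c1 c2
  have hle : ∀ {p t : ℝ}, (∀ s ∈ Icc 0 t, ‖uD (Φ s (x0 p) - Φ s y1)‖ ≤ r / 2) →
      ∀ s ∈ Icc 0 t, ‖uD (Φ s (x0 p) - Φ s y1)‖ ≤ 1.01 * r := by
    intro p t hs s hs'
    refine (hs s hs').trans ?_
    norm_num
    linarith
  have hlre : 1 / 10 < lam.re := by
    rw [lam_re]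
    have := al_lo
    norm_num at this ⊢
    linarith
  obtain ⟨Z1, hZ1c, hZ1cc, hZ10, hZ1⟩ := Run7.h550.SY.exitL (a := 0) (b := L) (r := r / 2)
    (u := fun t p => uD (Φ t (x0 p) - Φ t y1)) (du := fun t p => duD ε δ (Φ t y1) (Φ t (x0 p)))
    (l := lam) hL0.le hu1c hdu1c (fun t p => uD_deriv hΦ t y1 (x0 p)) hlre
    (fun p _ => by
      simp only [hΦ.zero]
      exact ⟨hpos0 p, by rw [hnu]; exact hηr⟩)
    (fun p _ t ht hs => growD' h (hy1 t ht)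
      (coneD_orbit h hΦ hy1 (hcone0 p) (hpos0 p) (hle hs) t ⟨ht, le_rfl⟩).1 (hle hs t ⟨ht, le_rfl⟩))
  set t1 := Run7.h550.SY.tout (fun t p => uD (Φ t (x0 p) - Φ t y1)) (r / 2) with ht1
  -- clamp
  set c : ℝ → ℝ := fun p => max 0 (min p L) with hc
  have hcc : Continuous c := continuous_const.max (continuous_id.min continuous_const)
  have hcm : ∀ p, c p ∈ Icc 0 L := fun p =>
    ⟨le_max_left _ _, max_le hL0.le (min_le_right _ _)⟩
  have hcid : ∀ p ∈ Icc 0 L, c p = p := by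
    intro p hp
    rw [hc]
    simp only
    rw [min_eq_left hp.2, max_eq_right hp.1]
  have ht1c : Continuous fun p => t1 (c p) := hZ1c.comp_continuous hcc hcm
  set x1 : ℝ → P4 := fun p => Φ (t1 (c p)) (x0 (c p)) with hx1
  have hx1c : Continuous x1 := hΦ.cont.comp (ht1c.prodMk (hx0c.comp hcc))
  set z1 : ℝ → P4 := fun p => Φ (t1 (c p)) y1 with hz1
  have hz1c : Continuous z1 := hΦ.cont.comp (ht1c.prodMk continuous_const)
  have ht1pos : ∀ p, 0 ≤ t1 (c p) := fun p => (hZ1 (c p) (hcm p)).1.le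
  have hz1n : ∀ p t, 0 ≤ t → ‖Φ t (z1 p) - hub4‖ ≤ r * ϵ2 / 1000 := by
    intro p t ht
    have e : Φ t (z1 p) = Φ (t1 (c p) + t) y1 := by rw [hΦ.add]
    rw [e]
    exact hy1 _ (by linarith [ht1pos p])
  have hz1n0 : ∀ p, ‖z1 p - hub4‖ ≤ r * ϵ2 / 1000 := fun p => hy1 _ (ht1pos p)
  have hb1 : ∀ p ∈ Icc 0 L, ∀ s ∈ Icc 0 (t1 p), ‖uD (Φ s (x0 p) - Φ s y1)‖ ≤ 1.01 * r := fun p hp =>
    hle fun s hs => ((hZ1 p hp).2.2.1 s hs).1
  have hx1u : ∀ p, ‖uD (x1 p - z1 p)‖ = r / 2 := fun p => (hZ1 (c p) (hcm p)).2.1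
  have hx1cone : ∀ p, ConeD (P.ϵ / 2) ϵ2 (x1 p - z1 p) := fun p =>
    (coneD_orbit h hΦ hy1 (hcone0 (c p)) (hpos0 (c p)) (hb1 (c p) (hcm p)) (t1 (c p))
      ⟨(hZ1 (c p) (hcm p)).1.le, le_rfl⟩).1
  -- phase 2
  have hu2c : Continuous (uncurry fun t p => U (Φ t (x1 p)).2) :=
    U_cont.comp (hΦ.cont.comp (continuous_fst.prodMk (hx1c.comp continuous_snd)))
  have hdu2c : Continuous (uncurry fun t p => dUf ε δ (Φ t (x1 p))) :=
    (dUf_cont hε0 hε1' hδ1').comp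
      (hΦ.cont.comp (continuous_fst.prodMk (hx1c.comp continuous_snd)))
  have hUd : ∀ t p, HasDerivAt (fun s => U (Φ s (x1 p)).2) (dUf ε δ (Φ t (x1 p))) t := by
    intro t p
    have hd := hΦ.deriv t (x1 p)
    exact uc_deriv ((d21 hd).sub_const _) (d22 hd)
  have hU0 : ∀ p, 0 < ‖U (x1 p).2‖ ∧ ‖U (x1 p).2‖ < r := by
    intro p
    have e1 : ‖U (x1 p).2‖ ≤ ‖uD (x1 p - z1 p)‖ + ‖U (z1 p).2‖ := by
      rw [U_split (z1 p) (x1 p)]; exact norm_add_le _ _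
    have e2 : ‖uD (x1 p - z1 p)‖ ≤ ‖U (x1 p).2‖ + ‖U (z1 p).2‖ := by
      have e : uD (x1 p - z1 p) = U (x1 p).2 - U (z1 p).2 := by
        rw [U_split (z1 p) (x1 p)]; ring
      calc ‖uD (x1 p - z1 p)‖ = ‖U (x1 p).2 - U (z1 p).2‖ := by rw [← e]
        _ ≤ _ := norm_sub_le _ _
    have e3 := (U_base h (hz1n0 p)).1
    rw [hx1u] at e1 e2
    norm_num at e3
    constructor <;> linarith
  obtain ⟨Z2, hZ2c, hZ2cc, hZ20, hZ2⟩ := Run7.h550.SY.exitL (a := 0) (b := L) (r := r)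
    (u := fun t p => U (Φ t (x1 p)).2) (du := fun t p => dUf ε δ (Φ t (x1 p))) (l := lam) hL0.le
    hu2c hdu2c hUd hlre
    (fun p _ => by
      simp only [hΦ.zero]
      exact hU0 p)
    (fun p _ t ht hs => (growth2D h hΦ (hz1n p) (hx1cone p) (hx1u p) ht hs).2)
  set t2 := Run7.h550.SY.tout (fun t p => U (Φ t (x1 p)).2) r with ht2
  have hb2 : ∀ p ∈ Icc 0 L, ∀ s ∈ Icc 0 (t2 p), ‖uD (Φ s (x1 p) - Φ s (z1 p))‖ ≤ 1.01 * r :=
    fun p hp => (growth2D h hΦ (hz1n p) (hx1cone p) (hx1u p) (hZ2 p hp).1.le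
      (fun s hs => ((hZ2 p hp).2.2.1 s hs).1)).1
  -- the angle
  set w : ℝ → ℂ := fun p => 1 + U (z1 p).2 / uD (x1 p - z1 p) with hw
  have hwd : ∀ p, ‖U (z1 p).2 / uD (x1 p - z1 p)‖ ≤ 1/1000 := by
    intro p
    rw [norm_div, hx1u, div_le_iff₀ (by positivity)]
    have e3 := (U_base h (hz1n0 p)).1
    norm_num at e3 ⊢
    linarith
  have hwre : ∀ p, 0 < (w p).re := by
    intro p
    have h1 := (abs_le.mp (Complex.abs_re_le_norm (U (z1 p).2 / uD (x1 p - z1 p)))).1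
    have h2 := hwd p
    have h3 : (w p).re = 1 + (U (z1 p).2 / uD (x1 p - z1 p)).re := by rw [hw]; simp
    rw [h3]
    linarith
  have hwslit : ∀ p, w p ∈ slitPlane := fun p => Or.inl (hwre p)
  have hw0 : ∀ p, w p ≠ 0 := fun p => slitPlane_ne_zero (hwslit p)
  have hu1ne : ∀ p, uD (x1 p - z1 p) ≠ 0 := fun p => norm_pos_iff.mp (by rw [hx1u]; positivity)
  have hwc : Continuous w := continuous_const.add
    ((U_cont.comp hz1c).div (uD_cont.comp (hx1c.sub hz1c)) hu1ne)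
  have hargc : Continuous fun p => arg (w p) :=
    continuous_iff_continuousAt.mpr fun p =>
      (Complex.continuousAt_arg (hwslit p)).comp hwc.continuousAt
  set ψ0 : ℝ → ℝ := fun p => p + (Z1 (t1 p) p).im + arg (w p) + (Z2 (t2 p) p).im with hψ0
  have hZ1ic : ContinuousOn (fun p => (Z1 (t1 p) p).im) (Icc 0 L) :=
    Complex.continuous_im.comp_continuousOn (hZ1cc.comp_continuousOn (hZ1c.prodMk continuousOn_id))
  have hZ2ic : ContinuousOn (fun p => (Z2 (t2 p) p).im) (Icc 0 L) :=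
    Complex.continuous_im.comp_continuousOn (hZ2cc.comp_continuousOn (hZ2c.prodMk continuousOn_id))
  have hψ0c : ContinuousOn ψ0 (Icc 0 L) :=
    ((continuousOn_id.add hZ1ic).add hargc.continuousOn).add hZ2ic
  -- periodicity
  have hm0 : (0:ℝ) ∈ Icc 0 L := ⟨le_rfl, hL0.le⟩
  have hmL : L ∈ Icc 0 L := ⟨hL0.le, le_rfl⟩
  have hx0per : x0 L = x0 0 := by
    rw [hx0d]
    unfold xp
    have e : exp ((L:ℂ) * I) = exp (((0:ℝ):ℂ) * I) := by
      have h1 := exp_shift L 2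
      have h2 : L - ((2:ℤ):ℝ) * (2 * Real.pi) = 0 := by rw [hL]; push_cast; ring
      rw [h2] at h1
      exact h1.symm
    rw [e]
  have ht1per : t1 L = t1 0 := tout_congr fun t => by simp only [hx0per]
  have hx1per : x1 L = x1 0 := by
    rw [hx1]
    simp only
    rw [hcid L hmL, hcid 0 hm0, ht1per, hx0per]
  have ht2per : t2 L = t2 0 := tout_congr fun t => by simp only [hx1per]
  have hz1per : z1 L = z1 0 := by
    rw [hz1]
    simp only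
    rw [hcid L hmL, hcid 0 hm0, ht1per]
  have hwper : w L = w 0 := by rw [hw]; simp only [hx1per, hz1per]
  have hZ1per : Z1 (t1 L) L = Z1 (t1 0) 0 := by
    rw [ht1per]
    refine Zuniq (Z := fun t => Z1 t L) (Z' := fun t => Z1 t 0)
      (g := fun t => duD ε δ (Φ t y1) (Φ t (x0 0)) / uD (Φ t (x0 0) - Φ t y1)) (hZ1 0 hm0).1.le
      (by simp only [hZ10]) ?_ ?_
    · intro t ht
      have h1 := ((hZ1 L hmL).2.2.1 t (by rw [ht1per]; exact ht)).2.2.1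
      rw [hx0per] at h1
      exact h1
    · intro t ht
      exact ((hZ1 0 hm0).2.2.1 t ht).2.2.1
  have hZ2per : Z2 (t2 L) L = Z2 (t2 0) 0 := by
    rw [ht2per]
    refine Zuniq (Z := fun t => Z2 t L) (Z' := fun t => Z2 t 0)
      (g := fun t => dUf ε δ (Φ t (x1 0)) / U (Φ t (x1 0)).2) (hZ2 0 hm0).1.le
      (by simp only [hZ20]) ?_ ?_
    · intro t ht
      have h1 := ((hZ2 L hmL).2.2.1 t (by rw [ht2per]; exact ht)).2.2.1
      rw [hx1per] at h1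
      exact h1
    · intro t ht
      exact ((hZ2 0 hm0).2.2.1 t ht).2.2.1
  have hψ0per : ψ0 L = ψ0 0 + 4 * Real.pi := by
    rw [hψ0]
    simp only
    rw [hZ1per, hZ2per, hwper, hL]
    ring
  obtain ⟨k, a', b', e1, e2, e3, e4, e5, e6⟩ := window (θ := P.θ) (Δ := P.Δ) hL0.le hψ0c hψ0per hΔ hΔ'
  have hsub : Icc a' b' ⊆ Icc 0 L := Icc_subset_Icc e1 e3
  obtain ⟨p, hp⟩ : ∃ p, p ∈ Icc a' b' := ⟨a', le_rfl, e2.le⟩
  have hpL : p ∈ Icc 0 L := hsub hp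
  have hcp := hcid p hpL
  obtain ⟨z1a, z1b, z1c, z1d⟩ := hZ1 p hpL
  obtain ⟨z2a, z2b, z2c, z2d⟩ := hZ2 p hpL
  have hx1p : x1 p = Φ (t1 p) (x0 p) := by rw [hx1]; simp only; rw [hcp]
  have hz1p : z1 p = Φ (t1 p) y1 := by rw [hz1]; simp only; rw [hcp]
  -- the final state as a point of the orbit of `x0 p`
  have hflow : ∀ s, Φ s (x1 p) = Φ (t1 p + s) (x0 p) := by
    intro s; rw [hx1p, ← hΦ.add]
  have hflow' : ∀ s, Φ s (z1 p) = Φ (t1 p + s) y1 := by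
    intro s; rw [hz1p, ← hΦ.add]
  have hball : ∀ s ∈ Icc 0 (t1 p + t2 p), ‖uD (Φ s (x0 p) - Φ s y1)‖ ≤ 1.01 * r := by
    intro s hs
    rcases le_total s (t1 p) with h1 | h1
    · exact hb1 p hpL s ⟨hs.1, h1⟩
    · have h2 := hb2 p hpL (s - t1 p) ⟨by linarith, by linarith [hs.2]⟩
      rw [hflow, hflow', add_sub_cancel] at h2
      exact h2
  have hTT : 0 ≤ t1 p + t2 p := by linarith
  have hcone := coneD_orbit h hΦ hy1 (hcone0 p) (hpos0 p) hball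
  have hfin := hcone (t1 p + t2 p) ⟨hTT, le_rfl⟩
  have hfinb := hball (t1 p + t2 p) ⟨hTT, le_rfl⟩
  have hnear := coneD_near h (hy1 _ hTT) hfin.1 hfinb
  have hbd := coneD_bd h hfin.1
  have hy : Φ (t2 p) (x1 p) = Φ (t1 p + t2 p) (x0 p) := hflow _
  have hU : U (Φ (t2 p) (x1 p)).2 = r * exp (((ψ0 p : ℝ) : ℂ) * I) := by
    have h1 := (z2c (t2 p) ⟨z2a.le, le_rfl⟩).2.2.2
    have h2 := (z1c (t1 p) ⟨z1a.le, le_rfl⟩).2.2.2
    simp only [hΦ.zero] at h1 h2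
    have h3 : U (x1 p).2 = uD (x1 p - z1 p) * w p := by
      rw [U_split (z1 p) (x1 p), hw]
      simp only
      field_simp [hu1ne p]
    rw [h3] at h1
    have h5 : uD (x1 p - z1 p) = uD (x0 p - y1) * exp (Z1 (t1 p) p) := by
      rw [hx1p, hz1p]; exact h2
    rw [h5, (hx0 p).1] at h1
    have h4 := polar (r := r) hη0 (z1 := Z1 (t1 p) p) (z2 := Z2 (t2 p) p) (w := w p) (p := p) (hw0 p)
      (by rw [← h1]; exact z2b)
    rw [h1, h4]
  have hgb : ‖g ((η:ℂ) * exp (p * I), 0)‖ ≤ η0 := by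
    refine (g.le_opNorm _).trans ?_
    have e1 : ‖(((η:ℂ) * exp (p * I), 0) : ℂ × ℂ)‖ = η := by
      rw [Prod.norm_def]
      simp only [norm_zero]
      rw [norm_mul, Complex.norm_exp_ofReal_mul_I, mul_one, Complex.norm_real, Real.norm_eq_abs,
        abs_of_pos hη0]
      exact max_eq_left hη0.le
    rw [e1]
    exact hgη
  refine ⟨x0 p, t1 p + t2 p, ψ0 p - k * (2 * Real.pi), ?_, hTT, ?_, ?_, ?_, ?_, ?_⟩
  · rw [hx0d, xp_sub, Prod.norm_def]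
    simp only
    have : ‖((0, 0) : ℂ × ℂ)‖ = 0 := norm_zero
    rw [this]
    exact max_le hη00.le hgb
  · rw [← hy]
    refine ⟨?_, ?_⟩
    · rw [hU]
      have := exp_shift (ψ0 p) k
      rw [this]
    · rw [hy, Sg_split (Φ (t1 p + t2 p) y1) (Φ (t1 p + t2 p) (x0 p))]
      refine (norm_add_le _ _).trans ?_
      have h1 := hbd.1
      have h2 : P.ϵ / 2 * ‖uD (Φ (t1 p + t2 p) (x0 p) - Φ (t1 p + t2 p) y1)‖
          ≤ P.ϵ / 2 * (1.01 * r) :=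
        mul_le_mul_of_nonneg_left hfinb (by linarith)
      have h3 : 64 * r * r ≤ P.ϵ * r := mul_le_mul_of_nonneg_right h64 hr.le
      have h5 := (U_base h (hy1 _ hTT)).2.1
      have h6 : r * ϵ2 ≤ r * (r / 1000) := mul_le_mul_of_nonneg_left k2a hr.le
      have h7 : 0 < r * r := by positivity
      norm_num at h2 ⊢
      nlinarith
  · have := e6 p hp
    rw [abs_le]
    constructor <;> linarith [this.1, this.2]
  · exact hnear.1.trans (by linarith)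
  · exact hnear.2.1.trans (by linarith)
  · intro t ht
    obtain ⟨q1, q4, q2, q3⟩ := coneD_near h (hy1 t ht.1) (hcone _ ht).1 (hball _ ht)
    clear hy hflow
    generalize Φ t (x0 p) = y at *
    norm_num at sm1 hr6 q2
    unfold hub4
    rw [Prod.norm_def, Prod.norm_def, Prod.norm_def]
    simp only [Prod.fst_sub, Prod.snd_sub, sub_zero]
    refine max_le (max_le ?_ ?_) (max_le ?_ ?_)
    · linarith
    · linarith
    · linarith
    · linarith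

end Run7.h874.LE
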