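import Pool.Agent.Run7.h874.LE.ConnE
import Pool.Agent.Run7.h874.Data.DE

/-!
# Connection DE (to the escape)
-/

set_option autoImplicit false
set_option exponentiation.threshold 1000000

namespace Run7.h874.DE

open Complex Set

noncomputable def cC : ℝ := -(0xf4d06373ded8fb4d745b31d1fa61e05f / 2 ^ 128)
noncomputable def cS : ℝ := 0x4ad8df3e0f571d06ee1a1c0b7777cf90 / 2 ^ 128
theorem ixp : hd0 (prm.u h0.xp) = -0xd728593e990c340f9 := by decide +kernel
theorem iyp : hd0 (prm.u h0.yp) = 0xddb3d742c265539eca854f860281ee9f := by decide +kernel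
theorem jxp : hd0 (derL (prm.u h0.xp)) = -0x4ad8df3a3c158f352 := by decide +kernel
theorem jyp : hd0 (derL (prm.u h0.yp)) = 0xad1fc132fa118cf02 := by decide +kernel
noncomputable def ixp' : ℝ := -(0xd728593e990c340f9 / 2 ^ 128)
noncomputable def iyp' : ℝ := 0xddb3d742c265539eca854f860281ee9f / 2 ^ 128
noncomputable def iup' : ℝ := -(0x4ad8df3a3c158f352 / 2 ^ 128)
noncomputable def ivp' : ℝ := 0xad1fc132fa118cf02 / 2 ^ 128

theorem iztp : zt prm.P h0.m (prm.u h0.xp) (prm.u h0.yp) 0 = ⟨ixp', iyp'⟩ := by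
  rw [zt_zero ixp iyp]
  unfold ixp' iyp' prm
  apply Complex.ext <;> norm_num
theorem ivtp : vt prm.P h0.m (prm.u h0.xp) (prm.u h0.yp) 0 = ⟨iup', ivp'⟩ := by
  rw [vt_zero jxp jyp]
  unfold iup' ivp' prm h0
  apply Complex.ext <;> norm_num

theorem fxp : sumI (prm.u last.xp) = -0x1ffbede88a69f44070381d47a2ce8f6c := by decide +kernel
theorem fyp : sumI (prm.u last.yp) = 0x3428cae15a60828a45f7743421e520371 := by decide +kernel
theorem gxp : sumI (derL (prm.u last.xp)) = 0x15cce6421e09e5479ce2f29c3baa24bfc := by decide +kernel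
theorem gyp : sumI (derL (prm.u last.yp)) = 0x8497f1d4aaee4fe21ef971fdcb7975da := by decide +kernel
noncomputable def fxp' : ℝ := -(0x1ffbede88a69f44070381d47a2ce8f6c / 2 ^ 128)
noncomputable def fyp' : ℝ := 0x3428cae15a60828a45f7743421e520371 / 2 ^ 128
noncomputable def fup' : ℝ := 0x2b99cc843c13ca8f39c5e5387754497f8 / 2 ^ 128
noncomputable def fvp' : ℝ := 0x1092fe3a955dc9fc43df2e3fb96f2ebb4 / 2 ^ 128

theorem fztp : zt prm.P last.m (prm.u last.xp) (prm.u last.yp) last.h = ⟨fxp', fyp'⟩ := by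
  rw [zt_end fxp fyp]
  unfold fxp' fyp' prm
  apply Complex.ext <;> norm_num
theorem fvtp : vt prm.P last.m (prm.u last.xp) (prm.u last.yp) last.h = ⟨fup', fvp'⟩ := by
  rw [vt_end gxp gyp]
  unfold fup' fvp' prm last
  apply Complex.ext <;> norm_num

theorem ixn : hd0 (prm.u h0.xn) = -0xd72859409cd6079d5 := by decide +kernel
theorem iyn : hd0 (prm.u h0.yn) = 0xddb3d742c265539eca854f313c0bf9ff := by decide +kernel
theorem jxn : hd0 (derL (prm.u h0.xn)) = -0x4ad8df41e298aad41 := by decide +kernel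
theorem jyn : hd0 (derL (prm.u h0.yn)) = 0xad1fc13034939ea92 := by decide +kernel
noncomputable def ixn' : ℝ := -(0xd72859409cd6079d5 / 2 ^ 128)
noncomputable def iyn' : ℝ := 0xddb3d742c265539eca854f313c0bf9ff / 2 ^ 128
noncomputable def iun' : ℝ := -(0x4ad8df41e298aad41 / 2 ^ 128)
noncomputable def ivn' : ℝ := 0xad1fc13034939ea92 / 2 ^ 128

theorem iztn : zt prm.P h0.m (prm.u h0.xn) (prm.u h0.yn) 0 = ⟨ixn', iyn'⟩ := by
  rw [zt_zero ixn iyn]
  unfold ixn' iyn' prm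
  apply Complex.ext <;> norm_num
theorem ivtn : vt prm.P h0.m (prm.u h0.xn) (prm.u h0.yn) 0 = ⟨iun', ivn'⟩ := by
  rw [vt_zero jxn jyn]
  unfold iun' ivn' prm h0
  apply Complex.ext <;> norm_num

theorem fxn : sumI (prm.u last.xn) = -0x1ffbee0f170c95f854597086348ead3d := by decide +kernel
theorem fyn : sumI (prm.u last.yn) = 0x3428cae1252bf06d7c2592250dab35583 := by decide +kernel
theorem gxn : sumI (derL (prm.u last.xn)) = 0x15cce641a811d3df61ec645f7c53ac8c1 := by decide +kernel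
theorem gyn : sumI (derL (prm.u last.yn)) = 0x8497f1e53dbfbec0bf26e76cac878c28 := by decide +kernel
noncomputable def fxn' : ℝ := -(0x1ffbee0f170c95f854597086348ead3d / 2 ^ 128)
noncomputable def fyn' : ℝ := 0x3428cae1252bf06d7c2592250dab35583 / 2 ^ 128
noncomputable def fun' : ℝ := 0x2b99cc835023a7bec3d8c8bef8a759182 / 2 ^ 128
noncomputable def fvn' : ℝ := 0x1092fe3ca7b7f7d817e4dced9590f1850 / 2 ^ 128

theorem fztn : zt prm.P last.m (prm.u last.xn) (prm.u last.yn) last.h = ⟨fxn', fyn'⟩ := by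
  rw [zt_end fxn fyn]
  unfold fxn' fyn' prm
  apply Complex.ext <;> norm_num
theorem fvtn : vt prm.P last.m (prm.u last.xn) (prm.u last.yn) last.h = ⟨fun', fvn'⟩ := by
  rw [vt_end gxn gyn]
  unfold fun' fvn' prm last
  apply Complex.ext <;> norm_num


/-- component error of the initial data -/
noncomputable def e0 : ℝ := (1 / 2 ^ 60) * (1 / 2 ^ 30) ^ 3 + 8 / 2 ^ 128

theorem cn : ‖(⟨cC, cS⟩ : ℂ)‖ ≤ 1001/1000 := by
  apply norm_le_of_sq <;> norm_num [cC, cS]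


theorem hUp : ‖uc (zt prm.P h0.m (prm.u h0.xp) (prm.u h0.yp) 0 - hubZ)
    (vt prm.P h0.m (prm.u h0.xp) (prm.u h0.yp) 0)
    - ((1 / 2 ^ 60 : ℝ) : ℂ) * ((⟨cC, cS⟩ : ℂ) * (1 + ((1 / 2 ^ 30) : ℝ) * I))‖
      ≤ 10000 * tau + 2 * e0 + (1 / 2 ^ 60) * ((1 / 2 ^ 30) ^ 2 / 2 * (1001/1000)) := by
  rw [iztp, ivtp]
  apply init_close
  · rw [abs_le]; constructor <;> norm_num [ixp']
  · rw [abs_le]; constructor <;> norm_num [iyp']
  · rw [abs_le]; constructor <;> norm_num [iup']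
  · rw [abs_le]; constructor <;> norm_num [ivp']
  · positivity
  · exact cn
  · rw [abs_le]; constructor <;> norm_num [ixp', iyp', iup', ivp', e0, cC, cS, aK1, aK2, aK0, aK3, aK4]
  · rw [abs_le]; constructor <;> norm_num [ixp', iyp', iup', ivp', e0, cC, cS, aB1, aB4]


theorem hSp : ‖sc (zt prm.P h0.m (prm.u h0.xp) (prm.u h0.yp) 0 - hubZ)
    (vt prm.P h0.m (prm.u h0.xp) (prm.u h0.yp) 0)‖ ≤ 10000 * tau + 2 * (8 / 2 ^ 128) := by
  rw [iztp, ivtp]
  have h := sc_close1 (X := ixp') (Y := iyp') (p := iup') (q := ivp') (a := 0) (b := 0) (e := 8 / 2 ^ 128)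
    (by rw [abs_le]; constructor <;> norm_num [ixp'])
    (by rw [abs_le]; constructor <;> norm_num [iyp'])
    (by rw [abs_le]; constructor <;> norm_num [iup'])
    (by rw [abs_le]; constructor <;> norm_num [ivp'])
    (by rw [abs_le]; constructor <;> norm_num [ixp', iyp', iup', ivp', aC1, aC0, aC4])
    (by rw [abs_le]; constructor <;> norm_num [ixp', iyp', iup', ivp', aC2, aC3, aD0, aC5])
  have e : (⟨0, 0⟩ : ℂ) = 0 := rfl
  rw [e, sub_zero] at h
  exact h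


theorem hUn : ‖uc (zt prm.P h0.m (prm.u h0.xn) (prm.u h0.yn) 0 - hubZ)
    (vt prm.P h0.m (prm.u h0.xn) (prm.u h0.yn) 0)
    - ((1 / 2 ^ 60 : ℝ) : ℂ) * ((⟨cC, cS⟩ : ℂ) * (1 + ((-(1 / 2 ^ 30)) : ℝ) * I))‖
      ≤ 10000 * tau + 2 * e0 + (1 / 2 ^ 60) * ((-(1 / 2 ^ 30)) ^ 2 / 2 * (1001/1000)) := by
  rw [iztn, ivtn]
  apply init_close
  · rw [abs_le]; constructor <;> norm_num [ixn']
  · rw [abs_le]; constructor <;> norm_num [iyn']
  · rw [abs_le]; constructor <;> norm_num [iun']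
  · rw [abs_le]; constructor <;> norm_num [ivn']
  · positivity
  · exact cn
  · rw [abs_le]; constructor <;> norm_num [ixn', iyn', iun', ivn', e0, cC, cS, aK1, aK2, aK0, aK3, aK4]
  · rw [abs_le]; constructor <;> norm_num [ixn', iyn', iun', ivn', e0, cC, cS, aB1, aB4]


theorem hSn : ‖sc (zt prm.P h0.m (prm.u h0.xn) (prm.u h0.yn) 0 - hubZ)
    (vt prm.P h0.m (prm.u h0.xn) (prm.u h0.yn) 0)‖ ≤ 10000 * tau + 2 * (8 / 2 ^ 128) := by
  rw [iztn, ivtn]
  have h := sc_close1 (X := ixn') (Y := iyn') (p := iun') (q := ivn') (a := 0) (b := 0) (e := 8 / 2 ^ 128)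
    (by rw [abs_le]; constructor <;> norm_num [ixn'])
    (by rw [abs_le]; constructor <;> norm_num [iyn'])
    (by rw [abs_le]; constructor <;> norm_num [iun'])
    (by rw [abs_le]; constructor <;> norm_num [ivn'])
    (by rw [abs_le]; constructor <;> norm_num [ixn', iyn', iun', ivn', aC1, aC0, aC4])
    (by rw [abs_le]; constructor <;> norm_num [ixn', iyn', iun', ivn', aC2, aC3, aD0, aC5])
  have e : (⟨0, 0⟩ : ℂ) = 0 := rfl
  rw [e, sub_zero] at h
  exact h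


/-- centre of the final states -/
noncomputable def zc : ℂ := ⟨-124938/10^6, 3259959/10^6⟩
noncomputable def vc : ℂ := ⟨2725049/10^6, 1035887/10^6⟩


theorem sok : prm.sok := by
  apply sok_of
  · rw [abs_le]; unfold prm n_s3; constructor <;> norm_num
  · unfold prm tau; norm_num

theorem dir : ‖exp ((arg (⟨cC, cS⟩ : ℂ) : ℂ) * I) - ⟨cC, cS⟩‖ ≤ 4 / 2 ^ 128 := by
  apply exp_arg_close
  rw [norm_sq_mk, abs_le]
  constructor <;> norm_num [cC, cS]

theorem cl {a b c d : ℝ} (h1 : |a - c| ≤ 1/10^6) (h2 : |b - d| ≤ 1/10^6) :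
    ‖(⟨a, b⟩ : ℂ) - ⟨c, d⟩‖ ≤ 2/10^6 := by
  have e : (⟨a, b⟩ : ℂ) - ⟨c, d⟩ = ⟨a - c, b - d⟩ := by apply Complex.ext <;> simp
  rw [e]
  refine (norm_mk_le _ _).trans ?_
  norm_num at h1 h2 ⊢
  linarith

theorem allfl : (h0 :: t0).map SD.fl = List.replicate (103 + 1) 0 := all_flags

theorem main (hH : Hyp) : ∀ φ : ℝ → P2 → P2, IsFlow (f0 rho0) φ →
      ∀ (x : P2) (ψ : ℝ), OutC (1 / 2 ^ 60) (1 / 2 ^ 54) ψ x →
        |ψ - arg (⟨cC, cS⟩ : ℂ)| ≤ 1 / 2 ^ 30 →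
        Silent φ (1/10^5) x (tot (h0 :: t0)) ∧ ‖(φ (tot (h0 :: t0)) x).1 - zc‖ ≤ 215/10^9 + 2/10^6 ∧
        ‖(φ (tot (h0 :: t0)) x).2 - vc‖ ≤ 108/10^9 + 215/10^9 + 2/10^6 := by
  have hUn' := hUn
  have e1 : (1 + ((-(1 / 2 ^ 30) : ℝ) : ℂ) * I) = (1 - ((1 / 2 ^ 30 : ℝ) : ℂ) * I) := by
    push_cast; ring
  rw [e1] at hUn'
  have e2 : ((-(1 / 2 ^ 30) : ℝ)) ^ 2 = (1 / 2 ^ 30) ^ 2 := by norm_num
  rw [e2] at hUn'
  exact esc_of hH sok q0 rfl all_last rfl allfl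
    (by positivity) (by positivity) (by norm_num) dir hUp hUn' hSp hSn
    (by unfold SD.Ein prm h0 tau e0; norm_num)
    (by unfold SD.Ein prm h0 tau; norm_num)
    fztp fvtp fztn fvtn (a' := 215/10^9) (e' := 108/10^9) (b := 2/10^6)
    (by unfold SD.W last; norm_num)
    (by unfold SD.Eout SD.W prm last; norm_num)
    (by unfold SD.Eout prm last; norm_num)
    (cl (by rw [abs_le]; constructor <;> norm_num [fxp']) (by rw [abs_le]; constructor <;> norm_num [fyp']))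
    (cl (by rw [abs_le]; constructor <;> norm_num [fxn']) (by rw [abs_le]; constructor <;> norm_num [fyn']))
    (cl (by rw [abs_le]; constructor <;> norm_num [fup']) (by rw [abs_le]; constructor <;> norm_num [fvp']))
    (cl (by rw [abs_le]; constructor <;> norm_num [fun']) (by rw [abs_le]; constructor <;> norm_num [fvn']))

/-- parameters of the exit class -/
noncomputable def outp : OutPar := ⟨1 / 2 ^ 60, 1 / 2 ^ 54, arg (⟨cC, cS⟩ : ℂ), 1 / 2 ^ 30⟩

theorem outp_ok : outp.ok := by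
  unfold OutPar.ok outp
  norm_num

/-- the connection from the hub to the escape -/
theorem conn (hH : Hyp) : ∃ T : ℝ, 0 < T ∧ ∀ φ : ℝ → P2 → P2, IsFlow (f0 rho0) φ →
    ∀ (x : P2) (ψ : ℝ), OutC outp.r outp.ϵ ψ x → |ψ - outp.θ| ≤ outp.Δ →
      Silent φ (1/10^5) x T ∧ ‖(φ T x).1 - zc‖ ≤ 1/10^5 ∧ ‖(φ T x).2 - vc‖ ≤ 1/10^5 := by
  refine ⟨tot (h0 :: t0), tot_pos, ?_⟩
  intro φ hφ x ψ hx hψ
  obtain ⟨h1, h2, h3⟩ := main hH φ hφ x ψ hx hψ
  exact ⟨h1, h2.trans (by norm_num), h3.trans (by norm_num)⟩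

end Run7.h874.DE
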