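import Pool.Agent.Run7.h874.LE.Fd
import Pool.Agent.Run7.h874.G3

/-!
# Escape, part 1: tools and derivatives of the Kepler quantities
-/

set_option autoImplicit false

namespace Run7.h874.LE

open Complex Set

theorem boot {f : ℝ → ℝ} (hf : Continuous f) (h0 : f 0 < 0)
    (h : ∀ t, 0 ≤ t → (∀ s ∈ Icc 0 t, f s ≤ 0) → f t < 0) : ∀ t, 0 ≤ t → f t < 0 := by
  intro t ht
  by_contra hc
  push Not at hc
  have hS : (Icc 0 t ∩ f ⁻¹' {0}).Nonempty := by
    obtain ⟨s, hs, hs'⟩ := intermediate_value_Icc ht hf.continuousOn ⟨h0.le, hc⟩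
    exact ⟨s, hs, hs'⟩
  have hcomp : IsCompact (Icc 0 t ∩ f ⁻¹' {0}) :=
    isCompact_Icc.inter_right (isClosed_singleton.preimage hf)
  obtain ⟨m, hm, hmin⟩ := hcomp.exists_isLeast hS
  have hm0 : f m = 0 := hm.2
  have := h m hm.1.1 (by
    intro s hs
    by_contra hc'
    push Not at hc'
    obtain ⟨u, hu, hu'⟩ := intermediate_value_Icc hs.1 hf.continuousOn ⟨h0.le, hc'.le⟩
    have h1 := hmin ⟨⟨hu.1, (hu.2.trans hs.2).trans hm.1.2⟩, hu'⟩
    have h2 : u = m := le_antisymm (hu.2.trans hs.2) h1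
    have h3 : s = m := le_antisymm hs.2 (by rw [← h2]; exact hu.2)
    rw [h3, hm0] at hc'
    exact lt_irrefl _ hc')
  rw [hm0] at this
  exact lt_irrefl _ this

theorem mono_of_deriv {f f' : ℝ → ℝ} {T : ℝ} (hT : 0 ≤ T)
    (h : ∀ t ∈ Icc 0 T, HasDerivAt f (f' t) t)
    (h' : ∀ t ∈ Icc 0 T, 0 ≤ f' t) : f 0 ≤ f T := by
  have hm : MonotoneOn f (Icc 0 T) := by
    apply monotoneOn_of_deriv_nonneg (convex_Icc 0 T)
      (fun t ht => (h t ht).continuousAt.continuousWithinAt)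
      (fun t ht => (h t (interior_subset ht)).differentiableAt.differentiableWithinAt)
    intro t ht
    rw [(h t (interior_subset ht)).deriv]
    exact h' t (interior_subset ht)
  exact hm ⟨le_rfl, hT⟩ ⟨hT, le_rfl⟩ hT

theorem slow4 {f f' : ℝ → ℝ} {T C v s0 : ℝ} (hT : 0 ≤ T) (hC : 0 ≤ C) (hv : 0 < v) (hs : 0 < s0)
    (h : ∀ t ∈ Icc 0 T, HasDerivAt f (f' t) t)
    (h' : ∀ t ∈ Icc 0 T, |f' t| ≤ C / (s0 + v * t) ^ 4) : |f T - f 0| ≤ C / (3 * v * s0 ^ 3) := by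
  have hp : ∀ t ∈ Icc 0 T, 0 < s0 + v * t := fun t ht => by
    have := mul_nonneg hv.le ht.1; linarith
  have hB : ∀ t ∈ Icc 0 T, HasDerivAt (fun t => -(C / (3 * v)) * ((s0 + v * t) ^ 3)⁻¹)
      (C / (s0 + v * t) ^ 4) t := by
    intro t ht
    have h1 : HasDerivAt (fun t : ℝ => s0 + v * t) v t := by
      simpa using ((hasDerivAt_id t).const_mul v).const_add s0
    have h2 := ((h1.pow 3).inv (pow_ne_zero 3 (hp t ht).ne')).const_mul (-(C / (3 * v)))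
    refine h2.congr_deriv ?_
    have := (hp t ht).ne'
    simp only [Pi.pow_apply]
    field_simp
    norm_num
  have a0 : -(C / (3 * v)) * ((s0 + v * 0) ^ 3)⁻¹ = -(C / (3 * v * s0 ^ 3)) := by
    rw [mul_zero, add_zero]; field_simp
  have aT : -(C / (3 * v)) * ((s0 + v * T) ^ 3)⁻¹ ≤ 0 := by
    have h1 := hp T ⟨hT, le_rfl⟩
    have h2 : 0 ≤ (C / (3 * v)) * ((s0 + v * T) ^ 3)⁻¹ := by positivity
    linarith
  have m1 := mono_of_deriv hT (fun t ht => (hB t ht).sub (h t ht))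
    (fun t ht => by have := (abs_le.mp (h' t ht)).2; linarith)
  have m2 := mono_of_deriv hT (fun t ht => (hB t ht).add (h t ht))
    (fun t ht => by have := (abs_le.mp (h' t ht)).1; linarith)
  simp only [Pi.sub_apply, Pi.add_apply] at m1 m2
  rw [a0] at m1 m2
  rw [abs_le]
  constructor <;> linarith

theorem slow2 {f f' : ℝ → ℝ} {T C v s0 : ℝ} (hT : 0 ≤ T) (hC : 0 ≤ C) (hv : 0 < v) (hs : 0 < s0)
    (h : ∀ t ∈ Icc 0 T, HasDerivAt f (f' t) t)
    (h' : ∀ t ∈ Icc 0 T, |f' t| ≤ C / (s0 + v * t) ^ 2) : |f T - f 0| ≤ C / (v * s0) := by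
  have hp : ∀ t ∈ Icc 0 T, 0 < s0 + v * t := fun t ht => by
    have := mul_nonneg hv.le ht.1; linarith
  have hB : ∀ t ∈ Icc 0 T, HasDerivAt (fun t => -(C / v) * (s0 + v * t)⁻¹)
      (C / (s0 + v * t) ^ 2) t := by
    intro t ht
    have h1 : HasDerivAt (fun t : ℝ => s0 + v * t) v t := by
      simpa using ((hasDerivAt_id t).const_mul v).const_add s0
    have h2 := (h1.inv (hp t ht).ne').const_mul (-(C / v))
    refine h2.congr_deriv ?_
    have := (hp t ht).ne'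
    field_simp
  have a0 : -(C / v) * (s0 + v * 0)⁻¹ = -(C / (v * s0)) := by
    rw [mul_zero, add_zero]; field_simp
  have aT : -(C / v) * (s0 + v * T)⁻¹ ≤ 0 := by
    have h1 := hp T ⟨hT, le_rfl⟩
    have h2 : 0 ≤ (C / v) * (s0 + v * T)⁻¹ := by positivity
    linarith
  have m1 := mono_of_deriv hT (fun t ht => (hB t ht).sub (h t ht))
    (fun t ht => by have := (abs_le.mp (h' t ht)).2; linarith)
  have m2 := mono_of_deriv hT (fun t ht => (hB t ht).add (h t ht))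
    (fun t ht => by have := (abs_le.mp (h' t ht)).1; linarith)
  simp only [Pi.sub_apply, Pi.add_apply] at m1 m2
  rw [a0] at m1 m2
  rw [abs_le]
  constructor <;> linarith

/-- inertial velocity of `R` -/
noncomputable def Ar (y : P4) : ℂ := y.1.2 + I * y.1.1
/-- position of body 2 relative to the centre of mass of bodies 0, 1 -/
noncomputable def Zb (δ : ℝ) (y : P4) : ℂ := y.2.1 + (δ:ℂ) * y.1.1
/-- its inertial velocity -/
noncomputable def Bb (δ : ℝ) (y : P4) : ℂ := y.2.2 + (δ:ℂ) * y.1.2 + I * Zb δ y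
/-- energy of the binary -/
noncomputable def hR (y : P4) : ℝ := ‖Ar y‖ ^ 2 / 2 - 1 / ‖y.1.1‖
/-- angular momentum of the binary -/
noncomputable def cR (y : P4) : ℝ := y.1.1.re * (Ar y).im - y.1.1.im * (Ar y).re
/-- Kepler energy of body 2 -/
noncomputable def EZ (ε δ : ℝ) (y : P4) : ℝ := ‖Bb δ y‖ ^ 2 / 2 - (1 + ε) * (1 / ‖Zb δ y‖)
noncomputable def JZ (δ : ℝ) (y : P4) : ℝ :=
  (Zb δ y).re * (Bb δ y).re + (Zb δ y).im * (Bb δ y).im

/-- the cut-off is not active at `y` -/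
def NC (y : P4) : Prop := rho0 ≤ ‖y.1.1‖ ∧ rho0 ≤ ‖y.2.1 + y.1.1/2‖ ∧ rho0 ≤ ‖y.2.1 - y.1.1/2‖

/-- force of body 2 on the binary -/
noncomputable def Ff (y : P4) : ℂ := gc 0 (y.2.1 - y.1.1/2) - gc 0 (y.2.1 + y.1.1/2)
/-- force of the binary on body 2 -/
noncomputable def Gf (δ : ℝ) (y : P4) : ℂ :=
  (1/2 + (δ:ℂ)) * gc 0 (y.2.1 + y.1.1/2) + (1/2 - (δ:ℂ)) * gc 0 (y.2.1 - y.1.1/2)

theorem fd_nc (ε δ : ℝ) {y : P4} (h : NC y) : fd rho0 ε δ y = fd 0 ε δ y := by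
  obtain ⟨h1, h2, h3⟩ := h
  have r := rho0_pos.le
  unfold fd fe hx
  rw [gc_eq r h1, gc_eq r h2, gc_eq r h3]

section

variable {ε δ : ℝ} {X : ℝ → P4} {t : ℝ}

theorem d11 {D : P4} (h : HasDerivAt X D t) : HasDerivAt (fun s => (X s).1.1) D.1.1 t := h.fst.fst
theorem d12 {D : P4} (h : HasDerivAt X D t) : HasDerivAt (fun s => (X s).1.2) D.1.2 t := h.fst.snd
theorem d21 {D : P4} (h : HasDerivAt X D t) : HasDerivAt (fun s => (X s).2.1) D.2.1 t := h.snd.fst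
theorem d22 {D : P4} (h : HasDerivAt X D t) : HasDerivAt (fun s => (X s).2.2) D.2.2 t := h.snd.snd

theorem Ar_deriv (h : HasDerivAt X (fd 0 ε δ (X t)) t) :
    HasDerivAt (fun s => Ar (X s)) (-I * Ar (X t) - gc 0 (X t).1.1 + (ε:ℂ) * Ff (X t)) t := by
  have h1 : HasDerivAt (fun s => (X s).1.2 + I * (X s).1.1) _ t := (d12 h).add ((d11 h).const_mul I)
  refine h1.congr_deriv ?_
  unfold Ar Ff fd fe
  simp only [Prod.fst_add, Prod.snd_add]
  ring_nf
  rw [I_sq]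
  ring

theorem Zb_deriv (h : HasDerivAt X (fd 0 ε δ (X t)) t) :
    HasDerivAt (fun s => Zb δ (X s)) (Bb δ (X t) - I * Zb δ (X t)) t := by
  have h1 : HasDerivAt (fun s => (X s).2.1 + (δ:ℂ) * (X s).1.1) _ t :=
    (d21 h).add ((d11 h).const_mul (δ:ℂ))
  refine h1.congr_deriv ?_
  unfold Bb fd fe
  simp only [Prod.fst_add, Prod.snd_add]
  ring

theorem Bb_deriv (h : HasDerivAt X (fd 0 ε δ (X t)) t) :
    HasDerivAt (fun s => Bb δ (X s)) (-I * Bb δ (X t) - (1 + (ε:ℂ)) * Gf δ (X t)) t := by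
  have h1 : HasDerivAt (fun s => (X s).2.2 + (δ:ℂ) * (X s).1.2 + I * Zb δ (X s)) _ t :=
    ((d22 h).add ((d12 h).const_mul (δ:ℂ))).add ((Zb_deriv h).const_mul I)
  refine h1.congr_deriv ?_
  unfold Bb Gf Zb fd fe hx
  simp only [Prod.fst_add, Prod.snd_add]
  ring_nf
  simp only [I_sq]
  ring

theorem re_smul_im (a : ℝ) (z : ℂ) : (a • z).re = a * z.re ∧ (a • z).im = a * z.im := by
  constructor <;> simp

theorem hR_deriv (h : HasDerivAt X (fd 0 ε δ (X t)) t) (n1 : (X t).1.1 ≠ 0) :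
    HasDerivAt (fun s => hR (X s)) (ε * ((Ar (X t)) * (starRingEnd ℂ) (Ff (X t))).re) t := by
  have h1 := (norm_sq_deriv (Ar_deriv h)).div_const 2
  have h2 := inv_norm_deriv (d11 h) n1
  refine (h1.sub h2).congr_deriv ?_
  have e : ((fd 0 ε δ (X t)).1).1 = Ar (X t) - I * (X t).1.1 := by
    unfold Ar fd fe; simp
  rw [e, gc0]
  generalize (‖(X t).1.1‖ ^ 3)⁻¹ = r
  generalize Ar (X t) = A
  generalize Ff (X t) = F
  generalize (X t).1.1 = R
  simp
  ring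

theorem cR_deriv (h : HasDerivAt X (fd 0 ε δ (X t)) t) :
    HasDerivAt (fun s => cR (X s))
      (ε * ((X t).1.1.re * (Ff (X t)).im - (X t).1.1.im * (Ff (X t)).re)) t := by
  have h1 := Ar_deriv h
  have h2 : HasDerivAt (fun s => (X s).1.1) (((fd 0 ε δ (X t)).1).1) t := d11 h
  refine (((reR_deriv h2).mul (imR_deriv h1)).sub ((imR_deriv h2).mul (reR_deriv h1))).congr_deriv ?_
  have e : ((fd 0 ε δ (X t)).1).1 = Ar (X t) - I * (X t).1.1 := by
    unfold Ar fd fe; simp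
  rw [e, gc0]
  generalize (‖(X t).1.1‖ ^ 3)⁻¹ = r
  generalize Ar (X t) = A
  generalize Ff (X t) = F
  generalize (X t).1.1 = R
  simp
  ring

theorem EZ_deriv (h : HasDerivAt X (fd 0 ε δ (X t)) t) (n1 : Zb δ (X t) ≠ 0) :
    HasDerivAt (fun s => EZ ε δ (X s))
      (-(1 + ε) * ((Bb δ (X t)) * (starRingEnd ℂ) (Gf δ (X t) - gc 0 (Zb δ (X t)))).re) t := by
  have h1 := (norm_sq_deriv (Bb_deriv h)).div_const 2
  have h2 := (inv_norm_deriv (Zb_deriv h) n1).const_mul (1 + ε)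
  refine (h1.sub h2).congr_deriv ?_
  rw [gc0]
  generalize (‖Zb δ (X t)‖ ^ 3)⁻¹ = r
  generalize Bb δ (X t) = A
  generalize Gf δ (X t) = F
  generalize Zb δ (X t) = R
  simp
  ring

theorem JZ_deriv (h : HasDerivAt X (fd 0 ε δ (X t)) t) :
    HasDerivAt (fun s => JZ δ (X s))
      (‖Bb δ (X t)‖ ^ 2 - (1 + ε) * ((Zb δ (X t)) * (starRingEnd ℂ) (Gf δ (X t))).re) t := by
  have h1 := Zb_deriv h
  have h2 := Bb_deriv h
  refine (((reR_deriv h1).mul (reR_deriv h2)).add ((imR_deriv h1).mul (imR_deriv h2))).congr_deriv ?_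
  rw [nsq]
  generalize Bb δ (X t) = A
  generalize Gf δ (X t) = F
  generalize Zb δ (X t) = R
  simp
  ring

theorem Zsq_deriv (h : HasDerivAt X (fd 0 ε δ (X t)) t) :
    HasDerivAt (fun s => ‖Zb δ (X s)‖ ^ 2 / 2) (JZ δ (X t)) t := by
  refine ((norm_sq_deriv (Zb_deriv h)).div_const 2).congr_deriv ?_
  unfold JZ
  generalize Bb δ (X t) = A
  generalize Zb δ (X t) = R
  simp
  ring

end

end Run7.h874.LE
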