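import Pool.Agent.Run7.h874.LE.Esc1

/-!
# Escape, part 2: a state moving away fast enough goes to infinity
-/

set_option autoImplicit false

namespace Run7.h874.LE

open Complex Set

theorem gc0_le {z : ℂ} {m : ℝ} (hm : 0 < m) (h : m ≤ ‖z‖) : ‖gc 0 z‖ ≤ 1 / m ^ 2 := by
  rw [← gc_eq hm.le h]
  exact gc_bdd hm z

structure Wk (δ : ℝ) (y : P4) : Prop where
  r1 : 0.8 ≤ ‖y.1.1‖
  r2 : ‖y.1.1‖ ≤ 1.2
  s1 : 3.2 ≤ ‖Zb δ y‖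
  d1 : |δ| ≤ 1/10^4

theorem Wk.seg {δ : ℝ} {y : P4} (h : Wk δ y) {t : ℝ} (ht : t ∈ Icc (0:ℝ) 1) :
    0.79 * ‖Zb δ y‖ ≤ ‖(y.2.1 + y.1.1/2) + (t:ℂ) * ((y.2.1 - y.1.1/2) - (y.2.1 + y.1.1/2))‖ := by
  obtain ⟨r1, r2, s1, d1⟩ := h
  have e : (y.2.1 + y.1.1/2) + (t:ℂ) * ((y.2.1 - y.1.1/2) - (y.2.1 + y.1.1/2))
      = Zb δ y - ((t + δ - 1/2 : ℝ) : ℂ) * y.1.1 := by
    unfold Zb; push_cast; ring
  rw [e]
  have h1 := norm_sub_norm_le (Zb δ y) (((t + δ - 1/2 : ℝ) : ℂ) * y.1.1)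
  rw [norm_mul, Complex.norm_real, Real.norm_eq_abs] at h1
  have h2 : |t + δ - 1/2| ≤ 0.5001 := by
    have := abs_le.mp d1
    rw [abs_le]
    norm_num at this ⊢
    constructor <;> linarith [ht.1, ht.2, this.1, this.2]
  have h3 := mul_le_mul h2 r2 (norm_nonneg _) (by norm_num)
  have h4 : (0.5001:ℝ) * 1.2 ≤ 0.21 * ‖Zb δ y‖ := by norm_num at s1 ⊢; linarith
  linarith

theorem Wk.ends {δ : ℝ} {y : P4} (h : Wk δ y) :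
    0.79 * ‖Zb δ y‖ ≤ ‖y.2.1 + y.1.1/2‖ ∧ 0.79 * ‖Zb δ y‖ ≤ ‖y.2.1 - y.1.1/2‖ := by
  have h0 := h.seg (t := 0) ⟨le_rfl, zero_le_one⟩
  have h1 := h.seg (t := 1) ⟨zero_le_one, le_rfl⟩
  constructor
  · simpa using h0
  · have e : (y.2.1 + y.1.1/2) + ((1:ℝ):ℂ) * ((y.2.1 - y.1.1/2) - (y.2.1 + y.1.1/2))
        = y.2.1 - y.1.1/2 := by push_cast; ring
    rw [e] at h1
    exact h1

theorem Wk.nc {δ : ℝ} {y : P4} (h : Wk δ y) : NC y := by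
  obtain ⟨e1, e2⟩ := h.ends
  obtain ⟨r1, r2, s1, d1⟩ := h
  have r0 : rho0 = 1/10000 := rfl
  norm_num at r1 s1 e1 e2
  refine ⟨?_, ?_, ?_⟩ <;> rw [r0] <;> norm_num <;> linarith

theorem Wk.F {δ : ℝ} {y : P4} (h : Wk δ y) : ‖Ff y‖ ≤ 3.3 / ‖Zb δ y‖ ^ 2 := by
  obtain ⟨e1, e2⟩ := h.ends
  obtain ⟨r1, r2, s1, d1⟩ := h
  have hs : 0 < ‖Zb δ y‖ := by norm_num at s1; linarith
  set s := ‖Zb δ y‖
  have hm : 0 < 0.79 * s := by positivity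
  unfold Ff
  refine (norm_sub_le _ _).trans ((add_le_add (gc0_le hm e2) (gc0_le hm e1)).trans ?_)
  rw [mul_pow]
  have e3 : 1 / (0.79 ^ 2 * s ^ 2) + 1 / (0.79 ^ 2 * s ^ 2) = (2 / 0.79 ^ 2) / s ^ 2 := by
    field_simp; norm_num
  rw [e3]
  apply div_le_div_of_nonneg_right _ (by positivity)
  norm_num

theorem Wk.G {δ : ℝ} {y : P4} (h : Wk δ y) :
    ‖Gf δ y - gc 0 (Zb δ y)‖ ≤ 3 / ‖Zb δ y‖ ^ 4 := by
  have hseg := fun t (ht : t ∈ Icc (0:ℝ) 1) => h.seg ht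
  obtain ⟨r1, r2, s1, d1⟩ := h
  have hs : 0 < ‖Zb δ y‖ := by norm_num at s1; linarith
  have hm : 0 < 0.79 * ‖Zb δ y‖ := by positivity
  have hd := abs_le.mp d1
  have hB := stmtB3 (y.2.1 + y.1.1/2) (y.2.1 - y.1.1/2) (0.79 * ‖Zb δ y‖) (1/2 - δ) hm
    (by norm_num at hd; constructor <;> linarith [hd.1, hd.2]) hseg
  have e1 : (y.2.1 + y.1.1/2) + ((1/2 - δ : ℝ) : ℂ) * ((y.2.1 - y.1.1/2) - (y.2.1 + y.1.1/2))
      = Zb δ y := by unfold Zb; push_cast; ring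
  have e2 : ((1 - (1/2 - δ) : ℝ) : ℂ) * gc 0 (y.2.1 + y.1.1/2)
      + ((1/2 - δ : ℝ) : ℂ) * gc 0 (y.2.1 - y.1.1/2) = Gf δ y := by
    unfold Gf; push_cast; ring
  rw [e1, e2] at hB
  refine hB.trans ?_
  have e3 : y.2.1 - y.1.1/2 - (y.2.1 + y.1.1/2) = -y.1.1 := by ring
  rw [e3, norm_neg]
  have h4 : ‖y.1.1‖ ^ 2 ≤ 1.2 ^ 2 := pow_le_pow_left₀ (norm_nonneg _) r2 2
  set s := ‖Zb δ y‖
  have h5 : 3 / 4 / (0.79 * s) ^ 4 * ‖y.1.1‖ ^ 2 ≤ 3 / 4 / (0.79 * s) ^ 4 * 1.2 ^ 2 :=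
    mul_le_mul_of_nonneg_left h4 (by positivity)
  refine h5.trans ?_
  have e4 : 3 / 4 / (0.79 * s) ^ 4 * 1.2 ^ 2 = (3 / 4 * 1.2 ^ 2 / 0.79 ^ 4) / s ^ 4 := by
    rw [mul_pow]; field_simp
  rw [e4]
  apply div_le_div_of_nonneg_right _ (by positivity)
  norm_num

theorem sq_bd {a b : ℝ} (ha : 0 ≤ a) (h : b ^ 2 ≤ a ^ 2) : b ≤ a := abs_le_of_sq_le_sq' h ha |>.2

/-- radius of the binary from energy and angular momentum -/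
theorem rad_bd {y : P4} (h0 : 0 < ‖y.1.1‖) (h1 : hR y ≤ -0.495) (h2 : 0.99 ≤ cR y) :
    0.8 < ‖y.1.1‖ ∧ ‖y.1.1‖ < 1.2 := by
  have hc : cR y ^ 2 ≤ ‖y.1.1‖ ^ 2 * ‖Ar y‖ ^ 2 := by
    rw [nsq, nsq]
    unfold cR
    nlinarith [sq_nonneg (y.1.1.re * (Ar y).re + y.1.1.im * (Ar y).im)]
  unfold hR at h1
  set ρ := ‖y.1.1‖
  set A := ‖Ar y‖ ^ 2
  have h3 : A ≤ -0.99 + 2 * (1 / ρ) := by linarith
  have h4 : ρ ^ 2 * A ≤ ρ ^ 2 * (-0.99 + 2 * (1 / ρ)) := mul_le_mul_of_nonneg_left h3 (by positivity)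
  have e : ρ ^ 2 * (-0.99 + 2 * (1 / ρ)) = -0.99 * ρ ^ 2 + 2 * ρ := by field_simp
  rw [e] at h4
  have h5 : 0.99 ^ 2 ≤ cR y ^ 2 := pow_le_pow_left₀ (by norm_num) h2 2
  norm_num at h4 h5 ⊢
  constructor
  · by_contra hcon
    push Not at hcon
    nlinarith
  · by_contra hcon
    push Not at hcon
    nlinarith

theorem Wk.Abd {δ : ℝ} {y : P4} (h : Wk δ y) (h1 : hR y ≤ 0) : ‖Ar y‖ ≤ 2 := by
  obtain ⟨r1, r2, s1, d1⟩ := h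
  apply sq_bd (by norm_num)
  unfold hR at h1
  have h2 : 1 / ‖y.1.1‖ ≤ 1 / 0.8 := one_div_le_one_div_of_le (by norm_num) r1
  norm_num at h1 h2 ⊢
  linarith

/-- derivative bounds -/
theorem Wk.dh {ε δ : ℝ} {y : P4} (h : Wk δ y) (h0 : 0 ≤ ε) (h1 : ‖Ar y‖ ≤ 2) :
    |ε * ((Ar y) * (starRingEnd ℂ) (Ff y)).re| ≤ 7 * ε / ‖Zb δ y‖ ^ 2 := by
  have hF := h.F
  rw [abs_mul, abs_of_nonneg h0]
  have h2 : |((Ar y) * (starRingEnd ℂ) (Ff y)).re| ≤ 2 * (3.3 / ‖Zb δ y‖ ^ 2) := by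
    refine (Complex.abs_re_le_norm _).trans ?_
    rw [norm_mul, RCLike.norm_conj]
    exact mul_le_mul h1 hF (norm_nonneg _) (by norm_num)
  have h3 := mul_le_mul_of_nonneg_left h2 h0
  refine h3.trans ?_
  have e : ε * (2 * (3.3 / ‖Zb δ y‖ ^ 2)) = 6.6 * ε / ‖Zb δ y‖ ^ 2 := by ring
  rw [e]
  apply div_le_div_of_nonneg_right _ (by positivity)
  linarith

theorem Wk.dc {ε δ : ℝ} {y : P4} (h : Wk δ y) (h0 : 0 ≤ ε) :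
    |ε * (y.1.1.re * (Ff y).im - y.1.1.im * (Ff y).re)| ≤ 7 * ε / ‖Zb δ y‖ ^ 2 := by
  have hF := h.F
  obtain ⟨r1, r2, s1, d1⟩ := h
  rw [abs_mul, abs_of_nonneg h0]
  have h2 : |y.1.1.re * (Ff y).im - y.1.1.im * (Ff y).re| ≤ 1.2 * (3.3 / ‖Zb δ y‖ ^ 2) := by
    have e : y.1.1.re * (Ff y).im - y.1.1.im * (Ff y).re = ((starRingEnd ℂ) y.1.1 * Ff y).im := by
      simp; ring
    rw [e]
    refine (Complex.abs_im_le_norm _).trans ?_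
    rw [norm_mul, RCLike.norm_conj]
    exact mul_le_mul r2 hF (norm_nonneg _) (by norm_num)
  have h3 := mul_le_mul_of_nonneg_left h2 h0
  refine h3.trans ?_
  have e : ε * (1.2 * (3.3 / ‖Zb δ y‖ ^ 2)) = 3.96 * ε / ‖Zb δ y‖ ^ 2 := by ring
  rw [e]
  apply div_le_div_of_nonneg_right _ (by positivity)
  linarith

theorem Wk.Bbd {ε δ : ℝ} {y : P4} (h : Wk δ y) (h0 : 0 ≤ ε) (h0' : ε ≤ 1/10^4)
    (h1 : EZ ε δ y ≤ 0.4) : ‖Bb δ y‖ ≤ 1.2 := by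
  obtain ⟨r1, r2, s1, d1⟩ := h
  apply sq_bd (by norm_num)
  unfold EZ at h1
  have h2 : 1 / ‖Zb δ y‖ ≤ 1 / 3.2 := one_div_le_one_div_of_le (by norm_num) s1
  have h3 : (1 + ε) * (1 / ‖Zb δ y‖) ≤ (1 + 1/10^4) * (1 / 3.2) :=
    mul_le_mul (by linarith) h2 (by positivity) (by norm_num)
  norm_num at h3 h1 ⊢
  linarith

theorem Wk.dE {ε δ : ℝ} {y : P4} (h : Wk δ y) (h0 : 0 ≤ ε) (h0' : ε ≤ 1/10^4)
    (h1 : EZ ε δ y ≤ 0.4) :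
    |-(1 + ε) * ((Bb δ y) * (starRingEnd ℂ) (Gf δ y - gc 0 (Zb δ y))).re|
      ≤ 3.7 / ‖Zb δ y‖ ^ 4 := by
  have hB := h.Bbd h0 h0' h1
  have hG := h.G
  rw [abs_mul, abs_neg, abs_of_nonneg (show 0 ≤ 1 + ε by linarith)]
  have h2 : |((Bb δ y) * (starRingEnd ℂ) (Gf δ y - gc 0 (Zb δ y))).re|
      ≤ 1.2 * (3 / ‖Zb δ y‖ ^ 4) := by
    refine (Complex.abs_re_le_norm _).trans ?_
    rw [norm_mul, RCLike.norm_conj]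
    exact mul_le_mul hB hG (norm_nonneg _) (by norm_num)
  have h3 := mul_le_mul (show 1 + ε ≤ 1.01 by norm_num at h0' ⊢; linarith) h2 (abs_nonneg _)
    (by norm_num)
  refine h3.trans ?_
  have e : 1.01 * (1.2 * (3 / ‖Zb δ y‖ ^ 4)) = 3.636 / ‖Zb δ y‖ ^ 4 := by ring
  rw [e]
  apply div_le_div_of_nonneg_right _ (by positivity)
  norm_num

theorem Wk.dJ {ε δ : ℝ} {y : P4} (h : Wk δ y) (h0 : 0 ≤ ε) (h0' : ε ≤ 1/10^4)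
    (h1 : 0.1 ≤ EZ ε δ y) :
    0.2 ≤ ‖Bb δ y‖ ^ 2 - (1 + ε) * ((Zb δ y) * (starRingEnd ℂ) (Gf δ y)).re := by
  have hG := h.G
  obtain ⟨r1, r2, s1, d1⟩ := h
  have hs : 0 < ‖Zb δ y‖ := by norm_num at s1; linarith
  have e1 : ((Zb δ y) * (starRingEnd ℂ) (gc 0 (Zb δ y))).re = 1 / ‖Zb δ y‖ := by
    rw [gc0]
    have e2 : (Zb δ y) * (starRingEnd ℂ) (((‖Zb δ y‖ ^ 3)⁻¹ : ℝ) • (Zb δ y))
        = (((‖Zb δ y‖ ^ 3)⁻¹ * ‖Zb δ y‖ ^ 2 : ℝ) : ℂ) := by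
      rw [real_smul, map_mul, Complex.conj_ofReal]
      have := normSq_eq (Zb δ y)
      push_cast at this ⊢
      rw [← this]; ring
    rw [e2, Complex.ofReal_re]
    field_simp
  have e3 : ((Zb δ y) * (starRingEnd ℂ) (Gf δ y)).re = 1 / ‖Zb δ y‖
      + ((Zb δ y) * (starRingEnd ℂ) (Gf δ y - gc 0 (Zb δ y))).re := by
    rw [← e1, ← add_re]
    congr 1
    rw [map_sub]; ring
  have h2 : ((Zb δ y) * (starRingEnd ℂ) (Gf δ y - gc 0 (Zb δ y))).re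
      ≤ ‖Zb δ y‖ * (3 / ‖Zb δ y‖ ^ 4) := by
    refine (Complex.re_le_norm _).trans ?_
    rw [norm_mul, RCLike.norm_conj]
    exact mul_le_mul_of_nonneg_left hG (norm_nonneg _)
  rw [e3]
  unfold EZ at h1
  set s := ‖Zb δ y‖
  have h3 : s * (3 / s ^ 4) ≤ 1 / s := by
    have e : s * (3 / s ^ 4) = (3 / s ^ 2) * (1 / s) := by field_simp
    rw [e]
    have h4 : 3 / s ^ 2 ≤ 1 := by
      rw [div_le_one (by positivity)]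
      norm_num at s1
      nlinarith
    have h5 : 0 < 1 / s := by positivity
    nlinarith
  have h6 := mul_le_mul_of_nonneg_left (h2.trans h3) (show 0 ≤ 1 + ε by linarith)
  norm_num at h1 ⊢
  norm_num at h6
  linarith

end Run7.h874.LE
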