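import Pool.Agent.Run7.h874.LE.Esc2

/-!
# Escape, part 3: bootstrap
-/

set_option autoImplicit false

namespace Run7.h874.LE

open Complex Set

/-- centre of the class of escaping states -/
noncomputable def zE : ℂ := ⟨-124938/10^6, 3259959/10^6⟩
noncomputable def vE : ℂ := ⟨2725049/10^6, 1035887/10^6⟩

/-- class of escaping states -/
structure Es (y : P4) : Prop where
  a : ‖y.1.1 - 1‖ ≤ 1/10^4
  b : ‖y.1.2‖ ≤ 1/10^4
  c : ‖y.2.1 - zE‖ ≤ 1/10^4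
  d : ‖y.2.2 - vE‖ ≤ 1/10^4

theorem ri {z : ℂ} {m : ℝ} (h : ‖z‖ ≤ m) : (-m ≤ z.re ∧ z.re ≤ m) ∧ (-m ≤ z.im ∧ z.im ≤ m) :=
  ⟨abs_le.mp ((Complex.abs_re_le_norm z).trans h), abs_le.mp ((Complex.abs_im_le_norm z).trans h)⟩

theorem Es.coord {δ : ℝ} {y : P4} (h : Es y) (hδ : |δ| ≤ 1/10^4) :
    (-12515/10^5 ≤ (Zb δ y).re ∧ (Zb δ y).re ≤ -12472/10^5) ∧
    (325974/10^5 ≤ (Zb δ y).im ∧ (Zb δ y).im ≤ 326018/10^5) ∧
    (-53525/10^5 ≤ (Bb δ y).re ∧ (Bb δ y).re ≤ -53457/10^5) ∧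
    (91061/10^5 ≤ (Bb δ y).im ∧ (Bb δ y).im ≤ 91129/10^5) := by
  obtain ⟨ha, hb, hc, hd⟩ := h
  obtain ⟨c1, c2⟩ := ri hc
  obtain ⟨d1, d2⟩ := ri hd
  have hR : ‖(δ:ℂ) * y.1.1‖ ≤ 11/10^5 := by
    rw [norm_mul, Complex.norm_real, Real.norm_eq_abs]
    have h1 : ‖y.1.1‖ ≤ 1.1 := by
      have e : y.1.1 = (y.1.1 - 1) + 1 := by ring
      rw [e]
      refine (norm_add_le _ _).trans ?_
      rw [norm_one]
      norm_num at ha ⊢
      linarith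
    have := mul_le_mul hδ h1 (norm_nonneg _) (by norm_num)
    refine this.trans (by norm_num)
  have hW : ‖(δ:ℂ) * y.1.2‖ ≤ 1/10^5 := by
    rw [norm_mul, Complex.norm_real, Real.norm_eq_abs]
    have := mul_le_mul hδ hb (norm_nonneg _) (by norm_num)
    refine this.trans (by norm_num)
  obtain ⟨r1, r2⟩ := ri hR
  obtain ⟨w1, w2⟩ := ri hW
  have e1 : (Zb δ y).re = (y.2.1 - zE).re + ((δ:ℂ) * y.1.1).re + (-124938/10^6) := by
    unfold Zb zE; simp only [add_re, sub_re]; ring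
  have e2 : (Zb δ y).im = (y.2.1 - zE).im + ((δ:ℂ) * y.1.1).im + 3259959/10^6 := by
    unfold Zb zE; simp only [add_im, sub_im]; ring
  have e3 : (Bb δ y).re = (y.2.2 - vE).re + ((δ:ℂ) * y.1.2).re + 2725049/10^6 - (Zb δ y).im := by
    unfold Bb vE; simp only [add_re, sub_re, I_mul_re]; ring
  have e4 : (Bb δ y).im = (y.2.2 - vE).im + ((δ:ℂ) * y.1.2).im + 1035887/10^6 + (Zb δ y).re := by
    unfold Bb vE; simp only [add_im, sub_im, I_mul_im]; ring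
  norm_num at c1 c2 d1 d2 r1 r2 w1 w2
  refine ⟨⟨?_, ?_⟩, ⟨?_, ?_⟩, ⟨?_, ?_⟩, ⟨?_, ?_⟩⟩
  · rw [e1]; norm_num; linarith [c1.1, r1.1]
  · rw [e1]; norm_num; linarith [c1.2, r1.2]
  · rw [e2]; norm_num; linarith [c2.1, r2.1]
  · rw [e2]; norm_num; linarith [c2.2, r2.2]
  · rw [e3, e2]; norm_num; linarith [d1.1, w1.1, c2.2, r2.2]
  · rw [e3, e2]; norm_num; linarith [d1.2, w1.2, c2.1, r2.1]
  · rw [e4, e1]; norm_num; linarith [d2.1, w2.1, c1.1, r1.1]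
  · rw [e4, e1]; norm_num; linarith [d2.2, w2.2, c1.2, r1.2]

theorem Es.init {ε δ : ℝ} {y : P4} (h : Es y) (h0 : 0 ≤ ε) (h0' : ε ≤ 1/10^4)
    (hδ : |δ| ≤ 1/10^4) :
    (3.26 ≤ ‖Zb δ y‖ ∧ 10.6 ≤ ‖Zb δ y‖ ^ 2) ∧ (0.25 ≤ EZ ε δ y ∧ EZ ε δ y ≤ 0.253) ∧
    2.96 ≤ JZ δ y ∧ hR y ≤ -0.499 ∧ 0.999 ≤ cR y ∧ (0.99 ≤ ‖y.1.1‖ ∧ ‖y.1.1‖ ≤ 1.01) := by
  obtain ⟨⟨x1, x2⟩, ⟨y1, y2⟩, ⟨u1, u2⟩, ⟨v1, v2⟩⟩ := h.coord hδ
  obtain ⟨ha, hb, -, -⟩ := h
  have hs2 := nsq (Zb δ y)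
  have hB2 := nsq (Bb δ y)
  have hsn := norm_nonneg (Zb δ y)
  set X := (Zb δ y).re
  set Y := (Zb δ y).im
  set u := (Bb δ y).re
  set v := (Bb δ y).im
  norm_num at x1 x2 y1 y2 u1 u2 v1 v2
  have s2lo : 10.64 ≤ ‖Zb δ y‖ ^ 2 := by rw [hs2]; norm_num; nlinarith
  have s2hi : ‖Zb δ y‖ ^ 2 ≤ 10.65 := by rw [hs2]; norm_num; nlinarith
  have slo : 3.26 ≤ ‖Zb δ y‖ := by
    apply sq_bd hsn
    norm_num at s2lo ⊢
    linarith
  have shi : ‖Zb δ y‖ ≤ 3.264 := by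
    apply sq_bd (by norm_num)
    norm_num at s2hi ⊢
    linarith
  have B2lo : 1.1148 ≤ ‖Bb δ y‖ ^ 2 := by rw [hB2]; norm_num; nlinarith
  have B2hi : ‖Bb δ y‖ ^ 2 ≤ 1.1172 := by rw [hB2]; norm_num; nlinarith
  have i1 : 1 / ‖Zb δ y‖ ≤ 1 / 3.26 := one_div_le_one_div_of_le (by norm_num) slo
  have i2 : 1 / 3.264 ≤ 1 / ‖Zb δ y‖ := one_div_le_one_div_of_le (lt_of_lt_of_le (by norm_num) slo) shi
  have i0 : 0 ≤ 1 / ‖Zb δ y‖ := by positivity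
  have i3 : (1 + ε) * (1 / ‖Zb δ y‖) ≤ (1 + 1/10^4) * (1 / 3.26) :=
    mul_le_mul (by linarith) i1 i0 (by norm_num)
  have i4 : 1 / 3.264 ≤ (1 + ε) * (1 / ‖Zb δ y‖) := by nlinarith
  obtain ⟨⟨a1, a2⟩, ⟨a3, a4⟩⟩ := ri ha
  obtain ⟨⟨b1, b2⟩, ⟨b3, b4⟩⟩ := ri hb
  have er : (y.1.1 - 1).re = y.1.1.re - 1 := by simp
  have ei : (y.1.1 - 1).im = y.1.1.im := by simp
  rw [er] at a1 a2
  rw [ei] at a3 a4
  have A1 : (Ar y).re = y.1.2.re - y.1.1.im := by unfold Ar; simp; ring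
  have A2 : (Ar y).im = y.1.2.im + y.1.1.re := by unfold Ar; simp
  have hR1 : 0.99 ≤ ‖y.1.1‖ ∧ ‖y.1.1‖ ≤ 1.0001 := by
    have e : y.1.1 = 1 + (y.1.1 - 1) := by ring
    constructor
    · have := norm_sub_norm_le (1:ℂ) (-(y.1.1 - 1))
      rw [norm_neg, norm_one] at this
      have e2 : (1:ℂ) - -(y.1.1 - 1) = y.1.1 := by ring
      rw [e2] at this
      norm_num at ha ⊢
      linarith
    · rw [e]
      refine (norm_add_le _ _).trans ?_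
      rw [norm_one]
      norm_num at ha ⊢
      linarith
  refine ⟨⟨slo, ?_⟩, ⟨?_, ?_⟩, ?_, ?_, ?_, hR1.1, ?_⟩
  · norm_num at s2lo ⊢; linarith
  · unfold EZ; norm_num at i3 B2lo ⊢; linarith
  · unfold EZ; norm_num at i4 B2hi ⊢; linarith
  · show 2.96 ≤ X * u + Y * v
    norm_num
    nlinarith
  · unfold hR
    have h1 := nsq (Ar y)
    rw [A1, A2] at h1
    have i5 : 1 / 1.0001 ≤ 1 / ‖y.1.1‖ :=
      one_div_le_one_div_of_le (lt_of_lt_of_le (by norm_num) hR1.1) hR1.2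
    rw [h1]
    norm_num at a1 a2 a3 a4 b1 b2 b3 b4 i5 ⊢
    nlinarith
  · unfold cR
    rw [A1, A2]
    norm_num at a1 a2 a3 a4 b1 b2 b3 b4 ⊢
    nlinarith
  · norm_num at hR1 ⊢; linarith [hR1.2]

theorem A_lt {y : P4} (h1 : hR y ≤ -0.495) (h2 : 0.8 ≤ ‖y.1.1‖) : ‖Ar y‖ < 2 := by
  unfold hR at h1
  have h3 : 1 / ‖y.1.1‖ ≤ 1 / 0.8 := one_div_le_one_div_of_le (by norm_num) h2
  norm_num at h1 h3
  by_contra hcon
  push Not at hcon
  nlinarith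

theorem Ar_cont : Continuous Ar := by
  unfold Ar
  fun_prop

theorem Zb_cont (δ : ℝ) : Continuous (Zb δ) := by
  unfold Zb
  fun_prop

theorem Bb_cont (δ : ℝ) : Continuous (Bb δ) := by
  unfold Bb
  have := Zb_cont δ
  fun_prop

/-- weak conditions as one function -/
noncomputable def wf (ε δ : ℝ) (t : ℝ) (y : P4) : ℝ :=
  max (‖y.1.1‖ - 1.2) (max (0.8 - ‖y.1.1‖)
    (max (0.1 * ‖Zb δ y‖ - (‖Zb δ y‖ * (‖Bb δ y‖ ^ 2 / 2) - (1 + ε)))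
      (max (‖Zb δ y‖ * (‖Bb δ y‖ ^ 2 / 2) - (1 + ε) - 0.4 * ‖Zb δ y‖)
        (max (3.2 + 0.44 * t - ‖Zb δ y‖) (‖Ar y‖ - 2)))))

theorem EZ_mul {ε δ : ℝ} {y : P4} (h : 0 < ‖Zb δ y‖) :
    ‖Zb δ y‖ * (‖Bb δ y‖ ^ 2 / 2) - (1 + ε) = ‖Zb δ y‖ * EZ ε δ y := by
  unfold EZ; field_simp

theorem wf_le {ε δ t : ℝ} {y : P4} (ht : 0 ≤ t) (hδ : |δ| ≤ 1/10^4) (h : wf ε δ t y ≤ 0) :
    Wk δ y ∧ 0.1 ≤ EZ ε δ y ∧ EZ ε δ y ≤ 0.4 ∧ 3.2 + 0.44 * t ≤ ‖Zb δ y‖ ∧ ‖Ar y‖ ≤ 2 := by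
  unfold wf at h
  rw [max_le_iff, max_le_iff, max_le_iff, max_le_iff, max_le_iff] at h
  obtain ⟨h1, h2, h3, h4, h5, h7⟩ := h
  have hs : 3.2 ≤ ‖Zb δ y‖ := by linarith
  have hs0 : 0 < ‖Zb δ y‖ := by norm_num at hs; linarith
  rw [EZ_mul hs0] at h3 h4
  refine ⟨⟨by linarith, by linarith, hs, hδ⟩, ?_, ?_, by linarith, by linarith⟩
  · have h6 : ‖Zb δ y‖ * 0.1 ≤ ‖Zb δ y‖ * EZ ε δ y := by linarith
    exact le_of_mul_le_mul_left h6 hs0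
  · have h6 : ‖Zb δ y‖ * EZ ε δ y ≤ ‖Zb δ y‖ * 0.4 := by linarith
    exact le_of_mul_le_mul_left h6 hs0

theorem wf_lt {ε δ t : ℝ} {y : P4} (h1 : ‖y.1.1‖ < 1.2) (h2 : 0.8 < ‖y.1.1‖)
    (h3 : 0.1 < EZ ε δ y) (h4 : EZ ε δ y < 0.4) (h5 : 3.2 + 0.44 * t < ‖Zb δ y‖)
    (h6 : 0 < ‖Zb δ y‖) (h7 : ‖Ar y‖ < 2) : wf ε δ t y < 0 := by
  unfold wf
  rw [EZ_mul h6]
  refine max_lt (by linarith) (max_lt (by linarith) (max_lt ?_ (max_lt ?_
    (max_lt (by linarith) (by linarith)))))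
  · have := mul_lt_mul_of_pos_left h3 h6; linarith
  · have := mul_lt_mul_of_pos_left h4 h6; linarith

theorem escape {ε δ : ℝ} (h0 : 0 ≤ ε) (h0' : ε ≤ 1/10^4) (hδ : |δ| ≤ 1/10^4) {Φ : ℝ → P4 → P4}
    (hΦ : IsFlow (fd rho0 ε δ) Φ) {x : P4} (hx : Es x) :
    ∀ t, 0 ≤ t → Wk δ (Φ t x) ∧ 3.2 + 0.44 * t ≤ ‖Zb δ (Φ t x)‖ := by
  obtain ⟨⟨I1, I1'⟩, ⟨I2, I3⟩, I4, I5, I6, I7, I8⟩ := hx.init h0 h0' hδ
  have hcx : Continuous fun t => Φ t x := hΦ.cont.comp (continuous_id.prodMk continuous_const)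
  have hcont : Continuous fun t => wf ε δ t (Φ t x) := by
    unfold wf
    have c1 : Continuous fun t => Zb δ (Φ t x) := (Zb_cont δ).comp hcx
    have c2 : Continuous fun t => Bb δ (Φ t x) := (Bb_cont δ).comp hcx
    have c3 : Continuous fun t => (Φ t x).1.1 := continuous_fst.comp (continuous_fst.comp hcx)
    have c4 : Continuous fun t => Ar (Φ t x) := Ar_cont.comp hcx
    fun_prop
  have key := boot hcont (by
    rw [hΦ.zero]
    norm_num at I1 I2 I3 I7 I8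
    apply wf_lt
    · norm_num; linarith
    · norm_num; linarith
    · norm_num; linarith
    · norm_num; linarith
    · norm_num; linarith
    · linarith
    · exact A_lt (by norm_num at I5 ⊢; linarith) (by norm_num; linarith)) (by
    intro T hT hw
    have W := fun s (hs : s ∈ Icc 0 T) => wf_le hs.1 hδ (hw s hs)
    have hX : ∀ s ∈ Icc 0 T, HasDerivAt (fun s => Φ s x) (fd 0 ε δ (Φ s x)) s := by
      intro s hs
      have := hΦ.deriv s x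
      rw [fd_nc ε δ (W s hs).1.nc] at this
      exact this
    have hR0 : ∀ s ∈ Icc 0 T, (Φ s x).1.1 ≠ 0 := by
      intro s hs
      have := (W s hs).1.r1
      rw [← norm_pos_iff]
      norm_num at this
      linarith
    have hs0 : ∀ s ∈ Icc 0 T, 0 < ‖Zb δ (Φ s x)‖ := by
      intro s hs
      have := (W s hs).1.s1
      norm_num at this
      linarith
    have hsig : ∀ s ∈ Icc 0 T, 0 < 3.2 + 0.44 * s := by
      intro s hs
      have := hs.1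
      norm_num
      linarith
    have hTT : T ∈ Icc 0 T := ⟨hT, le_rfl⟩
    -- energy of body 2
    have E := slow4 (f := fun s => EZ ε δ (Φ s x)) (C := 3.7) (v := 0.44) (s0 := 3.2) hT
      (by norm_num) (by norm_num) (by norm_num)
      (fun s hs => EZ_deriv (hX s hs) (norm_pos_iff.mp (hs0 s hs)))
      (fun s hs => by
        obtain ⟨w, e1, e2, e3, -⟩ := W s hs
        refine (w.dE h0 h0' e2).trans ?_
        apply div_le_div_of_nonneg_left (by norm_num) (pow_pos (hsig s hs) 4)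
        exact pow_le_pow_left₀ (hsig s hs).le e3 4)
    simp only [hΦ.zero] at E
    have E1 := abs_le.mp E
    -- position of body 2
    have J1 : ∀ t ∈ Icc 0 T, 2.96 + 0.2 * t ≤ JZ δ (Φ t x) := by
      intro t ht
      have m := mono_of_deriv (f := fun s => JZ δ (Φ s x) - 0.2 * s) ht.1
        (fun s hs => (JZ_deriv (hX s ⟨hs.1, hs.2.trans ht.2⟩)).sub
          ((hasDerivAt_id s).const_mul (0.2:ℝ)))
        (fun s hs => by
          obtain ⟨w, e1, e2, e3, -⟩ := W s ⟨hs.1, hs.2.trans ht.2⟩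
          have := w.dJ (ε := ε) h0 h0' e1
          linarith)
      simp only [hΦ.zero] at m
      linarith
    have Q := mono_of_deriv (f := fun s => ‖Zb δ (Φ s x)‖ ^ 2 / 2 - (2.96 * s + 0.1 * (s * s))) hT
      (fun s hs => (Zsq_deriv (hX s hs)).sub (((hasDerivAt_id s).const_mul (2.96:ℝ)).add
        (((hasDerivAt_id s).mul (hasDerivAt_id s)).const_mul (0.1:ℝ))))
      (fun s hs => by
        have := J1 s hs
        simp only [id]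
        linarith)
    simp only [hΦ.zero] at Q
    have hpos : 3.2 + 0.44 * T < ‖Zb δ (Φ T x)‖ := by
      by_contra hcon
      push Not at hcon
      have h1 : ‖Zb δ (Φ T x)‖ ^ 2 ≤ (3.2 + 0.44 * T) ^ 2 :=
        pow_le_pow_left₀ (norm_nonneg _) hcon 2
      norm_num at h1 Q I1'
      nlinarith
    -- binary
    have D7 : ∀ s ∈ Icc 0 T, 7 * ε / ‖Zb δ (Φ s x)‖ ^ 2 ≤ 7 * ε / (3.2 + 0.44 * s) ^ 2 := by
      intro s hs
      obtain ⟨w, e1, e2, e3, -⟩ := W s hs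
      apply div_le_div_of_nonneg_left (by positivity) (pow_pos (hsig s hs) 2)
      exact pow_le_pow_left₀ (hsig s hs).le e3 2
    have H := slow2 (f := fun s => hR (Φ s x)) (C := 7 * ε) (v := 0.44) (s0 := 3.2) hT
      (by positivity) (by norm_num) (by norm_num)
      (fun s hs => hR_deriv (hX s hs) (hR0 s hs))
      (fun s hs => by
        obtain ⟨w, e1, e2, e3, e4⟩ := W s hs
        exact (w.dh h0 e4).trans (D7 s hs))
    have C := slow2 (f := fun s => cR (Φ s x)) (C := 7 * ε) (v := 0.44) (s0 := 3.2) hT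
      (by positivity) (by norm_num) (by norm_num)
      (fun s hs => cR_deriv (hX s hs))
      (fun s hs => by
        obtain ⟨w, e1, e2, e3, e4⟩ := W s hs
        exact (w.dc h0).trans (D7 s hs))
    simp only [hΦ.zero] at H C
    have H1 := abs_le.mp H
    have C1 := abs_le.mp C
    have b7 : 7 * ε / (0.44 * 3.2) ≤ 1/1000 := by
      rw [div_le_iff₀ (by norm_num)]
      norm_num at h0' ⊢
      linarith
    have hRT : hR (Φ T x) ≤ -0.495 := by norm_num at I5 b7 H1 ⊢; linarith [H1.2]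
    have cRT : 0.99 ≤ cR (Φ T x) := by norm_num at I6 b7 C1 ⊢; linarith [C1.1]
    obtain ⟨q1, q2⟩ := rad_bd (norm_pos_iff.mpr (hR0 T hTT)) hRT cRT
    refine wf_lt q2 q1 ?_ ?_ hpos (hs0 T hTT) (A_lt hRT q1.le)
    · norm_num at I2 E1 ⊢; linarith [E1.1]
    · norm_num at I3 E1 ⊢; linarith [E1.2])
  intro t ht
  exact ⟨(wf_le ht hδ (key t ht).le).1, (wf_le ht hδ (key t ht).le).2.2.2.1⟩

end Run7.h874.LE
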