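import Pool.Agent.Run7.h874.PieceA3

/-!
# The relative three-body field with masses `1/2 + δ`, `1/2 - δ`, `ε` in the rotating frame

`R = q₁ - q₀`, `Z = q₂ - (q₀ + q₁)/2`.
-/

set_option autoImplicit false

namespace Run7.h874

open Complex Set

/-- the part of the force on `Z` that comes from the difference of the two large masses -/
noncomputable def hx (ϱ : ℝ) (x : P4) : ℂ :=
  gc ϱ x.1.1 - gc ϱ (x.2.1 + x.1.1/2) + gc ϱ (x.2.1 - x.1.1/2)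

/-- field for masses `1/2 + δ`, `1/2 - δ`, `ε` -/
noncomputable def fd (ϱ ε δ : ℝ) (x : P4) : P4 := fe ϱ ε x + ((0, 0), (0, (δ : ℂ) * hx ϱ x))

theorem fd_zero (ϱ ε : ℝ) (x : P4) : fd ϱ ε 0 x = fe ϱ ε x := by
  unfold fd
  apply Prod.ext <;> apply Prod.ext <;> simp

theorem rho0_pos : 0 < rho0 := by unfold rho0; norm_num

theorem hx_lip {ϱ : ℝ} (hϱ : 0 < ϱ) (x y : P4) : ‖hx ϱ x - hx ϱ y‖ ≤ 4 * (4 / ϱ ^ 3) * ‖x - y‖ := by
  have a1 : ‖x.1.1 - y.1.1‖ ≤ ‖x - y‖ := (norm_fst_le (x - y).1).trans (norm_fst_le (x - y))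
  have a3 : ‖x.2.1 - y.2.1‖ ≤ ‖x - y‖ := (norm_fst_le (x - y).2).trans (norm_snd_le (x - y))
  have hN := norm_nonneg (x - y)
  set N := ‖x - y‖
  set C := 4 / ϱ ^ 3 with hC
  have hc : 0 ≤ C := by positivity
  have hh : ‖(x.1.1 - y.1.1) / 2‖ ≤ N / 2 := by
    rw [norm_div]
    have : ‖(2:ℂ)‖ = 2 := by norm_num
    rw [this]; linarith
  have gm : ‖gc ϱ (x.2.1 - x.1.1/2) - gc ϱ (y.2.1 - y.1.1/2)‖ ≤ C * (3/2 * N) := by
    refine (gc_lip hϱ _ _).trans (mul_le_mul_of_nonneg_left ?_ hc)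
    have e : x.2.1 - x.1.1/2 - (y.2.1 - y.1.1/2) = (x.2.1 - y.2.1) - (x.1.1 - y.1.1)/2 := by ring
    rw [e]; exact (norm_sub_le _ _).trans (by linarith)
  have gp : ‖gc ϱ (x.2.1 + x.1.1/2) - gc ϱ (y.2.1 + y.1.1/2)‖ ≤ C * (3/2 * N) := by
    refine (gc_lip hϱ _ _).trans (mul_le_mul_of_nonneg_left ?_ hc)
    have e : x.2.1 + x.1.1/2 - (y.2.1 + y.1.1/2) = (x.2.1 - y.2.1) + (x.1.1 - y.1.1)/2 := by ring
    rw [e]; exact (norm_add_le _ _).trans (by linarith)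
  have gr : ‖gc ϱ x.1.1 - gc ϱ y.1.1‖ ≤ C * N :=
    (gc_lip hϱ _ _).trans (mul_le_mul_of_nonneg_left a1 hc)
  have e : hx ϱ x - hx ϱ y = (gc ϱ x.1.1 - gc ϱ y.1.1)
      - (gc ϱ (x.2.1 + x.1.1/2) - gc ϱ (y.2.1 + y.1.1/2))
      + (gc ϱ (x.2.1 - x.1.1/2) - gc ϱ (y.2.1 - y.1.1/2)) := by unfold hx; ring
  rw [e]
  refine (norm_add_le _ _).trans ?_
  have := (norm_sub_le (gc ϱ x.1.1 - gc ϱ y.1.1)
    (gc ϱ (x.2.1 + x.1.1/2) - gc ϱ (y.2.1 + y.1.1/2))).trans (add_le_add gr gp)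
  nlinarith

theorem hx_bdd {ϱ : ℝ} (hϱ : 0 < ϱ) (x : P4) : ‖hx ϱ x‖ ≤ 3 / ϱ ^ 2 := by
  unfold hx
  refine (norm_add_le _ _).trans ?_
  have h1 := gc_bdd hϱ x.1.1
  have h2 := gc_bdd hϱ (x.2.1 + x.1.1/2)
  have h3 := gc_bdd hϱ (x.2.1 - x.1.1/2)
  have h4 := (norm_sub_le (gc ϱ x.1.1) (gc ϱ (x.2.1 + x.1.1/2))).trans (add_le_add h1 h2)
  have e : 3 / ϱ ^ 2 = 1 / ϱ ^ 2 + 1 / ϱ ^ 2 + 1 / ϱ ^ 2 := by ring
  rw [e]
  exact add_le_add h4 h3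

theorem norm_one22 (z : ℂ) : ‖(((0, 0), (0, z)) : P4)‖ = ‖z‖ := by
  rw [Prod.norm_def, Prod.norm_def, Prod.norm_def]
  simp

/-- Lipschitz constant of the cut-off fields -/
noncomputable def LK : ℝ := 3 + 8 * (4 / rho0 ^ 3)

theorem LK_nonneg : 0 ≤ LK := by
  have := rho0_pos
  unfold LK; positivity

theorem fd_lip {ε δ : ℝ} (h0 : 0 ≤ ε) (h1 : ε ≤ 1) (hδ : |δ| ≤ 1) (x y : P4) :
    ‖fd rho0 ε δ x - fd rho0 ε δ y‖ ≤ LK * ‖x - y‖ := by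
  have hr := rho0_pos
  have e : fd rho0 ε δ x - fd rho0 ε δ y = (fe rho0 ε x - fe rho0 ε y)
      + ((0, 0), (0, (δ : ℂ) * (hx rho0 x - hx rho0 y))) := by
    unfold fd
    apply Prod.ext <;> apply Prod.ext <;> simp <;> ring
  rw [e]
  refine (norm_add_le _ _).trans ?_
  rw [norm_one22, norm_mul, Complex.norm_real, Real.norm_eq_abs]
  have a1 := fe_lip hr h0 h1 x y
  have a2 := mul_le_mul hδ (hx_lip hr x y) (norm_nonneg _) zero_le_one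
  unfold LK
  linarith

theorem fd_K {ε δ : ℝ} (h0 : 0 ≤ ε) (h1 : ε ≤ 1) (hδ : |δ| ≤ 1) :
    LipschitzWith (Real.toNNReal LK) (fd rho0 ε δ) :=
  lipschitz_of_norm (fd_lip h0 h1 hδ)

/-- distance of the fields -/
noncomputable def DK : ℝ := 3 / rho0 ^ 2

theorem DK_nonneg : 0 ≤ DK := by
  have := rho0_pos
  unfold DK; positivity

theorem fd_diff {ε δ : ℝ} (h0 : 0 ≤ ε) (x : P4) :
    ‖fd rho0 ε δ x - fe rho0 0 x‖ ≤ DK * (ε + |δ|) := by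
  have hr := rho0_pos
  have e : fd rho0 ε δ x - fe rho0 0 x = (fe rho0 ε x - fe rho0 0 x)
      + ((0, 0), (0, (δ : ℂ) * hx rho0 x)) := by
    unfold fd; ring
  rw [e]
  refine (norm_add_le _ _).trans ?_
  rw [norm_one22, norm_mul, Complex.norm_real, Real.norm_eq_abs]
  have a1 := fe_diff hr h0 x
  have a2 := mul_le_mul_of_nonneg_left (hx_bdd hr x) (abs_nonneg δ)
  have a3 : 2 / rho0 ^ 2 * ε ≤ 3 / rho0 ^ 2 * ε := by
    apply mul_le_mul_of_nonneg_right _ h0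
    apply div_le_div_of_nonneg_right _ (by positivity)
    norm_num
  unfold DK
  linarith

theorem gc_one : gc rho0 1 = 1 := by
  unfold gc rho0
  rw [norm_one]
  norm_num

/-- the restricted problem inside the full problem with `ε = δ = 0` -/
theorem fe_restr (y : P2) : fe rho0 0 ((1, 0), y) = ((0, 0), f0 rho0 y) := by
  unfold fe f0
  apply Prod.ext <;> apply Prod.ext <;> simp [gc_one]

/-- comparison of an orbit with the restricted problem -/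
theorem near_restr {ε δ : ℝ} (h0 : 0 ≤ ε) (h1 : ε ≤ 1) (hδ : |δ| ≤ 1) {Φ : ℝ → P4 → P4}
    (hΦ : IsFlow (fd rho0 ε δ) Φ) {φ : ℝ → P2 → P2} (hφ : IsFlow (f0 rho0) φ) {x : P4} {κ T : ℝ}
    (hκ : 0 ≤ κ) (hT : 0 ≤ T) (k1 : ‖x.1.1 - 1‖ ≤ κ) (k2 : ‖x.1.2‖ ≤ κ) :
    ∀ t ∈ Icc 0 T, ‖(((1, 0), φ t x.2) : P4) - Φ t x‖
      ≤ (κ + DK * (ε + |δ|) * T) * Real.exp (LK * T) := by
  intro t ht
  have hK := fd_K h0 h1 hδ
  have hd : ∀ s, HasDerivAt (fun s => (((1, 0), φ s x.2) : P4)) ((0, 0), f0 rho0 (φ s x.2)) s := by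
    intro s
    exact (hasDerivAt_const s ((1, 0) : P2)).prodMk (hφ.deriv s x.2)
  have key := stmtA2 P4 (fd rho0 ε δ) _ Φ hK hΦ (fun s => (((1, 0), φ s x.2) : P4))
    (fun s => ((0, 0), f0 rho0 (φ s x.2))) T (DK * (ε + |δ|)) κ hT
    (by have := DK_nonneg; positivity) hκ
    (fun s _ => (hd s).continuousAt.continuousWithinAt)
    (fun s _ => (hd s).hasDerivWithinAt)
    (fun s _ => by
      have e := fe_restr (φ s x.2)
      rw [← e, norm_sub_rev]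
      exact fd_diff h0 _) x
    (by
      simp only [hφ.zero]
      have e : (((1, 0), x.2) : P4) - x = ((1 - x.1.1, -x.1.2), (0, 0)) := by
        apply Prod.ext <;> apply Prod.ext <;> simp
      rw [e, Prod.norm_def, Prod.norm_def, Prod.norm_def]
      simp only [norm_neg, norm_zero]
      rw [norm_sub_rev] at k1
      exact max_le (max_le k1 k2) (max_le hκ hκ)) t ht
  rw [Real.coe_toNNReal _ LK_nonneg] at key
  exact key

end Run7.h874
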