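import Pool.Agent.Run7.h874.LE.Back

/-!
# General masses, sizes, orientations
-/

set_option autoImplicit false

namespace Run7.h874.LE

open Complex Set Filter Topology

/-- direct equilateral shape `e^{iπ/3}` -/
noncomputable def cp : ℂ := 1/2 + (Real.sqrt 3 / 2 : ℂ) * I
noncomputable def cm : ℂ := 1/2 - (Real.sqrt 3 / 2 : ℂ) * I

/-- the solution `x` stays close to the rotating equilateral triangle with shape `c`, size `L`,
angular velocity `ω`, initial direction `u` -/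
def Near1 (η : ℝ) (c : ℂ) (L ω : ℝ) (u : ℂ) (x : ℝ → Ph 3) : Prop :=
  ∀ t, 0 ≤ t →
    ‖((x t).1 1 - (x t).1 0) - L * u * exp (ω * t * I)‖ ≤ η * L ∧
    ‖((x t).1 2 - (x t).1 0) - c * (L * u * exp (ω * t * I))‖ ≤ η * L ∧
    ‖((x t).2 1 - (x t).2 0) - I * ω * (L * u * exp (ω * t * I))‖ ≤ η * |ω| * L ∧
    ‖((x t).2 2 - (x t).2 0) - c * (I * ω * (L * u * exp (ω * t * I)))‖ ≤ η * |ω| * L

theorem hubZ_cp : hubZ = cp - 1/2 := by unfold hubZ cp; ring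

theorem stepA : ∃ η : ℝ, 0 < η ∧ η ≤ 1/10^4 ∧ ∀ ε δ : ℝ, 0 < ε → ε ≤ η → |δ| ≤ η →
    ∀ a : ℝ, 1 ≤ a → a ≤ 1 + ε → ∀ x : ℝ → Ph 3, IsSol (mD ε δ) (Ici 0) x →
      Near1 η cp a 1 1 x → Acc (mD ε δ) (x 0) := by
  obtain ⟨η, hη, hη', hmain⟩ := mainN
  refine ⟨η / 10, by positivity, by linarith, ?_⟩
  intro ε δ h0 h1 h2 a ha1 ha2 x hx hn
  refine hmain ε δ h0 (by linarith) (by linarith) x hx ?_
  intro t ht
  obtain ⟨n1, n2, n3, n4⟩ := hn t ht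
  have eE : exp (((1:ℝ):ℂ) * t * I) = eI t := by unfold eI; congr 1; push_cast; ring
  rw [eE] at n1 n2 n3 n4
  rw [abs_one] at n3 n4
  have hEE : eI (-t) * eI t = 1 := by
    unfold eI
    rw [← Complex.exp_add]
    have : ((-t : ℝ) : ℂ) * I + (t : ℂ) * I = 0 := by push_cast; ring
    rw [this, Complex.exp_zero]
  have hE := norm_eI (-t)
  have ha : η / 10 * a ≤ η / 9 := by
    have : a ≤ 1.01 := by norm_num at hη' ⊢; linarith
    nlinarith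
  have ha0 : |a - 1| ≤ η / 10 := by rw [abs_of_nonneg (by linarith)]; linarith
  set p0 := (x t).1 0
  set p1 := (x t).1 1
  set p2 := (x t).1 2
  set v0 := (x t).2 0
  set v1 := (x t).2 1
  set v2 := (x t).2 2
  -- rotated errors
  have r1 : ‖eI (-t) * (p1 - p0) - a‖ ≤ η / 9 := by
    have e : eI (-t) * (p1 - p0) - a = eI (-t) * ((p1 - p0) - a * 1 * eI t) := by
      linear_combination (a:ℂ) * hEE
    rw [e, norm_mul, hE, one_mul]; exact n1.trans ha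
  have r2 : ‖eI (-t) * (p2 - p0) - cp * a‖ ≤ η / 9 := by
    have e : eI (-t) * (p2 - p0) - cp * a = eI (-t) * ((p2 - p0) - cp * (a * 1 * eI t)) := by
      linear_combination (cp * (a:ℂ)) * hEE
    rw [e, norm_mul, hE, one_mul]; exact n2.trans ha
  have r3 : ‖eI (-t) * (v1 - v0) - I * a‖ ≤ η / 9 := by
    have e : eI (-t) * (v1 - v0) - I * a
        = eI (-t) * ((v1 - v0) - I * ((1:ℝ):ℂ) * (a * 1 * eI t)) := by
      push_cast; linear_combination (I * (a:ℂ)) * hEE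
    rw [e, norm_mul, hE, one_mul]; exact n3.trans (by linarith)
  have r4 : ‖eI (-t) * (v2 - v0) - cp * (I * a)‖ ≤ η / 9 := by
    have e : eI (-t) * (v2 - v0) - cp * (I * a)
        = eI (-t) * ((v2 - v0) - cp * (I * ((1:ℝ):ℂ) * (a * 1 * eI t))) := by
      push_cast; linear_combination (cp * (I * (a:ℂ))) * hEE
    rw [e, norm_mul, hE, one_mul]; exact n4.trans (by linarith)
  have half : ∀ z : ℂ, ‖z / 2‖ = ‖z‖ / 2 := by intro z; rw [norm_div]; norm_num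
  have hRa : ‖((a - 1 : ℝ) : ℂ)‖ ≤ η / 10 := by
    rw [Complex.norm_real, Real.norm_eq_abs]; exact ha0
  have hZa : ‖((a - 1 : ℝ) : ℂ) * hubZ‖ ≤ η / 10 := by
    have := hub_a ha1 ha2
    linarith
  have tri3 : ∀ x y z : ℂ, ‖x + y + z‖ ≤ ‖x‖ + ‖y‖ + ‖z‖ := fun x y z =>
    (norm_add_le _ _).trans (add_le_add (norm_add_le _ _) le_rfl)
  have c1 : ‖eI (-t) * (p1 - p0) - 1‖ ≤ η := by
    have e : eI (-t) * (p1 - p0) - 1 = (eI (-t) * (p1 - p0) - a) + ((a - 1 : ℝ) : ℂ) := by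
      push_cast; ring
    rw [e]
    exact (norm_add_le _ _).trans (by linarith)
  have c2 : ‖eI (-t) * ((v1 - v0) - I * (p1 - p0))‖ ≤ η := by
    have e : eI (-t) * ((v1 - v0) - I * (p1 - p0))
        = (eI (-t) * (v1 - v0) - I * a) - I * (eI (-t) * (p1 - p0) - a) := by ring
    rw [e]
    refine (norm_sub_le _ _).trans ?_
    rw [norm_mul, norm_I, one_mul]
    linarith
  have c3 : ‖eI (-t) * (p2 - (p0 + p1) / 2) - hubZ‖ ≤ η := by
    have e : eI (-t) * (p2 - (p0 + p1) / 2) - hubZ = (eI (-t) * (p2 - p0) - cp * a)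
        + (-((eI (-t) * (p1 - p0) - a) / 2)) + ((a - 1 : ℝ) : ℂ) * hubZ := by
      rw [hubZ_cp]; push_cast; ring
    rw [e]
    refine (tri3 _ _ _).trans ?_
    rw [norm_neg, half]
    linarith
  have c4 : ‖eI (-t) * ((v2 - (v0 + v1) / 2) - I * (p2 - (p0 + p1) / 2))‖ ≤ η := by
    have e : eI (-t) * ((v2 - (v0 + v1) / 2) - I * (p2 - (p0 + p1) / 2))
        = ((eI (-t) * (v2 - v0) - cp * (I * a)) - (eI (-t) * (v1 - v0) - I * a) / 2)
          - I * ((eI (-t) * (p2 - p0) - cp * a) - (eI (-t) * (p1 - p0) - a) / 2) := by ring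
    rw [e]
    refine (norm_sub_le _ _).trans ?_
    rw [norm_mul, norm_I, one_mul]
    have b1 := norm_sub_le (eI (-t) * (v2 - v0) - cp * (I * a)) ((eI (-t) * (v1 - v0) - I * a) / 2)
    have b2 := norm_sub_le (eI (-t) * (p2 - p0) - cp * a) ((eI (-t) * (p1 - p0) - a) / 2)
    rw [half] at b1 b2
    linarith
  rw [Prod.norm_def, Prod.norm_def, Prod.norm_def]
  refine max_le (max_le ?_ ?_) (max_le ?_ ?_)
  · exact c1
  · show ‖eI (-t) * ((v1 - v0) - I * (p1 - p0)) - 0‖ ≤ η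
    rw [sub_zero]; exact c2
  · exact c3
  · show ‖eI (-t) * ((v2 - (v0 + v1) / 2) - I * (p2 - (p0 + p1) / 2)) - 0‖ ≤ η
    rw [sub_zero]; exact c4

/-- admissible masses -/
def MassOK (η : ℝ) (m : Fin 3 → ℝ) : Prop :=
  (∀ a, 0 < m a) ∧ |m 0 - m 1| ≤ η * (m 0 + m 1) ∧ m 2 ≤ η * (m 0 + m 1)

theorem stepB : ∃ η : ℝ, 0 < η ∧ η ≤ 1/10^4 ∧ ∀ m : Fin 3 → ℝ, MassOK η m →
    ∀ (L ω : ℝ) (u : ℂ), 0 < L → 0 < ω → ω ^ 2 * L ^ 3 = m 0 + m 1 + m 2 → ‖u‖ = 1 →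
      ∀ x : ℝ → Ph 3, IsSol m (Ici 0) x → Near1 η cp L ω u x → Acc m (x 0) := by
  obtain ⟨η, hη, hη', hA⟩ := stepA
  refine ⟨η, hη, hη', ?_⟩
  intro m hm L ω u hL hω hLω hu x hx hn
  obtain ⟨mpos, m1, m2⟩ := hm
  have p0 := mpos 0
  have p1 := mpos 1
  have p2 := mpos 2
  set μ := m 0 + m 1 with hμ
  have hμ0 : 0 < μ := by positivity
  set ε := m 2 / μ with hε
  set δ := (m 0 - m 1) / (2 * μ) with hδ
  have hε0 : 0 < ε := by positivity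
  have hε1 : ε ≤ η := by rw [hε, div_le_iff₀ hμ0]; exact m2
  have hδ1 : |δ| ≤ η := by
    rw [hδ, abs_div, abs_of_pos (show 0 < 2 * μ by positivity), div_le_iff₀ (by positivity)]
    have : 0 ≤ η * μ := by positivity
    linarith
  obtain ⟨a, ha1, ha2, ha3⟩ := exists_a hε0.le
  have ha0 : 0 < a := by linarith
  set l := L / a with hl
  have hl0 : 0 < l := by positivity
  have hlL : l * a = L := by rw [hl]; field_simp
  have hkey : l ^ 3 * ω ^ 2 = μ := by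
    have h1 : (l ^ 3 * ω ^ 2) * a ^ 3 = μ * a ^ 3 := by
      have : (l ^ 3 * ω ^ 2) * a ^ 3 = ω ^ 2 * (l * a) ^ 3 := by ring
      rw [this, hlL, hLω, ha3, hε]
      field_simp
    exact mul_right_cancel₀ (by positivity) h1
  have hui : ‖u⁻¹‖ = 1 := by rw [norm_inv, hu, inv_one]
  have hu0 : u ≠ 0 := by rw [← norm_pos_iff, hu]; norm_num
  have hlC : (l:ℂ) ≠ 0 := by exact_mod_cast hl0.ne'
  have hωC : (ω:ℂ) ≠ 0 := by exact_mod_cast hω.ne'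
  have hmass : ∀ b, mD ε δ b = (1/l) ^ 3 * (1/ω) ^ 2 * m b := by
    intro b
    have e : (1/l) ^ 3 * (1/ω) ^ 2 * m b = m b / μ := by
      rw [← hkey]; field_simp
    rw [e]
    fin_cases b
    · show 1/2 + δ = m 0 / μ
      rw [hδ, hμ]; field_simp; ring
    · show 1/2 - δ = m 1 / μ
      rw [hδ, hμ]; field_simp; ring
    · rfl
  have hsol := hx.scale (l := 1/l) (k := 1/ω) (u := u⁻¹) (by positivity) (by positivity) hui hmass
  have hnear : Near1 η cp a 1 1 (fun t => Ts (1/l) (1/ω) u⁻¹ (x ((1/ω) * t))) := by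
    intro t ht
    obtain ⟨n1, n2, n3, n4⟩ := hn ((1/ω) * t) (by positivity)
    have eE : exp ((ω:ℂ) * ((1/ω * t : ℝ) : ℂ) * I) = exp (((1:ℝ):ℂ) * t * I) := by
      congr 1; push_cast; field_simp
    rw [eE] at n1 n2 n3 n4
    rw [abs_of_pos hω] at n3 n4
    set E := exp (((1:ℝ):ℂ) * t * I)
    have hla : (l:ℂ) * a = L := by exact_mod_cast hlL
    have nl : ‖((1/l : ℝ) : ℂ) * u⁻¹‖ = 1 / l := by
      rw [norm_mul, hui, mul_one, Complex.norm_real, Real.norm_eq_abs, abs_of_pos (by positivity)]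
    have nk : ‖((1/l : ℝ) : ℂ) * u⁻¹ * ((1/ω : ℝ) : ℂ)‖ = 1 / l * (1 / ω) := by
      rw [norm_mul, nl, Complex.norm_real, Real.norm_eq_abs, abs_of_pos (by positivity)]
    have b1 : 1 / l * (η * L) = η * a := by rw [← hlL]; field_simp
    have b2 : 1 / l * (1 / ω) * (η * ω * L) = η * |(1:ℝ)| * a := by
      rw [← hlL, abs_one]; field_simp
    unfold Ts
    refine ⟨?_, ?_, ?_, ?_⟩
    · have e : ((1/l : ℝ) : ℂ) * u⁻¹ * (x (1/ω * t)).1 1 - ((1/l : ℝ) : ℂ) * u⁻¹ * (x (1/ω * t)).1 0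
          - (a:ℂ) * 1 * E = ((1/l : ℝ) : ℂ) * u⁻¹ *
            (((x (1/ω * t)).1 1 - (x (1/ω * t)).1 0) - L * u * E) := by
        rw [← hla]; push_cast; field_simp
      show ‖((1/l : ℝ) : ℂ) * u⁻¹ * (x (1/ω * t)).1 1 - ((1/l : ℝ) : ℂ) * u⁻¹ * (x (1/ω * t)).1 0
          - (a:ℂ) * 1 * E‖ ≤ η * a
      rw [e, norm_mul, nl, ← b1]
      exact mul_le_mul_of_nonneg_left n1 (by positivity)
    · have e : ((1/l : ℝ) : ℂ) * u⁻¹ * (x (1/ω * t)).1 2 - ((1/l : ℝ) : ℂ) * u⁻¹ * (x (1/ω * t)).1 0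
          - cp * ((a:ℂ) * 1 * E) = ((1/l : ℝ) : ℂ) * u⁻¹ *
            (((x (1/ω * t)).1 2 - (x (1/ω * t)).1 0) - cp * (L * u * E)) := by
        rw [← hla]; push_cast; field_simp
      show ‖((1/l : ℝ) : ℂ) * u⁻¹ * (x (1/ω * t)).1 2 - ((1/l : ℝ) : ℂ) * u⁻¹ * (x (1/ω * t)).1 0
          - cp * ((a:ℂ) * 1 * E)‖ ≤ η * a
      rw [e, norm_mul, nl, ← b1]
      exact mul_le_mul_of_nonneg_left n2 (by positivity)
    · have e : ((1/l : ℝ) : ℂ) * u⁻¹ * ((1/ω : ℝ) : ℂ) * (x (1/ω * t)).2 1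
          - ((1/l : ℝ) : ℂ) * u⁻¹ * ((1/ω : ℝ) : ℂ) * (x (1/ω * t)).2 0
          - I * ((1:ℝ):ℂ) * ((a:ℂ) * 1 * E) = ((1/l : ℝ) : ℂ) * u⁻¹ * ((1/ω : ℝ) : ℂ) *
            (((x (1/ω * t)).2 1 - (x (1/ω * t)).2 0) - I * ω * (L * u * E)) := by
        rw [← hla]; push_cast; field_simp
      show ‖((1/l : ℝ) : ℂ) * u⁻¹ * ((1/ω : ℝ) : ℂ) * (x (1/ω * t)).2 1
          - ((1/l : ℝ) : ℂ) * u⁻¹ * ((1/ω : ℝ) : ℂ) * (x (1/ω * t)).2 0
          - I * ((1:ℝ):ℂ) * ((a:ℂ) * 1 * E)‖ ≤ η * |(1:ℝ)| * a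
      rw [e, norm_mul, nk, ← b2]
      exact mul_le_mul_of_nonneg_left n3 (by positivity)
    · have e : ((1/l : ℝ) : ℂ) * u⁻¹ * ((1/ω : ℝ) : ℂ) * (x (1/ω * t)).2 2
          - ((1/l : ℝ) : ℂ) * u⁻¹ * ((1/ω : ℝ) : ℂ) * (x (1/ω * t)).2 0
          - cp * (I * ((1:ℝ):ℂ) * ((a:ℂ) * 1 * E)) = ((1/l : ℝ) : ℂ) * u⁻¹ * ((1/ω : ℝ) : ℂ) *
            (((x (1/ω * t)).2 2 - (x (1/ω * t)).2 0) - cp * (I * ω * (L * u * E))) := by
        rw [← hla]; push_cast; field_simp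
      show ‖((1/l : ℝ) : ℂ) * u⁻¹ * ((1/ω : ℝ) : ℂ) * (x (1/ω * t)).2 2
          - ((1/l : ℝ) : ℂ) * u⁻¹ * ((1/ω : ℝ) : ℂ) * (x (1/ω * t)).2 0
          - cp * (I * ((1:ℝ):ℂ) * ((a:ℂ) * 1 * E))‖ ≤ η * |(1:ℝ)| * a
      rw [e, norm_mul, nk, ← b2]
      exact mul_le_mul_of_nonneg_left n4 (by positivity)
  have hacc := hA ε δ hε0 hε1 hδ1 a ha1 ha2 _ hsol hnear
  have hmass' : ∀ b, m b = l ^ 3 * ω ^ 2 * mD ε δ b := by
    intro b; rw [hmass b]; field_simp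
  have hback := hacc.map (Ts_cont l ω u) (fun w hw => hw.scale hl0 hω hu hmass')
  have e : Ts l ω u (Ts (1/l) (1/ω) u⁻¹ (x (1/ω * 0))) = x 0 := by
    rw [mul_zero]
    unfold Ts
    apply Prod.ext
    · funext b
      show (l:ℂ) * u * (((1/l : ℝ) : ℂ) * u⁻¹ * (x 0).1 b) = (x 0).1 b
      push_cast; field_simp
    · funext b
      show (l:ℂ) * u * ω * (((1/l : ℝ) : ℂ) * u⁻¹ * ((1/ω : ℝ) : ℂ) * (x 0).2 b) = (x 0).2 b
      push_cast; field_simp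
  rw [e] at hback
  exact hback

end Run7.h874.LE
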