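import Pool.Agent.Run7.h874.LE.Gen

/-!
# Both orientations, both senses of rotation
-/

set_option autoImplicit false

namespace Run7.h874.LE

open Complex Set Filter Topology

theorem cp_cm : cp + cm = 1 := by unfold cp cm; ring

theorem conj_cp : (starRingEnd ℂ) cp = cm := by
  unfold cp cm
  simp only [map_add, map_mul, map_div₀, map_one, Complex.conj_I, Complex.conj_ofReal, map_ofNat]
  ring

theorem conj_cm : (starRingEnd ℂ) cm = cp := by
  rw [← conj_cp, Complex.conj_conj]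

theorem conj_exp (ω t : ℝ) : (starRingEnd ℂ) (exp (ω * t * I)) = exp (((-ω : ℝ) : ℂ) * t * I) := by
  rw [← Complex.exp_conj]
  congr 1
  simp only [map_mul, Complex.conj_I, Complex.conj_ofReal]
  push_cast; ring

theorem Near1.conj {η : ℝ} {c : ℂ} {L ω : ℝ} {u : ℂ} {x : ℝ → Ph 3} (h : Near1 η c L ω u x) :
    Near1 η ((starRingEnd ℂ) c) L (-ω) ((starRingEnd ℂ) u) (fun t => Tc (x t)) := by
  intro t ht
  obtain ⟨n1, n2, n3, n4⟩ := h t ht
  rw [abs_neg]
  have cE := conj_exp ω t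
  have key : ∀ z : ℂ, ‖(starRingEnd ℂ) z‖ = ‖z‖ := fun z => RCLike.norm_conj z
  unfold Tc
  refine ⟨?_, ?_, ?_, ?_⟩
  · rw [← key] at n1
    simp only [map_sub, map_mul, Complex.conj_ofReal, cE] at n1
    exact n1
  · rw [← key] at n2
    simp only [map_sub, map_mul, Complex.conj_ofReal, cE] at n2
    exact n2
  · rw [← key] at n3
    simp only [map_sub, map_mul, Complex.conj_ofReal, Complex.conj_I, cE] at n3
    refine le_of_eq_of_le ?_ n3
    congr 1
    show (starRingEnd ℂ) ((x t).2 1) - (starRingEnd ℂ) ((x t).2 0) - _ = _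
    push_cast
    ring
  · rw [← key] at n4
    simp only [map_sub, map_mul, Complex.conj_ofReal, Complex.conj_I, cE] at n4
    refine le_of_eq_of_le ?_ n4
    congr 1
    show (starRingEnd ℂ) ((x t).2 2) - (starRingEnd ℂ) ((x t).2 0) - _ = _
    push_cast
    ring

theorem Near1.swap {η : ℝ} {c : ℂ} {L ω : ℝ} {u : ℂ} {x : ℝ → Ph 3}
    (h : Near1 η c L ω u x) :
    Near1 (2 * η) (1 - c) L ω (-u) (fun t => Tw (x t)) := by
  intro t ht
  obtain ⟨n1, n2, n3, n4⟩ := h t ht
  unfold Tw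
  simp only [sw0, sw1, sw2]
  set E := exp (ω * t * I)
  set p0 := (x t).1 0
  set p1 := (x t).1 1
  set p2 := (x t).1 2
  set v0 := (x t).2 0
  set v1 := (x t).2 1
  set v2 := (x t).2 2
  have z1 : 0 ≤ η * L := (norm_nonneg _).trans n1
  have z3 : 0 ≤ η * |ω| * L := (norm_nonneg _).trans n3
  refine ⟨?_, ?_, ?_, ?_⟩
  · have e : p0 - p1 - L * (-u) * E = -(p1 - p0 - L * u * E) := by ring
    rw [e, norm_neg]; linarith
  · have e : p2 - p1 - (1 - c) * (L * (-u) * E) = (p2 - p0 - c * (L * u * E))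
        - (p1 - p0 - L * u * E) := by ring
    rw [e]; exact (norm_sub_le _ _).trans (by linarith)
  · have e : v0 - v1 - I * ω * (L * (-u) * E) = -(v1 - v0 - I * ω * (L * u * E)) := by ring
    rw [e, norm_neg]; linarith
  · have e : v2 - v1 - (1 - c) * (I * ω * (L * (-u) * E)) = (v2 - v0 - c * (I * ω * (L * u * E)))
        - (v1 - v0 - I * ω * (L * u * E)) := by ring
    rw [e]; exact (norm_sub_le _ _).trans (by linarith)

theorem Near1.mono {η η' : ℝ} {c : ℂ} {L ω : ℝ} {u : ℂ} {x : ℝ → Ph 3} (hL : 0 ≤ L)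
    (h : Near1 η c L ω u x) (hη : η ≤ η') : Near1 η' c L ω u x := by
  intro t ht
  obtain ⟨n1, n2, n3, n4⟩ := h t ht
  have a1 : η * L ≤ η' * L := mul_le_mul_of_nonneg_right hη hL
  have a2 : η * |ω| * L ≤ η' * |ω| * L := by
    have : 0 ≤ |ω| * L := by positivity
    nlinarith [mul_le_mul_of_nonneg_right hη this]
  exact ⟨n1.trans a1, n2.trans a1, n3.trans a2, n4.trans a2⟩

theorem MassOK.mono {η η' : ℝ} {m : Fin 3 → ℝ} (h : MassOK η m) (hη : η ≤ η') :
    MassOK η' m := by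
  obtain ⟨h1, h2, h3⟩ := h
  have p0 := h1 0
  have p1 := h1 1
  have : η * (m 0 + m 1) ≤ η' * (m 0 + m 1) := mul_le_mul_of_nonneg_right hη (by linarith)
  exact ⟨h1, h2.trans this, h3.trans this⟩

theorem MassOK.swap {η : ℝ} {m : Fin 3 → ℝ} (h : MassOK η m) : MassOK η (fun a => m (sw a)) := by
  obtain ⟨h1, h2, h3⟩ := h
  refine ⟨fun a => h1 _, ?_, ?_⟩
  · show |m (sw 0) - m (sw 1)| ≤ η * (m (sw 0) + m (sw 1))
    rw [sw0, sw1, abs_sub_comm, add_comm (m 1) (m 0)]
    exact h2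
  · show m (sw 2) ≤ η * (m (sw 0) + m (sw 1))
    rw [sw0, sw1, sw2, add_comm (m 1) (m 0)]
    exact h3

/-- **General theorem for the classes of near-triangle solutions.** -/
theorem general : ∃ η : ℝ, 0 < η ∧ η ≤ 1/10^4 ∧ ∀ m : Fin 3 → ℝ, MassOK η m →
    ∀ (L ω : ℝ) (u c : ℂ), 0 < L → ω ≠ 0 → ω ^ 2 * L ^ 3 = m 0 + m 1 + m 2 → ‖u‖ = 1 →
      (c = cp ∨ c = cm) →
      ∀ x : ℝ → Ph 3, IsSol m (Ici 0) x → Near1 η c L ω u x → Acc m (x 0) := by
  obtain ⟨η, hη, hη', hB⟩ := stepB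
  refine ⟨η / 2, by positivity, by linarith, ?_⟩
  -- step D : both shapes, positive rotation
  have hD : ∀ m : Fin 3 → ℝ, MassOK (η / 2) m →
    ∀ (L ω : ℝ) (u c : ℂ), 0 < L → 0 < ω → ω ^ 2 * L ^ 3 = m 0 + m 1 + m 2 → ‖u‖ = 1 →
      (c = cp ∨ c = cm) →
      ∀ x : ℝ → Ph 3, IsSol m (Ici 0) x → Near1 (η / 2) c L ω u x → Acc m (x 0) := by
    intro m hm L ω u c hL hω hLω hu hc x hx hn
    rcases hc with rfl | rfl
    · exact hB m (hm.mono (by linarith)) L ω u hL hω hLω hu x hx (hn.mono hL.le (by linarith))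
    · have hn' := hn.swap
      have e1 : 2 * (η / 2) = η := by ring
      have e2 : (1:ℂ) - cm = cp := by rw [← cp_cm]; ring
      rw [e1, e2] at hn'
      have h1 := hB (fun a => m (sw a)) ((hm.mono (by linarith)).swap) L ω (-u) hL hω
        (by
          show ω ^ 2 * L ^ 3 = m (sw 0) + m (sw 1) + m (sw 2)
          rw [sw0, sw1, sw2, hLω]; ring) (by rw [norm_neg, hu]) _ hx.swap hn'
      have h2 := h1.map Tw_cont (fun w hw => hw.swap)
      have e3 : (fun a => m (sw (sw a))) = m := by funext a; rw [sws]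
      simp only [Tw_Tw] at h2
      rw [e3] at h2
      exact h2
  intro m hm L ω u c hL hω hLω hu hc x hx hn
  rcases lt_or_gt_of_ne hω with h | h
  · have h1 := hD m hm L (-ω) ((starRingEnd ℂ) u) ((starRingEnd ℂ) c) hL (by linarith)
      (by rw [neg_sq]; exact hLω) (by rw [RCLike.norm_conj]; exact hu)
      (by
        rcases hc with rfl | rfl
        · right; exact conj_cp
        · left; exact conj_cm) _ hx.conj hn.conj
    have h2 := h1.map Tc_cont (fun w hw => hw.conj)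
    simp only [Tc_Tc] at h2
    exact h2
  · exact hD m hm L ω u c hL h hLω hu hc x hx hn

end Run7.h874.LE
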