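import Pool.Agent.Run7.h874.LE.Rot

/-!
# From the rotating frame to Newton's equations
-/

set_option autoImplicit false

namespace Run7.h874.LE

open Complex Set Filter

/-- Phase points of `n` bodies in the plane `ℂ`: positions and velocities. -/
abbrev Ph (n : ℕ) := (Fin n → ℂ) × (Fin n → ℂ)

/-- Newtonian acceleration of body `a`. -/
noncomputable def acc {n : ℕ} (m : Fin n → ℝ) (q : Fin n → ℂ) (a : Fin n) : ℂ :=
  ∑ b ∈ Finset.univ.erase a, ((m b / ‖q b - q a‖ ^ 3 : ℝ) : ℂ) * (q b - q a)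

/-- `x = (q, v)` is a solution on the time set `J`. -/
def IsSol {n : ℕ} (m : Fin n → ℝ) (J : Set ℝ) (x : ℝ → Ph n) : Prop :=
  ∀ t ∈ J, (∀ a b, a ≠ b → (x t).1 a ≠ (x t).1 b) ∧
    HasDerivWithinAt x ((x t).2, acc m (x t).1) J t

/-- the solution that starts at `z` exists for all positive times, body 2 goes to infinity linearly
from the bodies 0 and 1, and these stay together -/
def Unb (m : Fin 3 → ℝ) (z : Ph 3) : Prop :=
  ∃ x : ℝ → Ph 3, x 0 = z ∧ IsSol m (Ici 0) x ∧ ∃ a ρ : ℝ, 0 < a ∧ ∀ᶠ t in atTop,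
    a * t ≤ ‖(x t).1 2 - (x t).1 0‖ ∧ a * t ≤ ‖(x t).1 2 - (x t).1 1‖ ∧
    ‖(x t).1 1 - (x t).1 0‖ ≤ ρ

noncomputable def cA (ε : ℝ) : Fin 3 → ℂ := ![-(ε:ℂ)/(1+ε), -(ε:ℂ)/(1+ε), 1/(1+ε)]
noncomputable def cD (ε δ : ℝ) : Fin 3 → ℂ :=
  ![-(ε:ℂ)*δ/(1+ε) - 1/2 + δ, -(ε:ℂ)*δ/(1+ε) + 1/2 + δ, δ/(1+ε)]
/-- masses -/
noncomputable def mD (ε δ : ℝ) : Fin 3 → ℝ := ![1/2 + δ, 1/2 - δ, ε]
noncomputable def eI (t : ℝ) : ℂ := exp (t * I)
noncomputable def posD (ε δ : ℝ) (a : Fin 3) (x : P4) : ℂ := cA ε a * x.2.1 + cD ε δ a * x.1.1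
noncomputable def velD (ε δ : ℝ) (a : Fin 3) (x : P4) : ℂ := cA ε a * x.2.2 + cD ε δ a * x.1.2
noncomputable def accD (ε δ : ℝ) (a : Fin 3) (x : P4) : ℂ :=
  cA ε a * (fd 0 ε δ x).2.2 + cD ε δ a * (fd 0 ε δ x).1.2

theorem norm_eI (t : ℝ) : ‖eI t‖ = 1 := norm_exp_ofReal_mul_I t

theorem hasDerivAt_eI (t : ℝ) : HasDerivAt eI (eI t * I) t := by
  have h1 : HasDerivAt (fun s : ℝ => (s : ℂ) * I) (1 * I) t :=
    (ofRealCLM.hasDerivAt (x := t)).mul_const I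
  rw [one_mul] at h1
  exact h1.cexp

theorem hasDerivAt_posD {ε δ : ℝ} {X : ℝ → P4} {D : P4} {t : ℝ} (h : HasDerivAt X D t) (a : Fin 3) :
    HasDerivAt (fun s => posD ε δ a (X s)) (cA ε a * D.2.1 + cD ε δ a * D.1.1) t :=
  ((d21 h).const_mul _).add ((d11 h).const_mul _)

theorem hasDerivAt_velD {ε δ : ℝ} {X : ℝ → P4} {D : P4} {t : ℝ} (h : HasDerivAt X D t) (a : Fin 3) :
    HasDerivAt (fun s => velD ε δ a (X s)) (cA ε a * D.2.2 + cD ε δ a * D.1.2) t :=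
  ((d22 h).const_mul _).add ((d12 h).const_mul _)

theorem fd11 (ϱ ε δ : ℝ) (x : P4) : (fd ϱ ε δ x).1.1 = x.1.2 := by unfold fd fe; simp
theorem fd21 (ϱ ε δ : ℝ) (x : P4) : (fd ϱ ε δ x).2.1 = x.2.2 := by unfold fd fe; simp

theorem hasDerivAt_q {ε δ : ℝ} {X : ℝ → P4} {t : ℝ} (h : HasDerivAt X (fd 0 ε δ (X t)) t) (a : Fin 3) :
    HasDerivAt (fun s => eI s * posD ε δ a (X s))
      (eI t * (I * posD ε δ a (X t) + velD ε δ a (X t))) t := by
  have h1 := (hasDerivAt_eI t).mul (hasDerivAt_posD (ε := ε) (δ := δ) h a)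
  refine h1.congr_deriv ?_
  rw [fd11, fd21]
  show eI t * I * posD ε δ a (X t) + eI t * (cA ε a * (X t).2.2 + cD ε δ a * (X t).1.2) = _
  unfold velD
  ring

theorem hasDerivAt_dq {ε δ : ℝ} {X : ℝ → P4} {t : ℝ} (h : HasDerivAt X (fd 0 ε δ (X t)) t) (a : Fin 3) :
    HasDerivAt (fun s => eI s * (I * posD ε δ a (X s) + velD ε δ a (X s)))
      (eI t * (-posD ε δ a (X t) + 2 * I * velD ε δ a (X t) + accD ε δ a (X t))) t := by
  have h1 := (hasDerivAt_eI t).mul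
    (((hasDerivAt_posD (ε := ε) (δ := δ) h a).const_mul I).add
      (hasDerivAt_velD (ε := ε) (δ := δ) h a))
  refine h1.congr_deriv ?_
  rw [fd11, fd21]
  show eI t * I * (I * posD ε δ a (X t) + velD ε δ a (X t)) +
    eI t * (I * (cA ε a * (X t).2.2 + cD ε δ a * (X t).1.2) + accD ε δ a (X t)) = _
  have h2 : cA ε a * (X t).2.2 + cD ε δ a * (X t).1.2 = velD ε δ a (X t) := rfl
  rw [h2]
  linear_combination (eI t * posD ε δ a (X t)) * I_sq

theorem gcz (z : ℂ) : gc 0 z = z / ((‖z‖ ^ 3 : ℝ) : ℂ) := by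
  unfold gc
  rw [max_eq_left (norm_nonneg z), real_smul]
  push_cast
  rw [div_eq_mul_inv, mul_comm]

theorem gcn (ϱ : ℝ) (z : ℂ) : gc ϱ (-z) = -gc ϱ z := by
  unfold gc
  rw [norm_neg, smul_neg]

theorem frc (e z : ℂ) (he : ‖e‖ = 1) (m : ℝ) :
    ((m / ‖e * z‖ ^ 3 : ℝ) : ℂ) * (e * z) = e * ((m : ℂ) * gc 0 z) := by
  rw [gcz, norm_mul, he, one_mul]
  push_cast
  ring

theorem p10 (ε δ : ℝ) (x : P4) : posD ε δ 1 x - posD ε δ 0 x = x.1.1 := by
  simp only [posD, cA, cD, Matrix.cons_val_zero, Matrix.cons_val_one]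
  ring

theorem p20 {ε : ℝ} (hε : 0 < ε) (δ : ℝ) (x : P4) :
    posD ε δ 2 x - posD ε δ 0 x = x.2.1 + x.1.1 / 2 := by
  have h1 : (1 + (ε : ℂ)) ≠ 0 := by
    exact_mod_cast (by positivity : (1 + ε : ℝ) ≠ 0)
  simp only [posD, cA, cD, Matrix.cons_val_zero, Matrix.cons_val]
  field_simp
  ring

theorem p21 {ε : ℝ} (hε : 0 < ε) (δ : ℝ) (x : P4) :
    posD ε δ 2 x - posD ε δ 1 x = x.2.1 - x.1.1 / 2 := by
  have h1 := p20 hε δ x
  have h2 := p10 ε δ x
  linear_combination h1 - h2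

theorem newt {ε : ℝ} (hε : 0 < ε) (δ : ℝ) (e c : ℂ) (he : ‖e‖ = 1) (x : P4) (a : Fin 3) :
    acc (mD ε δ) (fun b => c + e * posD ε δ b x) a =
      e * (-posD ε δ a x + 2 * I * velD ε δ a x + accD ε δ a x) := by
  have h1 : (1 + (ε : ℂ)) ≠ 0 := by
    exact_mod_cast (by positivity : (1 + ε : ℝ) ≠ 0)
  have e10 : (c + e * posD ε δ 1 x) - (c + e * posD ε δ 0 x) = e * x.1.1 := by
    rw [add_sub_add_left_eq_sub, ← mul_sub, p10]
  have e01 : (c + e * posD ε δ 0 x) - (c + e * posD ε δ 1 x) = e * (-x.1.1) := by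
    rw [add_sub_add_left_eq_sub, ← mul_sub, ← neg_sub, p10]
  have e20 : (c + e * posD ε δ 2 x) - (c + e * posD ε δ 0 x) = e * (x.2.1 + x.1.1 / 2) := by
    rw [add_sub_add_left_eq_sub, ← mul_sub, p20 hε]
  have e02 : (c + e * posD ε δ 0 x) - (c + e * posD ε δ 2 x) = e * (-(x.2.1 + x.1.1 / 2)) := by
    rw [add_sub_add_left_eq_sub, ← mul_sub, ← neg_sub, p20 hε]
  have e21 : (c + e * posD ε δ 2 x) - (c + e * posD ε δ 1 x) = e * (x.2.1 - x.1.1 / 2) := by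
    rw [add_sub_add_left_eq_sub, ← mul_sub, p21 hε]
  have e12 : (c + e * posD ε δ 1 x) - (c + e * posD ε δ 2 x) = e * (-(x.2.1 - x.1.1 / 2)) := by
    rw [add_sub_add_left_eq_sub, ← mul_sub, ← neg_sub, p21 hε]
  have u0 : (Finset.univ : Finset (Fin 3)).erase 0 = {1, 2} := by decide
  have u1 : (Finset.univ : Finset (Fin 3)).erase 1 = {0, 2} := by decide
  have u2 : (Finset.univ : Finset (Fin 3)).erase 2 = {0, 1} := by decide
  have m0 : mD ε δ 0 = 1/2 + δ := rfl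
  have m1 : mD ε δ 1 = 1/2 - δ := rfl
  have m2 : mD ε δ 2 = ε := rfl
  unfold acc
  fin_cases a
  · show ∑ b ∈ Finset.univ.erase (0 : Fin 3),
      ((mD ε δ b / ‖(c + e * posD ε δ b x) - (c + e * posD ε δ 0 x)‖ ^ 3 : ℝ) : ℂ)
        * ((c + e * posD ε δ b x) - (c + e * posD ε δ 0 x)) =
      e * (-posD ε δ 0 x + 2 * I * velD ε δ 0 x + accD ε δ 0 x)
    rw [u0, Finset.sum_pair (by decide), e10, e20, frc _ _ he, frc _ _ he, m1, m2]
    simp only [posD, velD, accD, fd, fe, hx, cA, cD, Matrix.cons_val_zero, Matrix.cons_val,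
      Prod.fst_add, Prod.snd_add]
    push_cast
    field_simp
    ring
  · show ∑ b ∈ Finset.univ.erase (1 : Fin 3),
      ((mD ε δ b / ‖(c + e * posD ε δ b x) - (c + e * posD ε δ 1 x)‖ ^ 3 : ℝ) : ℂ)
        * ((c + e * posD ε δ b x) - (c + e * posD ε δ 1 x)) =
      e * (-posD ε δ 1 x + 2 * I * velD ε δ 1 x + accD ε δ 1 x)
    rw [u1, Finset.sum_pair (by decide), e01, e21, frc _ _ he, frc _ _ he, m0, m2, gcn]
    simp only [posD, velD, accD, fd, fe, hx, cA, cD, Matrix.cons_val_zero, Matrix.cons_val,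
      Prod.fst_add, Prod.snd_add, Matrix.cons_val_one]
    push_cast
    field_simp
    ring
  · show ∑ b ∈ Finset.univ.erase (2 : Fin 3),
      ((mD ε δ b / ‖(c + e * posD ε δ b x) - (c + e * posD ε δ 2 x)‖ ^ 3 : ℝ) : ℂ)
        * ((c + e * posD ε δ b x) - (c + e * posD ε δ 2 x)) =
      e * (-posD ε δ 2 x + 2 * I * velD ε δ 2 x + accD ε δ 2 x)
    rw [u2, Finset.sum_pair (by decide), e02, e12, frc _ _ he, frc _ _ he, m0, m1, gcn, gcn]
    simp only [posD, velD, accD, fd, fe, hx, cA, cD, Matrix.cons_val_zero, Matrix.cons_val,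
      Prod.fst_add, Prod.snd_add]
    push_cast
    field_simp
    ring

/-- inertial phase point of a state of the rotating frame, centre of mass `c0`, velocity of the
centre of mass `c1` -/
noncomputable def St (ε δ : ℝ) (c0 c1 : ℂ) (x : P4) : Ph 3 :=
  (fun a => c0 + posD ε δ a x, fun a => c1 + (I * posD ε δ a x + velD ε δ a x))

theorem St_cont (ε δ : ℝ) (c0 c1 : ℂ) : Continuous (St ε δ c0 c1) := by
  unfold St posD velD
  refine Continuous.prodMk (continuous_pi fun a => ?_) (continuous_pi fun a => ?_)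
  · fun_prop
  · fun_prop

theorem goal_unb {ε δ : ℝ} (hε : 0 < ε) {x : P4} (h : Goal ε δ x) (c0 c1 : ℂ) :
    Unb (mD ε δ) (St ε δ c0 c1 x) := by
  obtain ⟨X, hX0, hX, α, β, hα, hT⟩ := h
  have he0 : eI 0 = 1 := by unfold eI; simp
  have d10 : ∀ t : ℝ, ((c0 + c1 * (t:ℂ)) + eI t * posD ε δ 1 (X t))
      - ((c0 + c1 * (t:ℂ)) + eI t * posD ε δ 0 (X t)) = eI t * (X t).1.1 := by
    intro t; rw [add_sub_add_left_eq_sub, ← mul_sub, p10]
  have d20 : ∀ t : ℝ, ((c0 + c1 * (t:ℂ)) + eI t * posD ε δ 2 (X t))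
      - ((c0 + c1 * (t:ℂ)) + eI t * posD ε δ 0 (X t)) = eI t * ((X t).2.1 + (X t).1.1 / 2) := by
    intro t; rw [add_sub_add_left_eq_sub, ← mul_sub, p20 hε]
  have d21' : ∀ t : ℝ, ((c0 + c1 * (t:ℂ)) + eI t * posD ε δ 2 (X t))
      - ((c0 + c1 * (t:ℂ)) + eI t * posD ε δ 1 (X t)) = eI t * ((X t).2.1 - (X t).1.1 / 2) := by
    intro t; rw [add_sub_add_left_eq_sub, ← mul_sub, p21 hε]
  have hE : ∀ t : ℝ, eI t ≠ 0 := fun t => exp_ne_zero _
  refine ⟨fun t : ℝ => (fun a => (c0 + c1 * (t:ℂ)) + eI t * posD ε δ a (X t),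
    fun a => c1 + eI t * (I * posD ε δ a (X t) + velD ε δ a (X t))), ?_, ?_, α / 2, 2, by positivity, ?_⟩
  · show ((fun a => (c0 + c1 * ((0:ℝ):ℂ)) + eI 0 * posD ε δ a (X 0)),
      (fun a => c1 + eI 0 * (I * posD ε δ a (X 0) + velD ε δ a (X 0)))) = St ε δ c0 c1 x
    rw [he0, hX0]
    unfold St
    simp
  · intro t ht
    obtain ⟨h1, n1, n2, n3⟩ := hX t ht
    constructor
    · have k10 : (c0 + c1 * (t:ℂ)) + eI t * posD ε δ 1 (X t)
          ≠ (c0 + c1 * (t:ℂ)) + eI t * posD ε δ 0 (X t) := by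
        rw [← sub_ne_zero, d10]; exact mul_ne_zero (hE t) n1
      have k20 : (c0 + c1 * (t:ℂ)) + eI t * posD ε δ 2 (X t)
          ≠ (c0 + c1 * (t:ℂ)) + eI t * posD ε δ 0 (X t) := by
        rw [← sub_ne_zero, d20]; exact mul_ne_zero (hE t) n2
      have k21 : (c0 + c1 * (t:ℂ)) + eI t * posD ε δ 2 (X t)
          ≠ (c0 + c1 * (t:ℂ)) + eI t * posD ε δ 1 (X t) := by
        rw [← sub_ne_zero, d21']; exact mul_ne_zero (hE t) n3
      intro a b hab
      fin_cases a <;> fin_cases b <;>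
        first
        | exact absurd rfl hab
        | exact k10
        | exact k10.symm
        | exact k20
        | exact k20.symm
        | exact k21
        | exact k21.symm
    · refine HasDerivAt.hasDerivWithinAt ?_
      refine HasDerivAt.prodMk (hasDerivAt_pi.mpr fun a => ?_) (hasDerivAt_pi.mpr fun a => ?_)
      · have h2 : HasDerivAt (fun s : ℝ => c0 + c1 * (s:ℂ)) (c1 * 1) t :=
          ((ofRealCLM.hasDerivAt (x := t)).const_mul c1).const_add c0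
        rw [mul_one] at h2
        exact h2.add (hasDerivAt_q h1 a)
      · have h3 := (hasDerivAt_dq h1 a).const_add c1
        refine h3.congr_deriv ?_
        exact (newt hε δ (eI t) (c0 + c1 * (t:ℂ)) (norm_eI t) (X t) a).symm
  · filter_upwards [hT, eventually_ge_atTop (2 * (1 - β) / α)] with t ht ht2
    obtain ⟨ht, hR⟩ := ht
    have h5 : ‖(2:ℂ)‖ = 2 := by norm_num
    have h6 : 1 - β ≤ α / 2 * t := by
      rw [div_le_iff₀ hα] at ht2
      linarith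
    refine ⟨?_, ?_, ?_⟩
    · show α / 2 * t ≤ ‖((c0 + c1 * (t:ℂ)) + eI t * posD ε δ 2 (X t))
        - ((c0 + c1 * (t:ℂ)) + eI t * posD ε δ 0 (X t))‖
      rw [d20, norm_mul, norm_eI, one_mul]
      have h4 := norm_sub_norm_le (X t).2.1 (-((X t).1.1/2))
      rw [sub_neg_eq_add, norm_neg, norm_div, h5] at h4
      linarith
    · show α / 2 * t ≤ ‖((c0 + c1 * (t:ℂ)) + eI t * posD ε δ 2 (X t))
        - ((c0 + c1 * (t:ℂ)) + eI t * posD ε δ 1 (X t))‖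
      rw [d21', norm_mul, norm_eI, one_mul]
      have h4 := norm_sub_norm_le (X t).2.1 ((X t).1.1/2)
      rw [norm_div, h5] at h4
      linarith
    · show ‖((c0 + c1 * (t:ℂ)) + eI t * posD ε δ 1 (X t))
        - ((c0 + c1 * (t:ℂ)) + eI t * posD ε δ 0 (X t))‖ ≤ 2
      rw [d10, norm_mul, norm_eI, one_mul]
      exact hR

end Run7.h874.LE
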