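import Pool.Agent.Run7.h874.LE.Esc3
import Pool.Agent.Run7.h874.LE.EndDE
import Pool.Agent.Run7.h874.PieceC3

/-!
# From the exit class near the hub to infinity, in the full problem
-/

set_option autoImplicit false

namespace Run7.h874.LE

open Complex Set

theorem hyp' : Hyp := ⟨stmtB1, stmtB2, stmtB3, stmtC1, stmtC2, stmtC5⟩

theorem comps {x y : P4} {m : ℝ} (h : ‖x - y‖ ≤ m) :
    ‖x.1.1 - y.1.1‖ ≤ m ∧ ‖x.1.2 - y.1.2‖ ≤ m ∧ ‖x.2.1 - y.2.1‖ ≤ m ∧ ‖x.2.2 - y.2.2‖ ≤ m :=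
  ⟨((norm_fst_le (x - y).1).trans (norm_fst_le (x - y))).trans h,
    ((norm_snd_le (x - y).1).trans (norm_fst_le (x - y))).trans h,
    ((norm_fst_le (x - y).2).trans (norm_snd_le (x - y))).trans h,
    ((norm_snd_le (x - y).2).trans (norm_snd_le (x - y))).trans h⟩

/-- no cut-off near a far state of the restricted problem -/
theorem nc_near {y : P2} {x : P4} (hy : far y) (h : ‖(((1, 0), y) : P4) - x‖ ≤ 1/10^5) : NC x := by
  obtain ⟨c1, -, c3, -⟩ := comps h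
  obtain ⟨f1, f2, -, -⟩ := hy
  have r0 : rho0 = 1/10000 := rfl
  rw [r0] at f1 f2
  simp only at c1 c3
  have hh : ‖(1 - x.1.1) / 2‖ ≤ 1/10^5 := by
    rw [norm_div]
    have : ‖(2:ℂ)‖ = 2 := by norm_num
    rw [this]
    have := norm_nonneg (1 - x.1.1)
    linarith
  have low : ∀ {a b : ℂ} {m : ℝ}, m ≤ ‖a‖ → ‖a - b‖ ≤ 3/10^5 → m - 3/10^5 ≤ ‖b‖ := by
    intro a b m h1 h2
    have := norm_sub_norm_le a (a - b)
    have e : a - (a - b) = b := by ring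
    rw [e] at this
    linarith
  refine ⟨?_, ?_, ?_⟩
  · have := low (a := 1) (b := x.1.1) (m := 1) (by rw [norm_one]) (by linarith)
    rw [r0]; norm_num at this ⊢; linarith
  · have := low (a := y.1 + 1/2) (b := x.2.1 + x.1.1/2) f1 (by
      have e : y.1 + 1/2 - (x.2.1 + x.1.1/2) = (y.1 - x.2.1) + (1 - x.1.1) / 2 := by ring
      rw [e]
      exact (norm_add_le _ _).trans (by linarith))
    rw [r0]; norm_num at this ⊢; linarith
  · have := low (a := y.1 - 1/2) (b := x.2.1 - x.1.1/2) f2 (by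
      have e : y.1 - 1/2 - (x.2.1 - x.1.1/2) = (y.1 - x.2.1) - (1 - x.1.1) / 2 := by ring
      rw [e]
      exact (norm_sub_le _ _).trans (by linarith))
    rw [r0]; norm_num at this ⊢; linarith

theorem pass : ∃ κ η T3 : ℝ, 0 < κ ∧ 0 < η ∧ η ≤ 1/10^4 ∧ 0 ≤ T3 ∧
    ∀ ε δ : ℝ, 0 ≤ ε → ε ≤ η → |δ| ≤ η → ∀ Φ : ℝ → P4 → P4, IsFlow (fd rho0 ε δ) Φ →
      ∀ (x : P4) (ψ : ℝ), OutC DE.outp.r DE.outp.ϵ ψ x.2 → |ψ - DE.outp.θ| ≤ DE.outp.Δ →
        ‖x.1.1 - 1‖ ≤ κ → ‖x.1.2‖ ≤ κ →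
        (∀ t, 0 ≤ t → NC (Φ t x)) ∧
        ∀ t, T3 ≤ t → 3.2 + 0.44 * (t - T3) ≤ ‖Zb δ (Φ t x)‖ ∧ ‖(Φ t x).1.1‖ ≤ 1.2 := by
  obtain ⟨T3, hT3, hconn⟩ := DE.conn hyp'
  obtain ⟨K, hK⟩ := stmtA3.1 rho0 rho0_pos (by unfold rho0; norm_num)
  obtain ⟨φ, hφ⟩ := stmtA1 P2 (f0 rho0) K hK
  set Ex := Real.exp (LK * T3) with hEx
  have hEx0 : 0 < Ex := Real.exp_pos _
  have hD := DK_nonneg
  set κ := 1 / (2 * 10^5 * Ex) with hκ
  set η := min (1/10^4) (1 / (4 * 10^5 * Ex * (DK * T3 + 1))) with hη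
  have hDT : 0 ≤ DK * T3 := mul_nonneg hD hT3.le
  have hη0 : 0 < η := lt_min (by norm_num) (by positivity)
  have hη1 : η ≤ 1/10^4 := min_le_left _ _
  have hη2 : η ≤ 1 / (4 * 10^5 * Ex * (DK * T3 + 1)) := min_le_right _ _
  have hκ0 : 0 < κ := by positivity
  refine ⟨κ, η, T3, hκ0, hη0, hη1, hT3.le, ?_⟩
  intro ε δ h0 h1 h2 Φ hΦ x ψ hx hψ k1 k2
  obtain ⟨hS, hz, hv⟩ := hconn φ hφ x.2 ψ hx hψ
  have hε1 : ε ≤ 1 := by norm_num at hη1; linarith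
  have hδ1 : |δ| ≤ 1 := by norm_num at hη1; linarith
  have near := near_restr h0 hε1 hδ1 hΦ hφ hκ0.le hT3.le k1 k2
  have hb : (κ + DK * (ε + |δ|) * T3) * Ex ≤ 1/10^5 := by
    have e1 : κ * Ex = 1/10^5/2 := by rw [hκ]; field_simp
    have e2 : DK * (ε + |δ|) * T3 ≤ (DK * T3 + 1) * (2 * η) := by
      have h3 : ε + |δ| ≤ 2 * η := by linarith
      have h4 : DK * (ε + |δ|) * T3 = (DK * T3) * (ε + |δ|) := by ring
      rw [h4]
      exact mul_le_mul (by linarith) h3 (by positivity) (by positivity)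
    have e3 : (DK * T3 + 1) * (2 * η) * Ex ≤ 1/10^5/2 := by
      have h3 := mul_le_mul_of_nonneg_left hη2 (show 0 ≤ (DK * T3 + 1) * 2 * Ex by positivity)
      have h4 : (DK * T3 + 1) * 2 * Ex * (1 / (4 * 10^5 * Ex * (DK * T3 + 1))) = 1/10^5/2 := by
        field_simp; norm_num
      rw [h4] at h3
      linarith
    have e4 := mul_le_mul_of_nonneg_right e2 hEx0.le
    rw [add_mul, e1]
    linarith
  have near' : ∀ t ∈ Icc 0 T3, ‖(((1, 0), φ t x.2) : P4) - Φ t x‖ ≤ 1/10^5 := fun t ht =>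
    (near t ht).trans hb
  have hfar : ∀ t ∈ Icc 0 T3, far (φ t x.2) := fun t ht => (hS.2 t ht).1
  obtain ⟨c1, c2, c3, c4⟩ := comps (near' T3 ⟨hT3.le, le_rfl⟩)
  simp only at c1 c2 c3 c4
  have ez : DE.zc = zE := rfl
  have ev : DE.vc = vE := rfl
  rw [ez] at hz
  rw [ev] at hv
  have hEs : Es (Φ T3 x) := by
    refine ⟨?_, ?_, ?_, ?_⟩
    · rw [norm_sub_rev]; norm_num at c1 ⊢; linarith
    · rw [zero_sub, norm_neg] at c2; norm_num at c2 ⊢; linarith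
    · have e : (Φ T3 x).2.1 - zE = ((φ T3 x.2).1 - zE) - ((φ T3 x.2).1 - (Φ T3 x).2.1) := by ring
      rw [e]
      refine (norm_sub_le _ _).trans ?_
      norm_num at c3 hz ⊢; linarith
    · have e : (Φ T3 x).2.2 - vE = ((φ T3 x.2).2 - vE) - ((φ T3 x.2).2 - (Φ T3 x).2.2) := by ring
      rw [e]
      refine (norm_sub_le _ _).trans ?_
      norm_num at c4 hv ⊢; linarith
  have esc := escape h0 (h1.trans hη1) (h2.trans hη1) hΦ hEs
  have hsplit : ∀ t, Φ t x = Φ (t - T3) (Φ T3 x) := by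
    intro t
    rw [← hΦ.add]; congr 1; ring
  constructor
  · intro t ht
    rcases le_total t T3 with h | h
    · exact nc_near (hfar t ⟨ht, h⟩) (near' t ⟨ht, h⟩)
    · rw [hsplit]
      exact (esc (t - T3) (by linarith)).1.nc
  · intro t ht
    rw [hsplit]
    obtain ⟨w, hw⟩ := esc (t - T3) (by linarith)
    exact ⟨hw, w.r2⟩

end Run7.h874.LE
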