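import Pool.Agent.Run7.h874.LE.Pass

/-!
# Escaping states in the rotating frame
-/

set_option autoImplicit false

namespace Run7.h874.LE

open Complex Set Filter

/-- the true solution that starts at `x` exists for all positive times and body 2 goes to infinity -/
def Goal (ε δ : ℝ) (x : P4) : Prop :=
  ∃ X : ℝ → P4, X 0 = x ∧ (∀ t, 0 ≤ t → HasDerivAt X (fd 0 ε δ (X t)) t ∧ (X t).1.1 ≠ 0 ∧
    (X t).2.1 + (X t).1.1/2 ≠ 0 ∧ (X t).2.1 - (X t).1.1/2 ≠ 0) ∧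
    ∃ a b : ℝ, 0 < a ∧ ∀ᶠ t in atTop, a * t + b ≤ ‖(X t).2.1‖ ∧ ‖(X t).1.1‖ ≤ 2

theorem NC.ne {y : P4} (h : NC y) :
    y.1.1 ≠ 0 ∧ y.2.1 + y.1.1/2 ≠ 0 ∧ y.2.1 - y.1.1/2 ≠ 0 := by
  obtain ⟨h1, h2, h3⟩ := h
  have r := rho0_pos
  exact ⟨norm_pos_iff.mp (by linarith), norm_pos_iff.mp (by linarith), norm_pos_iff.mp (by linarith)⟩

theorem nc_hub {y : P4} (h : ‖y - hub4‖ ≤ 1/50) : NC y := by
  obtain ⟨c1, -, c3, -⟩ := comps h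
  have r0 : rho0 = 1/10000 := rfl
  have e1 : (hub4.1).1 = 1 := rfl
  have e2 : (hub4.2).1 = hubZ := rfl
  rw [e1] at c1
  rw [e2] at c3
  have hh : ‖(y.1.1 - 1) / 2‖ ≤ 1/100 := by
    rw [norm_div]
    have : ‖(2:ℂ)‖ = 2 := by norm_num
    rw [this]
    linarith
  have low : ∀ {a b : ℂ}, ‖a‖ = 1 → ‖b - a‖ ≤ 3/100 → 97/100 ≤ ‖b‖ := by
    intro a b h1 h2
    have := norm_sub_norm_le a (a - b)
    have e : a - (a - b) = b := by ring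
    rw [e, h1, norm_sub_rev] at this
    linarith
  refine ⟨?_, ?_, ?_⟩
  · have := low (a := 1) (b := y.1.1) norm_one (by linarith)
    rw [r0]; linarith
  · have := low (a := hubZ + 1/2) (b := y.2.1 + y.1.1/2) norm_hub1 (by
      have e : y.2.1 + y.1.1/2 - (hubZ + 1/2) = (y.2.1 - hubZ) + (y.1.1 - 1) / 2 := by ring
      rw [e]
      exact (norm_add_le _ _).trans (by linarith))
    rw [r0]; linarith
  · have := low (a := hubZ - 1/2) (b := y.2.1 - y.1.1/2) norm_hub2 (by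
      have e : y.2.1 - y.1.1/2 - (hubZ - 1/2) = (y.2.1 - hubZ) - (y.1.1 - 1) / 2 := by ring
      rw [e]
      exact (norm_sub_le _ _).trans (by linarith))
    rw [r0]; linarith

/-- the states from which the exit class near the hub is reached -/
def Strt (κ ε δ : ℝ) (x : P4) : Prop :=
  ∃ Φ : ℝ → P4 → P4, IsFlow (fd rho0 ε δ) Φ ∧ ∃ T ψ : ℝ, 0 ≤ T ∧
    OutC DE.outp.r DE.outp.ϵ ψ (Φ T x).2 ∧ |ψ - DE.outp.θ| ≤ DE.outp.Δ ∧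
    ‖(Φ T x).1.1 - 1‖ ≤ κ ∧ ‖(Φ T x).1.2‖ ≤ κ ∧ ∀ t ∈ Icc 0 T, ‖Φ t x - hub4‖ ≤ 1/50

theorem goal : ∃ κ η : ℝ, 0 < κ ∧ 0 < η ∧ η ≤ 1/10^4 ∧ ∀ ε δ : ℝ, 0 ≤ ε → ε ≤ η → |δ| ≤ η →
    ∀ x : P4, Strt κ ε δ x → Goal ε δ x := by
  obtain ⟨κ, η, T3, hκ, hη, hη1, hT3, hpass⟩ := pass
  refine ⟨κ, η, hκ, hη, hη1, ?_⟩
  intro ε δ h0 h1 h2 x ⟨Φ, hΦ, T, ψ, hT, o1, o2, o3, o4, o5⟩
  obtain ⟨p1, p2⟩ := hpass ε δ h0 h1 h2 Φ hΦ (Φ T x) ψ o1 o2 o3 o4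
  have hsplit : ∀ t, Φ t x = Φ (t - T) (Φ T x) := by
    intro t
    rw [← hΦ.add]; congr 1; ring
  have hnc : ∀ t, 0 ≤ t → NC (Φ t x) := by
    intro t ht
    rcases le_total t T with h | h
    · exact nc_hub (o5 t ⟨ht, h⟩)
    · rw [hsplit]
      exact p1 (t - T) (by linarith)
  have hbig : ∀ t, T + T3 ≤ t → 3 + 0.44 * (t - (T + T3)) ≤ ‖(Φ t x).2.1‖ ∧ ‖(Φ t x).1.1‖ ≤ 1.2 := by
    intro t ht
    obtain ⟨q1, q2⟩ := p2 (t - T) (by linarith)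
    rw [← hsplit] at q1 q2
    refine ⟨?_, q2⟩
    have e1 : ‖Zb δ (Φ t x)‖ ≤ ‖(Φ t x).2.1‖ + |δ| * ‖(Φ t x).1.1‖ := by
      unfold Zb
      refine (norm_add_le _ _).trans ?_
      rw [norm_mul, Complex.norm_real, Real.norm_eq_abs]
    have e2 : |δ| * ‖(Φ t x).1.1‖ ≤ 1/10^4 * 1.2 :=
      mul_le_mul (h2.trans hη1) q2 (norm_nonneg _) (by norm_num)
    norm_num at e2 q1 ⊢
    linarith
  refine ⟨fun t => Φ t x, hΦ.zero x, ?_, 0.44, 3 - 0.44 * (T + T3), by norm_num, ?_⟩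
  · intro t ht
    have := hΦ.deriv t x
    rw [fd_nc ε δ (hnc t ht)] at this
    exact ⟨this, (hnc t ht).ne⟩
  · filter_upwards [eventually_ge_atTop (T + T3)] with t ht
    obtain ⟨b1, b2⟩ := hbig t ht
    exact ⟨by linarith, b2.trans (by norm_num)⟩

end Run7.h874.LE
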