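import Pool.Agent.Run7.h874.LE.Cen
import Pool.Agent.Run7.h852.NW.Main
import Pool.Agent.Run7.h842.NB_INV

/-!
# Planar solutions inside a reparametrized spatial flow
-/

set_option autoImplicit false

namespace Run7.h874.LE

open Set Filter Topology
open Pool.Agent.Y516.NW (E3 Cfg Surf Mot NonW Free Z IsFl vel free_open surf_free)

/-- the planar phase point `w` in the plane `J` of space (positions, momenta) -/
noncomputable def Em (m : Fin 3 → ℝ) (J : ℂ →ₗᵢ[ℝ] E3) (w : Ph 3) : Cfg 3 × Cfg 3 :=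
  (fun i => J (w.1 i), fun i => m i • J (w.2 i))

/-- positions and velocities -/
noncomputable def Ev (J : ℂ →ₗᵢ[ℝ] E3) (w : Ph 3) : Cfg 3 × Cfg 3 :=
  (fun i => J (w.1 i), fun i => J (w.2 i))

theorem Em_cont (m : Fin 3 → ℝ) (J : ℂ →ₗᵢ[ℝ] E3) : Continuous (Em m J) := by
  unfold Em
  refine Continuous.prodMk (continuous_pi fun a => ?_) (continuous_pi fun a => ?_)
  · exact J.continuous.comp ((continuous_apply a).comp continuous_fst)
  · exact (J.continuous.comp ((continuous_apply a).comp continuous_snd)).const_smul (m a)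

/-- Newton's field for positions and velocities -/
noncomputable def Gn (m : Fin 3 → ℝ) (x : Cfg 3 × Cfg 3) : Cfg 3 × Cfg 3 :=
  (x.2, fun i => Pool.Agent.Y516.NW.acc m x.1 i)

theorem Gn_contDiff (m : Fin 3 → ℝ) : ContDiffOn ℝ 1 (Gn m) (Free 3) := by
  unfold Gn
  have h1 : ∀ i : Fin 3, ContDiff ℝ 1 (fun x : Cfg 3 × Cfg 3 => x.1 i) := fun i =>
    (contDiff_apply ℝ E3 i).comp contDiff_fst
  refine ContDiffOn.prodMk contDiff_snd.contDiffOn ?_
  refine contDiffOn_pi.2 fun i => ?_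
  unfold Pool.Agent.Y516.NW.acc
  refine ContDiffOn.sum fun j _ => ?_
  by_cases hij : j = i
  · subst hij
    simp only [sub_self, smul_zero]
    exact contDiffOn_const
  · have h4 : ContDiffOn ℝ 1 (fun x : Cfg 3 × Cfg 3 => m j / ‖x.1 j - x.1 i‖ ^ 3) (Free 3) := by
      intro x hx
      have hne : x.1 j - x.1 i ≠ 0 := sub_ne_zero.2 (hx j i hij)
      have h3 : ContDiffAt ℝ 1 (fun x : Cfg 3 × Cfg 3 => ‖x.1 j - x.1 i‖) x :=
        ((h1 j).sub (h1 i)).contDiffAt.norm ℝ hne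
      exact (contDiffAt_const.div (h3.pow 3)
        (pow_ne_zero 3 (norm_ne_zero_iff.2 hne))).contDiffWithinAt
    exact h4.smul ((h1 j).sub (h1 i)).contDiffOn

theorem acc_em (m : Fin 3 → ℝ) (J : ℂ →ₗᵢ[ℝ] E3) (q : Fin 3 → ℂ) (i : Fin 3) :
    Pool.Agent.Y516.NW.acc m (fun k => J (q k)) i = J (acc m q i) := by
  unfold acc Pool.Agent.Y516.NW.acc
  rw [map_sum]
  rw [← Finset.sum_erase Finset.univ (a := i) (by simp)]
  refine Finset.sum_congr rfl fun b _ => ?_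
  rw [← map_sub, J.norm_map, ← Complex.real_smul, map_smul]

theorem comp_uniq (m : Fin 3 → ℝ) {c : ℝ → ℝ} (hc : Continuous c) {f g : ℝ → Cfg 3 × Cfg 3}
    (hf : ∀ t, 0 ≤ t → HasDerivWithinAt f (c t • Gn m (f t)) (Ici 0) t)
    (hg : ∀ t, 0 ≤ t → HasDerivWithinAt g (c t • Gn m (g t)) (Ici 0) t)
    (hfU : ∀ t, 0 ≤ t → f t ∈ Free 3) (hgU : ∀ t, 0 ≤ t → g t ∈ Free 3) (h0 : f 0 = g 0) :
    ∀ t, 0 ≤ t → f t = g t := by
  intro T hT
  have hfc : ContinuousOn f (Icc 0 T) := fun t ht =>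
    ((hf t ht.1).continuousWithinAt).mono Icc_subset_Ici_self
  have hgc : ContinuousOn g (Icc 0 T) := fun t ht =>
    ((hg t ht.1).continuousWithinAt).mono Icc_subset_Ici_self
  have hK : IsCompact (f '' Icc 0 T ∪ g '' Icc 0 T) :=
    (isCompact_Icc.image_of_continuousOn hfc).union (isCompact_Icc.image_of_continuousOn hgc)
  obtain ⟨L, hL⟩ : ∃ L, LipschitzOnWith L (Gn m) (f '' Icc 0 T ∪ g '' Icc 0 T) := by
    refine LocallyLipschitzOn.exists_lipschitzOnWith_of_compact hK ?_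
    intro x hx
    have hxF : x ∈ Free 3 := by
      rcases hx with ⟨t, ht, rfl⟩ | ⟨t, ht, rfl⟩
      · exact hfU t ht.1
      · exact hgU t ht.1
    obtain ⟨K, s, hs, hL⟩ := ((Gn_contDiff m).contDiffAt (free_open.mem_nhds hxF)).exists_lipschitzOnWith
    exact ⟨K, s, mem_nhdsWithin_of_mem_nhds hs, hL⟩
  obtain ⟨C, hC⟩ : ∃ C : ℝ, ∀ t ∈ Icc 0 T, ‖c t‖ ≤ C :=
    isCompact_Icc.exists_bound_of_continuousOn hc.continuousOn
  have hC0 : 0 ≤ C := (norm_nonneg _).trans (hC 0 ⟨le_rfl, hT⟩)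
  have hv : ∀ t ∈ Ico 0 T, LipschitzOnWith (⟨C, hC0⟩ * L) (fun x => c t • Gn m x)
      (f '' Icc 0 T ∪ g '' Icc 0 T) := by
    intro t ht
    refine LipschitzOnWith.of_dist_le_mul fun x hx y hy => ?_
    rw [dist_smul₀]
    have h1 := hL.dist_le_mul x hx y hy
    have h2 := hC t ⟨ht.1, ht.2.le⟩
    push_cast
    rw [mul_assoc]
    exact mul_le_mul h2 h1 dist_nonneg hC0
  have key := ODE_solution_unique_of_mem_Icc_right (v := fun t x => c t • Gn m x)
    (s := fun _ => f '' Icc 0 T ∪ g '' Icc 0 T) (f := f) (g := g) (a := 0) (b := T)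
    (K := ⟨C, hC0⟩ * L) hv hfc
    (fun t ht => (hf t ht.1).mono (Ici_subset_Ici.mpr ht.1))
    (fun t ht => Or.inl ⟨t, ⟨ht.1, ht.2.le⟩, rfl⟩) hgc
    (fun t ht => (hg t ht.1).mono (Ici_subset_Ici.mpr ht.1))
    (fun t ht => Or.inr ⟨t, ⟨ht.1, ht.2.le⟩, rfl⟩) h0
  exact key ⟨hT, le_rfl⟩

/-- the flow follows the planar solution -/
theorem flow_eq {m : Fin 3 → ℝ} (hm : ∀ i, 0 < m i) {E : ℝ} {ψ : Cfg 3 × Cfg 3 → ℝ}
    {φ : ℝ → Cfg 3 × Cfg 3 → Cfg 3 × Cfg 3} (hφ : IsFl m E ψ φ) (J : ℂ →ₗᵢ[ℝ] E3)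
    {x : ℝ → Ph 3} (hx : IsSol m (Ici 0) x) (hy : Em m J (x 0) ∈ Surf m E) :
    ∀ t, 0 ≤ t → 0 ≤ ∫ s in (0:ℝ)..t, ψ (φ s (Em m J (x 0))) ∧
      φ t (Em m J (x 0)) = Em m J (x (∫ s in (0:ℝ)..t, ψ (φ s (Em m J (x 0))))) := by
  have hmot := Run7.h852.NW.time_eq m hm E ψ φ hφ _ hy
  set y := Em m J (x 0) with hyd
  set τ : ℝ → ℝ := fun t => ∫ s in (0:ℝ)..t, ψ (φ s y) with hτ
  have hfl := hφ.flow y hy
  have hcont : Continuous fun t => φ t y :=
    continuous_iff_continuousAt.mpr fun t => (hfl.2 t).2.continuousAt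
  have hc : Continuous fun t => ψ (φ t y) :=
    hφ.cont.comp_continuous hcont (fun t => surf_free m E (hfl.2 t).1)
  have hτ0 : ∀ t, 0 ≤ t → 0 ≤ τ t := fun t ht => hmot.nonneg ht
  have hmaps : MapsTo τ (Ici 0) (Ici 0) := fun t ht => hτ0 t ht
  have key := comp_uniq m (c := fun t => ψ (φ t y)) hc
    (f := fun t => ((φ t y).1, vel m (φ t y))) (g := fun t => Ev J (x (τ t)))
    (fun t _ => by
      have h1 : HasDerivAt (fun s => ((φ s y).1, vel m (φ s y)))
          (ψ (φ t y) • Gn m ((φ t y).1, vel m (φ t y))) t :=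
        HasDerivAt.prodMk (hasDerivAt_pi.mpr fun i => hmot.qd t i)
          (hasDerivAt_pi.mpr fun i => hmot.vd t i)
      exact h1.hasDerivWithinAt)
    (fun t ht => by
      obtain ⟨-, h2⟩ := hx (τ t) (hτ0 t ht)
      have h4 := HasDerivWithinAt.scomp t h2 (hmot.τd t).hasDerivWithinAt hmaps
      have h5 : HasDerivWithinAt (fun s => Ev J (x (τ s)))
          ((fun i => J (ψ (φ t y) • (x (τ t)).2 i)),
            (fun i => J (ψ (φ t y) • acc m (x (τ t)).1 i))) (Ici 0) t := by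
        refine HasDerivWithinAt.prodMk (hasDerivWithinAt_pi.mpr fun i => ?_)
          (hasDerivWithinAt_pi.mpr fun i => ?_)
        · exact J.toContinuousLinearMap.hasFDerivAt.comp_hasDerivWithinAt t (comp1 h4 i)
        · exact J.toContinuousLinearMap.hasFDerivAt.comp_hasDerivWithinAt t (comp2 h4 i)
      refine h5.congr_deriv ?_
      unfold Gn Ev
      refine Prod.ext (funext fun i => ?_) (funext fun i => ?_)
      · show J (ψ (φ t y) • (x (τ t)).2 i) = ψ (φ t y) • J ((x (τ t)).2 i)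
        rw [map_smul]
      · show J (ψ (φ t y) • acc m (x (τ t)).1 i)
          = ψ (φ t y) • Pool.Agent.Y516.NW.acc m (fun k => J ((x (τ t)).1 k)) i
        rw [map_smul, acc_em])
    (fun t _ => fun i j hij => hmot.ne t i j hij)
    (fun t ht => fun i j hij h => by
      obtain ⟨h1, -⟩ := hx (τ t) (hτ0 t ht)
      exact h1 i j hij (J.injective h))
    (by
      have e : τ 0 = 0 := hmot.τ0
      show ((φ 0 y).1, vel m (φ 0 y)) = Ev J (x (τ 0))
      rw [e, hfl.1, hyd]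
      unfold Em Ev vel
      refine Prod.ext rfl (funext fun i => ?_)
      show (m i)⁻¹ • m i • J ((x 0).2 i) = J ((x 0).2 i)
      rw [smul_smul, inv_mul_cancel₀ (hm i).ne', one_smul])
  intro t ht
  refine ⟨hτ0 t ht, ?_⟩
  have h1 := key t ht
  have h2 : (φ t y).1 = (Ev J (x (τ t))).1 := (Prod.ext_iff.mp h1).1
  have h3 : vel m (φ t y) = (Ev J (x (τ t))).2 := (Prod.ext_iff.mp h1).2
  refine Prod.ext h2 (funext fun i => ?_)
  have h4 : (m i)⁻¹ • (φ t y).2 i = J ((x (τ t)).2 i) := congrFun h3 i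
  show (φ t y).2 i = m i • J ((x (τ t)).2 i)
  rw [← h4, smul_smul, mul_inv_cancel₀ (hm i).ne', one_smul]

theorem time_top {m : Fin 3 → ℝ} (hm : ∀ i, 0 < m i) {E : ℝ} {ψ : Cfg 3 × Cfg 3 → ℝ}
    {φ : ℝ → Cfg 3 × Cfg 3 → Cfg 3 × Cfg 3} (hφ : IsFl m E ψ φ) (J : ℂ →ₗᵢ[ℝ] E3)
    {x : ℝ → Ph 3} (hx : IsSol m (Ici 0) x) (hy : Em m J (x 0) ∈ Surf m E) :
    Tendsto (fun t => ∫ s in (0:ℝ)..t, ψ (φ s (Em m J (x 0)))) atTop atTop := by
  have hmot := Run7.h852.NW.time_eq m hm E ψ φ hφ _ hy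
  have hfe := flow_eq hm hφ J hx hy
  set y := Em m J (x 0) with hyd
  set τ : ℝ → ℝ := fun t => ∫ s in (0:ℝ)..t, ψ (φ s y) with hτ
  rcases tendsto_atTop_of_monotone hmot.mono with h | ⟨l, hl⟩
  · exact h
  exfalso
  have hl0 : 0 ≤ l := ge_of_tendsto hl (by
    filter_upwards [eventually_ge_atTop (0:ℝ)] with t ht
    exact (hfe t ht).1)
  have hlw : Tendsto τ atTop (𝓝[Ici 0] l) := by
    refine tendsto_nhdsWithin_iff.mpr ⟨hl, ?_⟩
    filter_upwards [eventually_ge_atTop (0:ℝ)] with t ht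
    exact (hfe t ht).1
  have hX : Tendsto (fun t => x (τ t)) atTop (𝓝 (x l)) :=
    ((hx l hl0).2.continuousWithinAt).tendsto.comp hlw
  have hE : Tendsto (fun t => Em m J (x (τ t))) atTop (𝓝 (Em m J (x l))) :=
    ((Em_cont m J).tendsto _).comp hX
  have hφt : Tendsto (fun t => φ t y) atTop (𝓝 (Em m J (x l))) := by
    refine hE.congr' ?_
    filter_upwards [eventually_ge_atTop (0:ℝ)] with t ht
    exact ((hfe t ht).2).symm
  have hfree : Em m J (x l) ∈ Free 3 := fun i j hij h => (hx l hl0).1 i j hij (J.injective h)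
  have hψ : Tendsto (fun t => ψ (φ t y)) atTop (𝓝 (ψ (Em m J (x l)))) :=
    ((hφ.cont.continuousAt (free_open.mem_nhds hfree)).tendsto).comp hφt
  have hpos : 0 < ψ (Em m J (x l)) := hφ.pos _ hfree
  obtain ⟨T0, hT0⟩ := eventually_atTop.mp
    (hψ.eventually (lt_mem_nhds (show ψ (Em m J (x l)) / 2 < ψ (Em m J (x l)) by linarith)))
  have hlow : ∀ t, T0 ≤ t → τ T0 + ψ (Em m J (x l)) / 2 * (t - T0) ≤ τ t := by
    intro t ht
    have hmo : MonotoneOn (fun s => τ s - ψ (Em m J (x l)) / 2 * s) (Ici T0) := by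
      apply monotoneOn_of_deriv_nonneg (convex_Ici T0)
      · exact fun s _ => ((hmot.τd s).sub ((hasDerivAt_id s).const_mul _)).continuousAt.continuousWithinAt
      · exact fun s _ => ((hmot.τd s).sub ((hasDerivAt_id s).const_mul _)).differentiableAt.differentiableWithinAt
      · intro s hs
        have h1 := (hmot.τd s).sub ((hasDerivAt_id s).const_mul (ψ (Em m J (x l)) / 2))
        have h2 := h1.deriv
        have h3 := hT0 s (interior_subset hs)
        have h4 : deriv (fun s => τ s - ψ (Em m J (x l)) / 2 * s) s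
            = ψ (φ s y) - ψ (Em m J (x l)) / 2 * 1 := h2
        rw [h4]; linarith
    have := hmo (Set.mem_Ici.mpr le_rfl) (Set.mem_Ici.mpr ht) ht
    simp only at this
    linarith
  have htop : Tendsto (fun t => τ T0 + ψ (Em m J (x l)) / 2 * (t - T0)) atTop atTop := by
    apply tendsto_atTop_add_const_left
    apply Tendsto.const_mul_atTop (by linarith)
    exact tendsto_atTop_add_const_right _ _ tendsto_id
  have htop2 : Tendsto τ atTop atTop := by
    refine tendsto_atTop_mono' _ ?_ htop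
    filter_upwards [eventually_ge_atTop T0] with t ht
    exact hlow t ht
  exact not_tendsto_nhds_of_tendsto_atTop htop2 l hl

/-- embedded centred states lie on the energy surface -/
theorem em_surf {m : Fin 3 → ℝ} (hm : ∀ i, 0 < m i) (J : ℂ →ₗᵢ[ℝ] E3) {w : Ph 3} {E : ℝ}
    (h0 : ∀ a b, a ≠ b → w.1 a ≠ w.1 b) (h1 : ∑ i, (m i : ℂ) * w.1 i = 0)
    (h2 : ∑ i, (m i : ℂ) * w.2 i = 0) (h3 : En m w = E) : Em m J w ∈ Surf m E := by
  have hs : ∀ q : Fin 3 → ℂ, ∑ i, (m i : ℂ) * q i = 0 → ∑ i, m i • J (q i) = 0 := by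
    intro q hq
    have : J (∑ i, (m i : ℂ) * q i) = 0 := by rw [hq, map_zero]
    rw [map_sum] at this
    rw [← this]
    refine Finset.sum_congr rfl fun i _ => ?_
    rw [← Complex.real_smul, map_smul]
  refine ⟨fun a b hab h => h0 a b hab (J.injective h), hs _ h1, hs _ h2, ?_⟩
  rw [← h3]
  unfold En Em
  congr 1
  · refine Finset.sum_congr rfl fun i _ => ?_
    show ‖m i • J (w.2 i)‖ ^ 2 / (2 * m i) = _
    rw [norm_smul, J.norm_map, Real.norm_of_nonneg (hm i).le]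
    have := (hm i).ne'
    field_simp
  · refine Finset.sum_congr rfl fun i _ => Finset.sum_congr rfl fun j _ => ?_
    show m i * m j / ‖J (w.1 i) - J (w.1 j)‖ / 2 = _
    rw [← map_sub, J.norm_map]

theorem surf_em {m : Fin 3 → ℝ} (hm : ∀ i, 0 < m i) (J : ℂ →ₗᵢ[ℝ] E3) {w : Ph 3} {E : ℝ}
    (h : Em m J w ∈ Surf m E) : (∀ a b, a ≠ b → w.1 a ≠ w.1 b) ∧
    ∑ i, (m i : ℂ) * w.1 i = 0 ∧ ∑ i, (m i : ℂ) * w.2 i = 0 ∧ En m w = E := by
  obtain ⟨h0, h1, h2, h3⟩ := h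
  have hs : ∀ q : Fin 3 → ℂ, ∑ i, m i • J (q i) = 0 → ∑ i, (m i : ℂ) * q i = 0 := by
    intro q hq
    apply J.injective
    rw [map_zero, map_sum, ← hq]
    refine Finset.sum_congr rfl fun i _ => ?_
    rw [← Complex.real_smul, map_smul]
  refine ⟨fun a b hab h => h0 a b hab (congrArg J h), hs _ h1, hs _ h2, ?_⟩
  rw [← h3]
  unfold En Em
  congr 1
  · refine Finset.sum_congr rfl fun i _ => ?_
    show _ = ‖m i • J (w.2 i)‖ ^ 2 / (2 * m i)
    rw [norm_smul, J.norm_map, Real.norm_of_nonneg (hm i).le]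
    have := (hm i).ne'
    field_simp
  · refine Finset.sum_congr rfl fun i _ => Finset.sum_congr rfl fun j _ => ?_
    show _ = m i * m j / ‖J (w.1 i) - J (w.1 j)‖ / 2
    rw [← map_sub, J.norm_map]

end Run7.h874.LE
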