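import Pool.Agent.Run7.h874.LE.Inert

/-!
# Symmetries of the three-body problem
-/

set_option autoImplicit false

namespace Run7.h874.LE

open Complex Set Filter Topology

/-- every neighbourhood of `z` contains escaping states -/
def Acc (m : Fin 3 → ℝ) (z : Ph 3) : Prop := ∀ U ∈ 𝓝 z, ∃ w ∈ U, Unb m w

theorem comp1 {x : ℝ → Ph 3} {D : Ph 3} {J : Set ℝ} {t : ℝ} (h : HasDerivWithinAt x D J t)
    (a : Fin 3) : HasDerivWithinAt (fun s => (x s).1 a) (D.1 a) J t := by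
  have h1 : HasDerivWithinAt (fun s => (x s).1) D.1 J t := h.fst
  exact (hasDerivWithinAt_pi.mp h1) a

theorem comp2 {x : ℝ → Ph 3} {D : Ph 3} {J : Set ℝ} {t : ℝ} (h : HasDerivWithinAt x D J t)
    (a : Fin 3) : HasDerivWithinAt (fun s => (x s).2 a) (D.2 a) J t := by
  have h1 : HasDerivWithinAt (fun s => (x s).2) D.2 J t := h.snd
  exact (hasDerivWithinAt_pi.mp h1) a

theorem ofcomp {x : ℝ → Ph 3} {D : Ph 3} {J : Set ℝ} {t : ℝ}
    (h1 : ∀ a, HasDerivWithinAt (fun s => (x s).1 a) (D.1 a) J t)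
    (h2 : ∀ a, HasDerivWithinAt (fun s => (x s).2 a) (D.2 a) J t) : HasDerivWithinAt x D J t := by
  have e1 : HasDerivWithinAt (fun s => (x s).1) D.1 J t := hasDerivWithinAt_pi.mpr h1
  have e2 : HasDerivWithinAt (fun s => (x s).2) D.2 J t := hasDerivWithinAt_pi.mpr h2
  exact e1.prodMk e2

/-! ## scaling and rotation -/

noncomputable def Ts (l k : ℝ) (u : ℂ) (w : Ph 3) : Ph 3 :=
  (fun a => (l:ℂ) * u * w.1 a, fun a => (l:ℂ) * u * k * w.2 a)

theorem Ts_cont (l k : ℝ) (u : ℂ) : Continuous (Ts l k u) := by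
  unfold Ts
  refine Continuous.prodMk (continuous_pi fun a => ?_) (continuous_pi fun a => ?_)
  · exact continuous_const.mul ((continuous_apply a).comp continuous_fst)
  · exact continuous_const.mul ((continuous_apply a).comp continuous_snd)

theorem acc_scale {m m' : Fin 3 → ℝ} {l k : ℝ} {u : ℂ} (hl : 0 < l) (hu : ‖u‖ = 1)
    (hm : ∀ a, m' a = l ^ 3 * k ^ 2 * m a) (q : Fin 3 → ℂ) (a : Fin 3) :
    acc m' (fun b => (l:ℂ) * u * q b) a = (l:ℂ) * u * k * (k * acc m q a) := by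
  unfold acc
  rw [Finset.mul_sum, Finset.mul_sum]
  refine Finset.sum_congr rfl fun b _ => ?_
  rw [← mul_sub, norm_mul, norm_mul, hu, mul_one, Complex.norm_real, Real.norm_eq_abs,
    abs_of_pos hl, hm b]
  have e : l ^ 3 * k ^ 2 * m b / (l * ‖q b - q a‖) ^ 3 = k ^ 2 * (m b / ‖q b - q a‖ ^ 3) := by
    have h1 : l ^ 3 ≠ 0 := by positivity
    rw [mul_pow, mul_assoc, mul_div_mul_left _ _ h1, mul_div_assoc]
  rw [e]
  push_cast
  ring

theorem IsSol.scale {m m' : Fin 3 → ℝ} {l k : ℝ} {u : ℂ} (hl : 0 < l) (hk : 0 < k) (hu : ‖u‖ = 1)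
    (hm : ∀ a, m' a = l ^ 3 * k ^ 2 * m a) {x : ℝ → Ph 3} (hx : IsSol m (Ici 0) x) :
    IsSol m' (Ici 0) (fun t => Ts l k u (x (k * t))) := by
  intro t ht
  have ht' : (0:ℝ) ≤ t := ht
  obtain ⟨h1, h2⟩ := hx (k * t) (mul_nonneg hk.le ht')
  have hu0 : u ≠ 0 := by rw [← norm_pos_iff, hu]; norm_num
  have hl0 : (l:ℂ) ≠ 0 := by exact_mod_cast hl.ne'
  refine ⟨fun a b hab => ?_, ?_⟩
  · show (l:ℂ) * u * (x (k * t)).1 a ≠ (l:ℂ) * u * (x (k * t)).1 b
    intro h
    exact h1 a b hab (mul_left_cancel₀ (mul_ne_zero hl0 hu0) h)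
  · have h3 : HasDerivWithinAt (fun s : ℝ => k * s) k (Ici 0) t := by
      simpa using ((hasDerivAt_id t).const_mul k).hasDerivWithinAt (s := Ici 0)
    have h4 := HasDerivWithinAt.scomp t h2 h3 (fun s hs => mul_nonneg hk.le hs)
    refine ofcomp (fun a => ?_) (fun a => ?_)
    · have h5 := (comp1 h4 a).const_mul ((l:ℂ) * u)
      refine h5.congr_deriv ?_
      show (l:ℂ) * u * (k • (x (k * t)).2 a) = (l:ℂ) * u * k * (x (k * t)).2 a
      rw [real_smul]; ring
    · have h5 := (comp2 h4 a).const_mul ((l:ℂ) * u * k)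
      refine h5.congr_deriv ?_
      show (l:ℂ) * u * k * (k • acc m (x (k * t)).1 a)
        = acc m' (fun b => (l:ℂ) * u * (x (k * t)).1 b) a
      rw [acc_scale hl hu hm, real_smul]

theorem Unb.scale {m m' : Fin 3 → ℝ} {l k : ℝ} {u : ℂ} (hl : 0 < l) (hk : 0 < k) (hu : ‖u‖ = 1)
    (hm : ∀ a, m' a = l ^ 3 * k ^ 2 * m a) {w : Ph 3} (h : Unb m w) : Unb m' (Ts l k u w) := by
  obtain ⟨x, h0, h1, α, ρ, hα, h2⟩ := h
  refine ⟨fun t => Ts l k u (x (k * t)), ?_, h1.scale hl hk hu hm, l * α * k, l * ρ,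
    by positivity, ?_⟩
  · simp only [mul_zero, h0]
  · have h3 := (tendsto_id.const_mul_atTop hk).eventually h2
    have e : ∀ (t : ℝ) (a b : Fin 3), ‖(Ts l k u (x (k * t))).1 a - (Ts l k u (x (k * t))).1 b‖
        = l * ‖(x (k * t)).1 a - (x (k * t)).1 b‖ := by
      intro t a b
      unfold Ts
      rw [← mul_sub, norm_mul, norm_mul, hu, mul_one, Complex.norm_real, Real.norm_eq_abs,
        abs_of_pos hl]
    filter_upwards [h3] with t ht
    obtain ⟨t1, t2, t3⟩ := ht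
    simp only [id] at t1 t2 t3
    rw [e, e, e]
    refine ⟨?_, ?_, mul_le_mul_of_nonneg_left t3 hl.le⟩
    · have := mul_le_mul_of_nonneg_left t1 hl.le
      linarith
    · have := mul_le_mul_of_nonneg_left t2 hl.le
      linarith

theorem Acc.map {m m' : Fin 3 → ℝ} {T : Ph 3 → Ph 3} (hT : Continuous T)
    (h : ∀ w, Unb m w → Unb m' (T w)) {z : Ph 3} (hz : Acc m z) : Acc m' (T z) := by
  intro U hU
  obtain ⟨w, hw, hw'⟩ := hz (T ⁻¹' U) (hT.continuousAt hU)
  exact ⟨T w, hw, h w hw'⟩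

/-! ## reflection -/

noncomputable def Tc (w : Ph 3) : Ph 3 :=
  (fun a => (starRingEnd ℂ) (w.1 a), fun a => (starRingEnd ℂ) (w.2 a))

theorem Tc_cont : Continuous Tc := by
  unfold Tc
  refine Continuous.prodMk (continuous_pi fun a => ?_) (continuous_pi fun a => ?_)
  · exact Complex.continuous_conj.comp ((continuous_apply a).comp continuous_fst)
  · exact Complex.continuous_conj.comp ((continuous_apply a).comp continuous_snd)

theorem Tc_Tc (w : Ph 3) : Tc (Tc w) = w := by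
  unfold Tc
  simp

theorem acc_conj (m : Fin 3 → ℝ) (q : Fin 3 → ℂ) (a : Fin 3) :
    acc m (fun b => (starRingEnd ℂ) (q b)) a = (starRingEnd ℂ) (acc m q a) := by
  unfold acc
  rw [map_sum]
  refine Finset.sum_congr rfl fun b _ => ?_
  rw [map_mul, Complex.conj_ofReal, ← map_sub, RCLike.norm_conj]

theorem conj_deriv {f : ℝ → ℂ} {d : ℂ} {J : Set ℝ} {t : ℝ} (h : HasDerivWithinAt f d J t) :
    HasDerivWithinAt (fun s => (starRingEnd ℂ) (f s)) ((starRingEnd ℂ) d) J t :=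
  (Complex.conjCLE.toContinuousLinearMap.hasFDerivAt (x := f t)).comp_hasDerivWithinAt t h

theorem IsSol.conj {m : Fin 3 → ℝ} {J : Set ℝ} {x : ℝ → Ph 3} (hx : IsSol m J x) :
    IsSol m J (fun t => Tc (x t)) := by
  intro t ht
  obtain ⟨h1, h2⟩ := hx t ht
  refine ⟨fun a b hab => ?_, ?_⟩
  · intro h
    exact h1 a b hab ((starRingEnd ℂ).injective h)
  · refine ofcomp (fun a => conj_deriv (comp1 h2 a)) (fun a => ?_)
    have h3 := conj_deriv (comp2 h2 a)
    refine h3.congr_deriv ?_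
    exact (acc_conj m (x t).1 a).symm

theorem Unb.conj {m : Fin 3 → ℝ} {w : Ph 3} (h : Unb m w) : Unb m (Tc w) := by
  obtain ⟨x, h0, h1, α, ρ, hα, h2⟩ := h
  refine ⟨fun t => Tc (x t), by simp only [h0], h1.conj, α, ρ, hα, ?_⟩
  have e : ∀ (t : ℝ) (a b : Fin 3), ‖(Tc (x t)).1 a - (Tc (x t)).1 b‖
      = ‖(x t).1 a - (x t).1 b‖ := by
    intro t a b
    unfold Tc
    rw [← map_sub, RCLike.norm_conj]
  filter_upwards [h2] with t ht
  rw [e, e, e]
  exact ht

/-! ## exchange of the bodies 0 and 1 -/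

def sw : Equiv.Perm (Fin 3) := Equiv.swap 0 1

theorem sw0 : sw 0 = 1 := by decide
theorem sw1 : sw 1 = 0 := by decide
theorem sw2 : sw 2 = 2 := by decide
theorem sws (a : Fin 3) : sw (sw a) = a := by unfold sw; simp

def Tw (w : Ph 3) : Ph 3 := (fun a => w.1 (sw a), fun a => w.2 (sw a))

theorem Tw_cont : Continuous Tw := by
  unfold Tw
  refine Continuous.prodMk (continuous_pi fun a => ?_) (continuous_pi fun a => ?_)
  · exact (continuous_apply (sw a)).comp continuous_fst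
  · exact (continuous_apply (sw a)).comp continuous_snd

theorem Tw_Tw (w : Ph 3) : Tw (Tw w) = w := by
  unfold Tw
  simp [sws]

theorem acc_swap (m : Fin 3 → ℝ) (q : Fin 3 → ℂ) (a : Fin 3) :
    acc (fun b => m (sw b)) (fun b => q (sw b)) a = acc m q (sw a) := by
  unfold acc
  have e : (Finset.univ : Finset (Fin 3)).erase (sw a)
      = ((Finset.univ : Finset (Fin 3)).erase a).map sw.toEmbedding := by
    ext b
    simp only [Finset.mem_erase, Finset.mem_univ, and_true, Finset.mem_map, Equiv.coe_toEmbedding]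
    constructor
    · intro h
      refine ⟨sw b, ?_, sws b⟩
      intro h2
      exact h (by rw [← h2, sws])
    · rintro ⟨c, hc, rfl⟩
      intro h
      exact hc (sw.injective h)
  rw [e, Finset.sum_map]
  rfl

theorem IsSol.swap {m : Fin 3 → ℝ} {J : Set ℝ} {x : ℝ → Ph 3} (hx : IsSol m J x) :
    IsSol (fun a => m (sw a)) J (fun t => Tw (x t)) := by
  intro t ht
  obtain ⟨h1, h2⟩ := hx t ht
  refine ⟨fun a b hab => h1 _ _ (fun h => hab (sw.injective h)), ?_⟩
  refine ofcomp (fun a => comp1 h2 (sw a)) (fun a => ?_)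
  refine (comp2 h2 (sw a)).congr_deriv ?_
  exact (acc_swap m (x t).1 a).symm

theorem Unb.swap {m : Fin 3 → ℝ} {w : Ph 3} (h : Unb m w) : Unb (fun a => m (sw a)) (Tw w) := by
  obtain ⟨x, h0, h1, α, ρ, hα, h2⟩ := h
  refine ⟨fun t => Tw (x t), by simp only [h0], h1.swap, α, ρ, hα, ?_⟩
  filter_upwards [h2] with t ht
  show α * t ≤ ‖(x t).1 (sw 2) - (x t).1 (sw 0)‖ ∧ α * t ≤ ‖(x t).1 (sw 2) - (x t).1 (sw 1)‖ ∧
    ‖(x t).1 (sw 1) - (x t).1 (sw 0)‖ ≤ ρ
  rw [sw2, sw1, sw0, norm_sub_rev ((x t).1 0)]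
  exact ⟨ht.2.1, ht.1, ht.2.2⟩

end Run7.h874.LE
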